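import Pool.Agent.Helper855DB.Core

/-! Asymptotic form of the random localisation inequality (helper855). -/

set_option autoImplicit false

open MeasureTheory Filter Topology Set ProbabilityTheory
open scoped ENNReal NNReal RealInnerProductSpace

namespace Pool.Agent.Helper855DB

variable {n : ℕ} {Ω : Set (Sp n)}

/-- auxiliary constant -/
noncomputable def C1 : ℝ := (Real.exp 1 + 16) / c0

theorem C1_pos : 0 < C1 := div_pos (by positivity) c0_pos

/-- the universal constant -/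
noncomputable def CC : ℝ := 4 * bb + |Real.log C1|

theorem CC_ge : 4 ≤ CC := by
  unfold CC
  have := bb_ge
  have := abs_nonneg (Real.log C1)
  linarith

/-- lower bound of min-max levels -/
theorem level_lower (hn : 1 ≤ n) {r : ℝ} (hr : 0 < r) (hΩ : IsOpen Ω)
    (hvol : volume Ω ≤ volume (Metric.ball (0 : Sp n) r)) {k : ℕ} (hk : 2 ≤ k) {c : ℝ}
    (hc : c ∈ Adm k Ω) {L : ℝ} (hL : ∀ u, Test Ω u → L * Ma u ≤ En u)
    (hLB : lam 1 (Metric.ball (0 : Sp n) r) ≤ L) :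
    lam 1 (Metric.ball (0 : Sp n) r) * (1 + 4 / n * (1 - CC / √(Real.log k))) +
      (1 - 4 / Real.log k) * (L - lam 1 (Metric.ball (0 : Sp n) r)) ≤ c := by
  have hn0 : (0:ℝ) < n := by exact_mod_cast hn
  set Λ := lam 1 (Metric.ball (0 : Sp n) r) with hΛ
  have hΛ0 : 0 ≤ Λ := lam_nonneg le_rfl
  have hk2 : (2:ℝ) ≤ k := by exact_mod_cast hk
  have hlog : 0 < Real.log k := Real.log_pos (by linarith)
  set τ : ℝ := √(Real.log k) with hτ
  have hτ0 : 0 < τ := Real.sqrt_pos.2 hlog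
  have hτ2 : τ ^ 2 = Real.log k := Real.sq_sqrt hlog.le
  have hkexp : (k:ℝ) = Real.exp (τ ^ 2) := by rw [hτ2, Real.exp_log (by linarith)]
  set P : ℝ := C1 * Real.exp (-(τ ^ 2 / 2)) with hP
  have hP0 : 0 < P := mul_pos C1_pos (Real.exp_pos _)
  have hc0 := c0_pos
  -- bound of the volume fraction
  have hPle : (Real.exp 1 + 2 * Real.exp (τ ^ 2 / 2) * τ ^ 4 / k) / a0 τ ≤ P := by
    rw [a0_eq, hP, C1, div_le_iff₀ (by positivity)]
    have e1 : (Real.exp 1 + 16) / c0 * Real.exp (-(τ ^ 2 / 2)) * (Real.exp (τ ^ 2 / 2) * c0) =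
        Real.exp 1 + 16 := by
      have h1 : Real.exp (-(τ ^ 2 / 2)) * Real.exp (τ ^ 2 / 2) = 1 := by
        rw [← Real.exp_add]; simp
      calc (Real.exp 1 + 16) / c0 * Real.exp (-(τ ^ 2 / 2)) * (Real.exp (τ ^ 2 / 2) * c0)
          = (Real.exp 1 + 16) / c0 * c0 * (Real.exp (-(τ ^ 2 / 2)) * Real.exp (τ ^ 2 / 2)) := by ring
        _ = _ := by rw [h1, mul_one, div_mul_cancel₀ _ hc0.ne']
    rw [e1]
    have h2 : 2 * Real.exp (τ ^ 2 / 2) * τ ^ 4 / k ≤ 16 := by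
      rw [hkexp, div_le_iff₀ (Real.exp_pos _)]
      have h3 := Real.quadratic_le_exp_of_nonneg (x := τ ^ 2 / 2) (by positivity)
      have h4 : τ ^ 4 / 8 ≤ Real.exp (τ ^ 2 / 2) := by nlinarith [sq_nonneg τ]
      have h5 : Real.exp (τ ^ 2) = Real.exp (τ ^ 2 / 2) * Real.exp (τ ^ 2 / 2) := by
        rw [← Real.exp_add]; congr 1; ring
      rw [h5]
      have h6 := Real.exp_pos (τ ^ 2 / 2)
      nlinarith
    linarith
  have hmain := core hn hr hΩ hvol (by omega : 1 ≤ k) hc (hΛ0.trans hLB) hL hτ0.le hPle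
  rw [← hΛ] at hmain
  set R : ℝ := (τ / 2 + bb) ^ 2 with hR
  have hbb := bb_ge
  have hR0 : 0 < R := by positivity
  -- exponential lower bound
  have hPow : 1 + 2 / n * (τ ^ 2 / 2 - Real.log C1) ≤ P ^ (-(2 / (n:ℝ))) := by
    rw [Real.rpow_def_of_pos hP0]
    have h1 : Real.log P = Real.log C1 - τ ^ 2 / 2 := by
      rw [hP, Real.log_mul C1_pos.ne' (Real.exp_pos _).ne', Real.log_exp]; ring
    rw [h1]
    have h2 := Real.add_one_le_exp ((Real.log C1 - τ ^ 2 / 2) * -(2 / (n:ℝ)))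
    linarith
  have h1 : Λ * (1 + 2 / n * (τ ^ 2 / 2 - Real.log C1)) ≤ R * c - (R - 1) * L :=
    (mul_le_mul_of_nonneg_left hPow hΛ0).trans hmain
  -- algebra
  have h2 : R * (4 / n * (1 - CC / τ)) ≤ 2 / n * (τ ^ 2 / 2 - Real.log C1) := by
    have h3 : R * (1 - CC / τ) ≤ τ ^ 2 / 4 - Real.log C1 / 2 := by
      have h4 : Real.log C1 ≤ |Real.log C1| := le_abs_self _
      have h5 := abs_nonneg (Real.log C1)
      have h6 : R * (1 - CC / τ) * τ ≤ (τ ^ 2 / 4 - Real.log C1 / 2) * τ := by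
        have e : R * (1 - CC / τ) * τ = R * (τ - CC) := by field_simp
        rw [e, hR, CC]
        have h7 : 0 ≤ bb * |Real.log C1| * τ := by positivity
        nlinarith [mul_nonneg hτ0.le h5, mul_nonneg (sq_nonneg τ) h5, mul_nonneg (sq_nonneg bb) h5,
          mul_nonneg (mul_nonneg hτ0.le h5) (by linarith : (0:ℝ) ≤ bb - 1),
          mul_nonneg (sq_nonneg bb) (by linarith : (0:ℝ) ≤ bb),
          mul_nonneg hτ0.le (sq_nonneg bb), mul_le_mul_of_nonneg_left h4 hτ0.le]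
      exact le_of_mul_le_mul_right h6 hτ0
    have h4 := mul_le_mul_of_nonneg_left h3 (show (0:ℝ) ≤ 4 / n by positivity)
    have e1 : R * (4 / n * (1 - CC / τ)) = 4 / n * (R * (1 - CC / τ)) := by ring
    have e2 : 4 / (n:ℝ) * (τ ^ 2 / 4 - Real.log C1 / 2) = 2 / n * (τ ^ 2 / 2 - Real.log C1) := by
      ring
    rw [e1, ← e2]
    exact h4
  have h3 : Λ * (R * (4 / n * (1 - CC / τ))) ≤ Λ * (2 / n * (τ ^ 2 / 2 - Real.log C1)) :=
    mul_le_mul_of_nonneg_left h2 hΛ0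
  have h4 : R * (1 - 4 / Real.log k) ≤ R - 1 := by
    have h5 : 1 ≤ R * (4 / Real.log k) := by
      rw [← hτ2, hR]
      have e : (τ / 2 + bb) ^ 2 * (4 / τ ^ 2) = ((τ + 2 * bb) / τ) ^ 2 := by field_simp; ring
      rw [e]
      have h6 : 1 ≤ (τ + 2 * bb) / τ := by rw [le_div_iff₀ hτ0]; linarith
      nlinarith
    linarith
  have h5 : R * ((1 - 4 / Real.log k) * (L - Λ)) ≤ (R - 1) * (L - Λ) := by
    have := mul_le_mul_of_nonneg_right h4 (by linarith : 0 ≤ L - Λ)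
    linarith
  have h6 : R * (Λ * (1 + 4 / n * (1 - CC / τ)) + (1 - 4 / Real.log k) * (L - Λ)) ≤ R * c := by
    linarith
  exact le_of_mul_le_mul_left h6 hR0

end Pool.Agent.Helper855DB
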