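import Pool.Agent.Helper855DB.Loc

/-! Averages of the localised functions over a Gaussian vector (helper855). -/

set_option autoImplicit false

open MeasureTheory Filter Topology Set ProbabilityTheory
open scoped ENNReal NNReal RealInnerProductSpace

namespace Pool.Agent.Helper855DB

variable {n m : ℕ} {Ω : Set (Sp n)} {W : Sp n → Sp m} {τ : ℝ}

/-- the standard basis -/
noncomputable def bs (n : ℕ) : OrthonormalBasis (Fin n) ℝ (Sp n) := EuclideanSpace.basisFun (Fin n) ℝ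

/-- partial derivative -/
noncomputable def Pd (W : Sp n → Sp m) (i : Fin n) (x : Sp n) : Sp m := fderiv ℝ W x (bs n i)

/-- total energy density -/
noncomputable def HS (W : Sp n → Sp m) (x : Sp n) : ℝ := ∑ i, ‖Pd W i x‖ ^ 2

/-- the derivative of the localised function, explicitly -/
noncomputable def FF (τ : ℝ) (W : Sp n → Sp m) (i : Fin n) (x : Sp n) (ξ : Sp m) : ℝ :=
  ff τ ⟪th W x, ξ⟫ * ⟪th W x, Pd W i x⟫ +
    fd τ ⟪th W x, ξ⟫ * ⟪Pd W i x - ⟪th W x, Pd W i x⟫ • th W x, ξ⟫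

theorem norm_dual_sq (L : Sp n →L[ℝ] ℝ) : ‖L‖ ^ 2 = ∑ i, L (bs n i) ^ 2 := by
  exact (bs n).norm_dual L

theorem Good.Pd_cont (h : Good Ω W) (i : Fin n) : Continuous (Pd W i) := by
  have h1 : Continuous (fderiv ℝ W) := h.smooth.continuous_fderiv (by simp)
  exact h1.clm_apply continuous_const

theorem Good.Pd_sq_int (h : Good Ω W) (i : Fin n) : Integrable fun x => ‖Pd W i x‖ ^ 2 := by
  refine Continuous.integrable_of_hasCompactSupport ((h.Pd_cont i).norm.pow 2) ?_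
  have h1 : HasCompactSupport (fderiv ℝ W) := h.comp.fderiv (𝕜 := ℝ)
  have h2 := h1.comp_left (g := fun L : Sp n →L[ℝ] Sp m => ‖L (bs n i)‖ ^ 2) (by simp)
  exact h2

theorem Good.HS_int (h : Good Ω W) : Integrable (HS W) := by
  have h1 : Integrable fun x => ∑ i, ‖Pd W i x‖ ^ 2 :=
    integrable_finsetSum _ fun i _ => h.Pd_sq_int i
  exact h1

theorem Good.norm_fderiv_sq (h : Good Ω W) (x : Sp n) :
    ‖fderiv ℝ (fun y => ‖W y‖) x‖ ^ 2 = ∑ i, ⟪th W x, Pd W i x⟫ ^ 2 := by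
  rw [norm_dual_sq]
  refine Finset.sum_congr rfl fun i _ => ?_
  rw [h.norm_deriv]; rfl

theorem th_norm_le (x : Sp n) : ‖th W x‖ ≤ 1 := by
  by_cases hx : W x = 0
  · unfold th; rw [hx]; simp
  · exact (th_norm hx).le

theorem Good.norm_le_HS (h : Good Ω W) (x : Sp n) :
    ‖fderiv ℝ (fun y => ‖W y‖) x‖ ^ 2 ≤ HS W x := by
  rw [h.norm_fderiv_sq]
  refine Finset.sum_le_sum fun i _ => ?_
  have h1 := abs_real_inner_le_norm (th W x) (Pd W i x)
  have h2 : ‖th W x‖ * ‖Pd W i x‖ ≤ ‖Pd W i x‖ := by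
    have := mul_le_mul_of_nonneg_right (th_norm_le (W := W) x) (norm_nonneg (Pd W i x))
    linarith
  have h3 := h1.trans h2
  rw [← sq_abs]
  exact pow_le_pow_left₀ (abs_nonneg _) h3 2

theorem Good.ww_fderiv_sq (h : Good Ω W) (ξ : Sp m) (x : Sp n) :
    ‖fderiv ℝ (ww τ W ξ) x‖ ^ 2 = ∑ i, FF τ W i x ξ ^ 2 := by
  rw [norm_dual_sq]
  refine Finset.sum_congr rfl fun i _ => ?_
  rw [h.ww_deriv]; rfl

theorem th_meas (hW : Continuous W) : Measurable (th W) := by
  have h1 : Measurable fun x => ‖W x‖⁻¹ := hW.norm.measurable.inv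
  exact h1.smul hW.measurable

theorem thi_meas (hW : Continuous W) : Measurable fun p : Sp n × Sp m => (⟪th W p.1, p.2⟫ : ℝ) := by
  have h1 : Measurable fun p : Sp n × Sp m => th W p.1 := (th_meas hW).comp measurable_fst
  exact h1.inner measurable_snd

theorem Good.FF_meas (h : Good Ω W) (i : Fin n) :
    Measurable fun p : Sp n × Sp m => FF τ W i p.1 p.2 := by
  have hW := h.smooth.continuous
  have h1 : Measurable fun p : Sp n × Sp m => th W p.1 := (th_meas hW).comp measurable_fst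
  have h2 : Measurable fun p : Sp n × Sp m => Pd W i p.1 :=
    (h.Pd_cont i).measurable.comp measurable_fst
  have h3 := thi_meas (m := m) hW
  have h4 : Measurable fun p : Sp n × Sp m => ff τ ⟪th W p.1, p.2⟫ :=
    (ff_cont τ).measurable.comp h3
  have h5 : Measurable fun p : Sp n × Sp m => fd τ ⟪th W p.1, p.2⟫ :=
    (fd_cont τ).measurable.comp h3
  have h6 : Measurable fun p : Sp n × Sp m => (⟪th W p.1, Pd W i p.1⟫ : ℝ) := h1.inner h2
  have h7 : Measurable fun p : Sp n × Sp m =>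
      (⟪Pd W i p.1 - ⟪th W p.1, Pd W i p.1⟫ • th W p.1, p.2⟫ : ℝ) :=
    (h2.sub (h6.smul h1)).inner measurable_snd
  exact (h4.mul h6).add (h5.mul h7)

/-- Gaussian average of the energy density -/
theorem Good.FF_avg (h : Good Ω W) (hτ : 0 ≤ τ) (i : Fin n) (x : Sp n) :
    ∫⁻ ξ, ENNReal.ofReal (FF τ W i x ξ ^ 2) ∂(stdGaussian (Sp m)) =
      ENNReal.ofReal (a0 τ * ⟪th W x, Pd W i x⟫ ^ 2 +
        a1 τ * (‖Pd W i x‖ ^ 2 - ⟪th W x, Pd W i x⟫ ^ 2)) := by
  by_cases hx : W x = 0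
  · have h1 : Pd W i x = 0 := by unfold Pd; rw [h.fderiv_zero hx]; simp
    unfold FF
    rw [h1]; simp
  · have hθ := th_norm hx
    have hq : (⟪th W x, Pd W i x - ⟪th W x, Pd W i x⟫ • th W x⟫ : ℝ) = 0 := by
      rw [inner_sub_right, inner_smul_right, real_inner_self_eq_norm_sq, hθ]; ring
    unfold FF
    rw [gauss_energy hτ hθ hq]
    congr 3
    rw [norm_sub_sq_real, inner_smul_right, norm_smul, hθ, mul_one, Real.norm_eq_abs, sq_abs,
      real_inner_comm]
    ring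

theorem a1_nonneg (τ : ℝ) : 0 ≤ a1 τ := integral_nonneg fun _ => sq_nonneg _

/-- average energy of the localised functions -/
theorem Good.energy_avg (h : Good Ω W) (hτ : 0 ≤ τ) :
    ∫⁻ ξ, ENNReal.ofReal (En (ww τ W ξ)) ∂(stdGaussian (Sp m)) =
      ENNReal.ofReal (a0 τ * En (fun x => ‖W x‖) +
        a1 τ * ((∫ x, HS W x) - En (fun x => ‖W x‖))) := by
  have e1 : ∀ ξ, ENNReal.ofReal (En (ww τ W ξ)) =
      ∫⁻ x, ENNReal.ofReal (∑ i, FF τ W i x ξ ^ 2) := by
    intro ξ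
    unfold En
    rw [ofReal_integral_eq_lintegral_ofReal (ww_test h ξ).int_fsq
      (Eventually.of_forall fun x => sq_nonneg _)]
    refine lintegral_congr fun x => ?_
    rw [h.ww_fderiv_sq]
  simp_rw [e1]
  have hm : Measurable fun p : Sp n × Sp m => ENNReal.ofReal (∑ i, FF τ W i p.1 p.2 ^ 2) := by
    refine ENNReal.measurable_ofReal.comp ?_
    refine Finset.measurable_fun_sum _ fun i _ => ?_
    exact (h.FF_meas i).pow_const 2
  have hsw : ∫⁻ ξ, ∫⁻ x, ENNReal.ofReal (∑ i, FF τ W i x ξ ^ 2) ∂volume ∂(stdGaussian (Sp m)) =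
      ∫⁻ x, ∫⁻ ξ, ENNReal.ofReal (∑ i, FF τ W i x ξ ^ 2) ∂(stdGaussian (Sp m)) ∂volume := by
    refine lintegral_lintegral_swap ?_
    have h1 : Measurable fun p : Sp m × Sp n => ENNReal.ofReal (∑ i, FF τ W i p.2 p.1 ^ 2) := by
      have h2 := hm.comp measurable_swap
      exact h2
    exact h1.aemeasurable
  rw [hsw]
  have e2 : ∀ x, ∫⁻ ξ, ENNReal.ofReal (∑ i, FF τ W i x ξ ^ 2) ∂(stdGaussian (Sp m)) =
      ENNReal.ofReal (a0 τ * ‖fderiv ℝ (fun y => ‖W y‖) x‖ ^ 2 +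
        a1 τ * (HS W x - ‖fderiv ℝ (fun y => ‖W y‖) x‖ ^ 2)) := by
    intro x
    have e3 : ∀ ξ, ENNReal.ofReal (∑ i, FF τ W i x ξ ^ 2) =
        ∑ i, ENNReal.ofReal (FF τ W i x ξ ^ 2) := fun ξ =>
      ENNReal.ofReal_sum_of_nonneg fun i _ => sq_nonneg _
    simp_rw [e3]
    have hmi : ∀ i ∈ (Finset.univ : Finset (Fin n)),
        Measurable fun ξ => ENNReal.ofReal (FF τ W i x ξ ^ 2) := by
      intro i _
      have h1 : Measurable fun p : Sp n × Sp m => ENNReal.ofReal (FF τ W i p.1 p.2 ^ 2) :=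
        ENNReal.measurable_ofReal.comp ((h.FF_meas i).pow_const 2)
      have h2 := h1.comp (measurable_prodMk_left (x := x))
      exact h2
    rw [lintegral_finsetSum _ hmi]
    have e4 : ∀ i : Fin n, ∫⁻ ξ, ENNReal.ofReal (FF τ W i x ξ ^ 2) ∂(stdGaussian (Sp m)) =
        ENNReal.ofReal (a0 τ * ⟪th W x, Pd W i x⟫ ^ 2 +
        a1 τ * (‖Pd W i x‖ ^ 2 - ⟪th W x, Pd W i x⟫ ^ 2)) := fun i => h.FF_avg hτ i x
    simp_rw [e4]
    rw [← ENNReal.ofReal_sum_of_nonneg]
    · congr 1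
      rw [h.norm_fderiv_sq]
      unfold HS
      rw [Finset.sum_add_distrib, ← Finset.mul_sum, ← Finset.mul_sum, Finset.sum_sub_distrib]
    · intro i _
      have h1 := abs_real_inner_le_norm (th W x) (Pd W i x)
      have h2 : ‖th W x‖ * ‖Pd W i x‖ ≤ ‖Pd W i x‖ := by
        have := mul_le_mul_of_nonneg_right (th_norm_le (W := W) x) (norm_nonneg (Pd W i x))
        linarith
      have h3 := pow_le_pow_left₀ (abs_nonneg _) (h1.trans h2) 2
      rw [sq_abs] at h3
      have h4 := (a0_pos τ).le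
      have h5 := a1_nonneg τ
      have h6 : 0 ≤ ‖Pd W i x‖ ^ 2 - ⟪th W x, Pd W i x⟫ ^ 2 := by linarith
      positivity
  simp_rw [e2]
  have i1 := (norm_test h).int_fsq
  have i2 := h.HS_int
  have i3 : Integrable fun x => a0 τ * ‖fderiv ℝ (fun y => ‖W y‖) x‖ ^ 2 := i1.const_mul _
  have i4 : Integrable fun x => HS W x - ‖fderiv ℝ (fun y => ‖W y‖) x‖ ^ 2 := i2.sub i1
  have i5 : Integrable fun x => a1 τ * (HS W x - ‖fderiv ℝ (fun y => ‖W y‖) x‖ ^ 2) :=
    i4.const_mul _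
  have i35 : Integrable fun x => a0 τ * ‖fderiv ℝ (fun y => ‖W y‖) x‖ ^ 2 +
      a1 τ * (HS W x - ‖fderiv ℝ (fun y => ‖W y‖) x‖ ^ 2) := i3.add i5
  rw [← ofReal_integral_eq_lintegral_ofReal i35]
  · congr 1
    have e6 := integral_add i3 i5
    rw [integral_const_mul, integral_const_mul, integral_sub i2 i1] at e6
    exact e6
  · refine Eventually.of_forall fun x => ?_
    have h1 := h.norm_le_HS x
    have h4 := (a0_pos τ).le
    have h5 := a1_nonneg τ
    have h6 : 0 ≤ HS W x - ‖fderiv ℝ (fun y => ‖W y‖) x‖ ^ 2 := by linarith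
    simp only [Pi.zero_apply]
    positivity

/-- average mass of the localised functions -/
theorem Good.mass_avg (h : Good Ω W) :
    ∫⁻ ξ, ENNReal.ofReal (Ma (ww τ W ξ)) ∂(stdGaussian (Sp m)) =
      ENNReal.ofReal (a0 τ * ∫ x, ‖W x‖ ^ 2) := by
  have hW := h.smooth.continuous
  have e1 : ∀ ξ, ENNReal.ofReal (Ma (ww τ W ξ)) =
      ∫⁻ x, ENNReal.ofReal (‖W x‖ ^ 2 * ff τ ⟪th W x, ξ⟫ ^ 2) := by
    intro ξ
    unfold Ma
    rw [ofReal_integral_eq_lintegral_ofReal (ww_test h ξ).int_sq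
      (Eventually.of_forall fun x => sq_nonneg _)]
    refine lintegral_congr fun x => ?_
    unfold ww
    rw [mul_pow]
  simp_rw [e1]
  have hm : Measurable fun p : Sp n × Sp m =>
      ENNReal.ofReal (‖W p.1‖ ^ 2 * ff τ ⟪th W p.1, p.2⟫ ^ 2) := by
    refine ENNReal.measurable_ofReal.comp ?_
    have h1 : Measurable fun p : Sp n × Sp m => ‖W p.1‖ ^ 2 :=
      (hW.norm.pow 2).measurable.comp measurable_fst
    have h2 : Measurable fun p : Sp n × Sp m => ff τ ⟪th W p.1, p.2⟫ :=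
      (ff_cont τ).measurable.comp (thi_meas hW)
    exact h1.mul (h2.pow_const 2)
  have hsw : ∫⁻ ξ, ∫⁻ x, ENNReal.ofReal (‖W x‖ ^ 2 * ff τ ⟪th W x, ξ⟫ ^ 2)
      ∂volume ∂(stdGaussian (Sp m)) =
      ∫⁻ x, ∫⁻ ξ, ENNReal.ofReal (‖W x‖ ^ 2 * ff τ ⟪th W x, ξ⟫ ^ 2)
        ∂(stdGaussian (Sp m)) ∂volume := by
    refine lintegral_lintegral_swap ?_
    have h1 : Measurable fun p : Sp m × Sp n =>
        ENNReal.ofReal (‖W p.2‖ ^ 2 * ff τ ⟪th W p.2, p.1⟫ ^ 2) := by
      have h2 := hm.comp measurable_swap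
      exact h2
    exact h1.aemeasurable
  rw [hsw]
  have e2 : ∀ x, ∫⁻ ξ, ENNReal.ofReal (‖W x‖ ^ 2 * ff τ ⟪th W x, ξ⟫ ^ 2) ∂(stdGaussian (Sp m)) =
      ENNReal.ofReal (a0 τ * ‖W x‖ ^ 2) := by
    intro x
    by_cases hx : W x = 0
    · rw [hx]; simp
    · have e3 : ∀ ξ, ENNReal.ofReal (‖W x‖ ^ 2 * ff τ ⟪th W x, ξ⟫ ^ 2) =
          ENNReal.ofReal (‖W x‖ ^ 2) * ENNReal.ofReal (ff τ ⟪th W x, ξ⟫ ^ 2) := fun ξ =>
        ENNReal.ofReal_mul (sq_nonneg _)
      simp_rw [e3]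
      have hm2 : Measurable fun ξ : Sp m => ENNReal.ofReal (ff τ ⟪th W x, ξ⟫ ^ 2) := by
        have h1 : Measurable fun ξ : Sp m => ff τ ⟪th W x, ξ⟫ :=
          (ff_cont τ).measurable.comp (inner_meas _)
        exact ENNReal.measurable_ofReal.comp (h1.pow_const 2)
      rw [lintegral_const_mul _ hm2, gauss_mass (th_norm hx), ← ENNReal.ofReal_mul (sq_nonneg _),
        mul_comm]
  simp_rw [e2]
  have i1 : Integrable fun x => a0 τ * ‖W x‖ ^ 2 := (norm_test h).int_sq.const_mul _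
  rw [← ofReal_integral_eq_lintegral_ofReal i1, integral_const_mul]
  refine Eventually.of_forall fun x => ?_
  exact mul_nonneg (a0_pos τ).le (sq_nonneg _)

/-- average of mass times volume of the support -/
theorem Good.vol_avg (h : Good Ω W) (hτ : 0 ≤ τ) {G : ℝ} 
    (hG : ∀ θ : Sp m, ‖θ‖ = 1 → ∫ x, ⟪W x, θ⟫ ^ 2 ≤ G) :
    ∫⁻ ξ, ENNReal.ofReal (Ma (ww τ W ξ)) * volume {x | ww τ W ξ x ≠ 0} ∂(stdGaussian (Sp m)) ≤
      volume {x | W x ≠ 0} * ENNReal.ofReal (Real.exp 1 * (∫ x, ‖W x‖ ^ 2) +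
        Real.exp (τ ^ 2 / 2) * τ ^ 4 * G) := by
  have hW := h.smooth.continuous
  -- indicator of the cap
  set I : Sp n → Sp m → ℝ≥0∞ := fun y ξ => if W y ≠ 0 ∧ τ < ⟪th W y, ξ⟫ then 1 else 0 with hI
  set A : Sp n → Sp m → ℝ≥0∞ := fun x ξ => ENNReal.ofReal (‖W x‖ ^ 2 * ff τ ⟪th W x, ξ⟫ ^ 2) with hA
  have hset : MeasurableSet {p : Sp n × Sp m | W p.1 ≠ 0 ∧ τ < ⟪th W p.1, p.2⟫} := by
    refine MeasurableSet.inter ?_ ?_
    · have h1 : MeasurableSet {y | W y ≠ 0} := (hW.measurable (measurableSet_singleton 0)).compl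
      exact measurable_fst h1
    · exact measurableSet_lt measurable_const (thi_meas hW)
  have hIm : Measurable fun p : Sp n × Sp m => I p.1 p.2 :=
    Measurable.ite hset measurable_const measurable_const
  have hAm : Measurable fun p : Sp n × Sp m => A p.1 p.2 := by
    refine ENNReal.measurable_ofReal.comp ?_
    have h1 : Measurable fun p : Sp n × Sp m => ‖W p.1‖ ^ 2 :=
      (hW.norm.pow 2).measurable.comp measurable_fst
    have h2 : Measurable fun p : Sp n × Sp m => ff τ ⟪th W p.1, p.2⟫ :=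
      (ff_cont τ).measurable.comp (thi_meas hW)
    exact h1.mul (h2.pow_const 2)
  have hIy : ∀ ξ, Measurable fun y => I y ξ := fun ξ => by
    have h2 := hIm.comp (measurable_prodMk_right (y := ξ))
    exact h2
  have hAx : ∀ ξ, Measurable fun x => A x ξ := fun ξ => by
    have h2 := hAm.comp (measurable_prodMk_right (y := ξ))
    exact h2
  have e1 : ∀ ξ, ENNReal.ofReal (Ma (ww τ W ξ)) = ∫⁻ x, A x ξ := by
    intro ξ
    unfold Ma
    rw [ofReal_integral_eq_lintegral_ofReal (ww_test h ξ).int_sq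
      (Eventually.of_forall fun x => sq_nonneg _)]
    refine lintegral_congr fun x => ?_
    unfold ww
    simp only [hA]
    rw [mul_pow]
  have e2 : ∀ ξ, volume {x | ww τ W ξ x ≠ 0} ≤ ∫⁻ y, I y ξ := by
    intro ξ
    have hs : MeasurableSet {y | W y ≠ 0 ∧ τ < ⟪th W y, ξ⟫} := by
      have h2 := (measurable_prodMk_right (y := ξ)) hset
      exact h2
    have h1 : {x | ww τ W ξ x ≠ 0} ⊆ {y | W y ≠ 0 ∧ τ < ⟪th W y, ξ⟫} := by
      intro x hx
      simp only [mem_ofPred_eq] at hx ⊢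
      constructor
      · intro h0
        apply hx
        unfold ww
        rw [h0, norm_zero, zero_mul]
      · by_contra hcon
        push Not at hcon
        apply hx
        unfold ww
        rw [ff_zero hcon, mul_zero]
    refine (measure_mono h1).trans (le_of_eq ?_)
    rw [← lintegral_indicator_one hs]
    refine lintegral_congr fun y => ?_
    simp only [hI, Set.indicator, mem_ofPred_eq, Pi.one_apply]
  have e3 : ∀ ξ, ENNReal.ofReal (Ma (ww τ W ξ)) * volume {x | ww τ W ξ x ≠ 0} ≤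
      ∫⁻ y, ∫⁻ x, A x ξ * I y ξ := by
    intro ξ
    rw [e1 ξ]
    refine (mul_le_mul' le_rfl (e2 ξ)).trans (le_of_eq ?_)
    rw [← lintegral_const_mul _ (hIy ξ)]
    refine lintegral_congr fun y => ?_
    rw [lintegral_mul_const _ (hAx ξ)]
  have m1 : Measurable fun q : (Sp n × Sp m) × Sp n => A q.2 q.1.2 * I q.1.1 q.1.2 := by
    have h1 : Measurable fun q : (Sp n × Sp m) × Sp n => (q.2, q.1.2) := by fun_prop
    have h2 := hAm.comp h1
    have h4 : Measurable fun q : (Sp n × Sp m) × Sp n => q.1 := by fun_prop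
    have h3 := hIm.comp h4
    exact h2.mul h3
  have m2 : Measurable fun p : Sp n × Sp m => ∫⁻ x, A x p.2 * I p.1 p.2 :=
    Measurable.lintegral_prod_right' (f := fun q : (Sp n × Sp m) × Sp n =>
      A q.2 q.1.2 * I q.1.1 q.1.2) m1
  have s1 : ∫⁻ ξ, ∫⁻ y, ∫⁻ x, A x ξ * I y ξ ∂volume ∂volume ∂(stdGaussian (Sp m)) =
      ∫⁻ y, ∫⁻ ξ, ∫⁻ x, A x ξ * I y ξ ∂volume ∂(stdGaussian (Sp m)) ∂volume := by
    refine lintegral_lintegral_swap ?_
    have h2 := m2.comp (measurable_swap (α := Sp m) (β := Sp n))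
    have h3 : Measurable (Function.uncurry fun (ξ : Sp m) (y : Sp n) => ∫⁻ x, A x ξ * I y ξ) := h2
    exact h3.aemeasurable
  have s2 : ∀ y, ∫⁻ ξ, ∫⁻ x, A x ξ * I y ξ ∂volume ∂(stdGaussian (Sp m)) =
      ∫⁻ x, ∫⁻ ξ, A x ξ * I y ξ ∂(stdGaussian (Sp m)) ∂volume := by
    intro y
    refine lintegral_lintegral_swap ?_
    have h1 : Measurable fun p : Sp m × Sp n => ((y, p.1), p.2) := by fun_prop
    have h2 := m1.comp h1
    have h3 : Measurable (Function.uncurry fun (ξ : Sp m) (x : Sp n) => A x ξ * I y ξ) := h2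
    exact h3.aemeasurable
  refine (lintegral_mono e3).trans ?_
  rw [s1]
  simp_rw [s2]
  have b1 : ∀ y x, W y ≠ 0 → ∫⁻ ξ, A x ξ * I y ξ ∂(stdGaussian (Sp m)) ≤
      ENNReal.ofReal (Real.exp 1 * ‖W x‖ ^ 2 +
        Real.exp (τ ^ 2 / 2) * τ ^ 4 * ⟪W x, th W y⟫ ^ 2) := by
    intro y x hy
    by_cases hx : W x = 0
    · simp only [hA]; rw [hx]; simp
    · have e4 : ∀ ξ, A x ξ * I y ξ = ENNReal.ofReal (‖W x‖ ^ 2) *
          (ENNReal.ofReal (ff τ ⟪th W x, ξ⟫ ^ 2) * (if τ < ⟪th W y, ξ⟫ then 1 else 0)) := by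
        intro ξ
        simp only [hA, hI]
        rw [ENNReal.ofReal_mul (sq_nonneg _), mul_assoc]
        congr 2
        simp [hy]
      simp_rw [e4]
      have hm2 : Measurable fun ξ : Sp m => ENNReal.ofReal (ff τ ⟪th W x, ξ⟫ ^ 2) *
          (if τ < ⟪th W y, ξ⟫ then 1 else 0) := by
        have h1 : Measurable fun ξ : Sp m => ff τ ⟪th W x, ξ⟫ :=
          (ff_cont τ).measurable.comp (inner_meas _)
        refine (ENNReal.measurable_ofReal.comp (h1.pow_const 2)).mul ?_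
        exact Measurable.ite (measurableSet_lt measurable_const (inner_meas _)) measurable_const
          measurable_const
      rw [lintegral_const_mul _ hm2]
      refine (mul_le_mul' le_rfl (gauss_vol hτ (th_norm hx) (th_norm hy))).trans (le_of_eq ?_)
      rw [← ENNReal.ofReal_mul (sq_nonneg _)]
      congr 1
      have hN : 0 < ‖W x‖ := norm_pos_iff.2 hx
      have e5 : (⟪W x, th W y⟫ : ℝ) = ‖W x‖ * ⟪th W x, th W y⟫ := by
        have h6 : th W x = ‖W x‖⁻¹ • W x := rfl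
        rw [h6, real_inner_smul_left, ← mul_assoc, mul_inv_cancel₀ hN.ne', one_mul]
      rw [e5]; ring
  have b2 : ∀ y, ∫⁻ x, ∫⁻ ξ, A x ξ * I y ξ ∂(stdGaussian (Sp m)) ∂volume ≤
      ({y | W y ≠ 0} : Set (Sp n)).indicator (fun _ => ENNReal.ofReal
        (Real.exp 1 * (∫ x, ‖W x‖ ^ 2) + Real.exp (τ ^ 2 / 2) * τ ^ 4 * G)) y := by
    intro y
    by_cases hy : W y = 0
    · rw [indicator_of_notMem (by simpa using hy)]
      have h1 : ∀ x ξ, A x ξ * I y ξ = 0 := by
        intro x ξ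
        simp only [hI]
        simp [hy]
      simp [h1]
    · rw [indicator_of_mem (by simpa using hy)]
      refine (lintegral_mono fun x => b1 y x hy).trans ?_
      have i1 : Integrable fun x => ‖W x‖ ^ 2 := (norm_test h).int_sq
      have i2 : Integrable fun x => (⟪W x, th W y⟫ : ℝ) ^ 2 := by
        refine Continuous.integrable_of_hasCompactSupport
          ((hW.inner continuous_const).pow 2) ?_
        have h2 := h.comp.comp_left (g := fun v : Sp m => (⟪v, th W y⟫ : ℝ) ^ 2) (by simp)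
        exact h2
      have i3 : Integrable fun x => Real.exp 1 * ‖W x‖ ^ 2 +
          Real.exp (τ ^ 2 / 2) * τ ^ 4 * ⟪W x, th W y⟫ ^ 2 :=
        (i1.const_mul _).add (i2.const_mul _)
      rw [← ofReal_integral_eq_lintegral_ofReal i3 (Eventually.of_forall fun x => by
        simp only [Pi.zero_apply]; positivity)]
      refine ENNReal.ofReal_le_ofReal ?_
      rw [integral_add (i1.const_mul _) (i2.const_mul _), integral_const_mul, integral_const_mul]
      have h3 := hG (th W y) (th_norm hy)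
      have h4 : 0 ≤ Real.exp (τ ^ 2 / 2) * τ ^ 4 := by positivity
      have h5 := mul_le_mul_of_nonneg_left h3 h4
      linarith
  refine (lintegral_mono b2).trans ?_
  have hs0 : MeasurableSet {y | W y ≠ 0} := (hW.measurable (measurableSet_singleton 0)).compl
  rw [lintegral_indicator hs0, setLIntegral_const, mul_comm]

end Pool.Agent.Helper855DB
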