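import Pool.Agent.Helper855DB.NonLoc

/-! A compact class of functions, closed under polarization; minimisers of the second moment are
radially decreasing (helper855). Adapted from the cap symmetrization of `Pool.Agent.H68R3`. -/

set_option autoImplicit false

open MeasureTheory Filter Topology Set
open scoped ENNReal NNReal RealInnerProductSpace

namespace Pool.Agent.Helper855DB

variable {n : ℕ}

/-- the class of competitors, closed under polarization and compact -/
structure Cls (δ : ℝ → ℝ) (R B : ℝ) (m v : ℝ≥0∞) (e : ℝ → ℝ≥0∞) (w : Sp n → ℝ) : Prop where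
  mod : ∀ ε > 0, ∀ y z, dist y z < δ ε → |w y - w z| ≤ ε
  nn : ∀ y, 0 ≤ w y
  le : ∀ y, w y ≤ B
  out : ∀ y, R ≤ ‖y‖ → w y = 0
  mass : ∫⁻ y, ENNReal.ofReal (w y ^ 2) = m
  vol : volume {y | w y ≠ 0} ≤ v
  en : ∀ η, NE η w ≤ e η

variable {δ : ℝ → ℝ} {R B : ℝ} {m v : ℝ≥0∞} {e : ℝ → ℝ≥0∞} {w : Sp n → ℝ}

theorem Cls.continuous (hδ : ∀ ε > 0, 0 < δ ε) (h : Cls δ R B m v e w) : Continuous w := by
  rw [Metric.continuous_iff]
  intro y ε hε
  refine ⟨δ (ε / 2), hδ _ (by linarith), fun z hz => ?_⟩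
  rw [Real.dist_eq]
  have := h.mod (ε / 2) (by linarith) z y hz
  linarith

theorem Cls.compact (h : Cls δ R B m v e w) : HasCompactSupport w := by
  refine HasCompactSupport.intro (isCompact_closedBall (0 : Sp n) R) fun y hy => h.out y ?_
  simp only [Metric.mem_closedBall, dist_zero_right, not_le] at hy
  exact hy.le

/-- counting function -/
noncomputable def cnt (t : ℝ) : ℝ≥0∞ := if t = 0 then 0 else 1

theorem cnt_meas : Measurable cnt := by
  unfold cnt
  exact Measurable.ite (measurableSet_singleton 0) measurable_const measurable_const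

theorem vol_eq {w : Sp n → ℝ} (hw : Measurable w) :
    volume {y | w y ≠ 0} = ∫⁻ y, cnt (w y) := by
  have hs : MeasurableSet {y | w y ≠ 0} := (hw (measurableSet_singleton 0)).compl
  rw [← lintegral_indicator_one hs]
  refine lintegral_congr fun y => ?_
  unfold cnt
  by_cases h : w y = 0
  · rw [if_pos h, indicator_of_notMem (by simpa using h)]
  · rw [if_neg h, indicator_of_mem (by simpa using h)]; rfl

theorem Cls.pol (hδ : ∀ ε > 0, 0 < δ ε) {ν : Sp n} (hν : ‖ν‖ = 1) {c : ℝ} (hc : 0 ≤ c)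
    (h : Cls δ R B m v e w) : Cls δ R B m v e (pol ν c w) := by
  have hw := (h.continuous hδ).measurable
  refine ⟨?_, ?_, ?_, ?_, ?_, ?_, ?_⟩
  · intro ε hε y z hyz
    exact pol_mod hν (h.mod ε hε) hyz
  · intro y
    unfold Helper855DB.pol
    split_ifs
    · exact le_max_of_le_left (h.nn y)
    · exact le_min (h.nn y) (h.nn _)
  · intro y
    unfold Helper855DB.pol
    split_ifs
    · exact max_le (h.le y) (h.le _)
    · exact min_le_of_left_le (h.le y)
  · intro y hy
    have h1 := h.out y hy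
    unfold Helper855DB.pol
    split_ifs with h3
    · have h2 := h.out (rf ν c y) (by
        refine hy.trans (le_of_sq_le_sq ?_ (norm_nonneg _))
        rw [norm_rf_sq hν]
        have : 0 ≤ 4 * c * lf ν c y := by positivity
        linarith)
      rw [h1, h2]; simp
    · rw [h1]; exact min_eq_left (h.nn _)
  · have h1 := pol_lint (c := c) hν hw (F := fun t => ENNReal.ofReal (t ^ 2)) (by fun_prop)
    rw [h1, h.mass]
  · have h1 := pol_lint (c := c) hν hw cnt_meas
    rw [vol_eq (pol_meas hw), h1, ← vol_eq hw]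
    exact h.vol
  · intro η
    exact (NE_pol hν η hw).trans (h.en η)

/-- sequential compactness of the class -/
theorem Cls.compact_seq (hδ : ∀ ε > 0, 0 < δ ε)
    {w : ℕ → Sp n → ℝ} (h : ∀ k, Cls δ R B m v e (w k)) :
    ∃ (φ : ℕ → ℕ) (u : Sp n → ℝ), StrictMono φ ∧ Cls δ R B m v e u ∧
      ∀ y, Tendsto (fun k => w (φ k) y) atTop (𝓝 (u y)) := by
  let q : ℕ → Sp n := TopologicalSpace.denseSeq (Sp n)
  have hcomp : IsCompact (Set.pi univ (fun _ : ℕ => Icc (0:ℝ) B)) :=
    isCompact_univ_pi fun _ => isCompact_Icc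
  obtain ⟨l, -, φ, hφ, hl⟩ := hcomp.tendsto_subseq (x := fun k i => w k (q i)) (fun k => by
    intro i _
    exact ⟨(h k).nn _, (h k).le _⟩)
  have hl' : ∀ i, Tendsto (fun k => w (φ k) (q i)) atTop (𝓝 (l i)) := fun i =>
    (tendsto_pi_nhds.1 hl) i
  have hcau : ∀ y, CauchySeq (fun k => w (φ k) y) := by
    intro y
    rw [Metric.cauchySeq_iff']
    intro ε hε
    have hε4 : 0 < ε / 4 := by linarith
    obtain ⟨i, hi⟩ := (TopologicalSpace.denseRange_denseSeq (Sp n)).exists_dist_lt y (hδ _ hε4)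
    have h1 := (hl' i).cauchySeq
    rw [Metric.cauchySeq_iff'] at h1
    obtain ⟨N, hN⟩ := h1 (ε / 4) hε4
    refine ⟨N, fun k hk => ?_⟩
    have h2 := hN k hk
    rw [Real.dist_eq] at h2 ⊢
    have h3 := (h (φ k)).mod (ε / 4) hε4 y (q i) hi
    have h4 := (h (φ N)).mod (ε / 4) hε4 y (q i) hi
    rw [abs_lt] at h2 ⊢
    rw [abs_le] at h3 h4
    constructor <;> linarith
  choose u hu using fun y => cauchySeq_tendsto_of_complete (hcau y)
  have hmod : ∀ ε > 0, ∀ y z, dist y z < δ ε → |u y - u z| ≤ ε := by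
    intro ε hε y z hyz
    exact le_of_tendsto' ((hu y).sub (hu z)).abs fun k => (h (φ k)).mod ε hε y z hyz
  have hnn : ∀ y, 0 ≤ u y := fun y => ge_of_tendsto' (hu y) fun k => (h (φ k)).nn y
  have hle : ∀ y, u y ≤ B := fun y => le_of_tendsto' (hu y) fun k => (h (φ k)).le y
  have hout : ∀ y, R ≤ ‖y‖ → u y = 0 := by
    intro y hy
    refine tendsto_nhds_unique (hu y) ?_
    simp only [fun k => (h (φ k)).out y hy]
    exact tendsto_const_nhds
  have hm : ∀ k, Measurable (w (φ k)) := fun k => ((h (φ k)).continuous hδ).measurable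
  have huc : Continuous u := by
    rw [Metric.continuous_iff]
    intro y ε hε
    refine ⟨δ (ε / 2), hδ _ (by linarith), fun z hz => ?_⟩
    rw [Real.dist_eq]
    have := hmod (ε / 2) (by linarith) z y hz
    linarith
  refine ⟨φ, u, hφ, ⟨hmod, hnn, hle, hout, ?_, ?_, ?_⟩, hu⟩
  · have hg : ∫⁻ y, (Metric.closedBall (0 : Sp n) R).indicator
        (fun _ => ENNReal.ofReal (B ^ 2)) y ≠ ∞ := by
      rw [lintegral_indicator Metric.isClosed_closedBall.measurableSet, setLIntegral_const]
      exact ENNReal.mul_ne_top ENNReal.ofReal_ne_top (isCompact_closedBall (0 : Sp n) R).measure_lt_top.ne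
    have h1 : Tendsto (fun k => ∫⁻ y, ENNReal.ofReal (w (φ k) y ^ 2)) atTop
        (𝓝 (∫⁻ y, ENNReal.ofReal (u y ^ 2))) := by
      refine tendsto_lintegral_of_dominated_convergence _ (fun k => ?_) (fun k => ?_) hg ?_
      · exact ENNReal.measurable_ofReal.comp ((hm k).pow_const 2)
      · refine Eventually.of_forall fun y => ?_
        by_cases hy : y ∈ Metric.closedBall (0 : Sp n) R
        · rw [indicator_of_mem hy]
          refine ENNReal.ofReal_le_ofReal ?_
          exact pow_le_pow_left₀ ((h (φ k)).nn y) ((h (φ k)).le y) 2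
        · rw [indicator_of_notMem hy]
          simp only [Metric.mem_closedBall, dist_zero_right, not_le] at hy
          simp only [(h (φ k)).out y hy.le]; simp
      · refine Eventually.of_forall fun y => ?_
        exact (ENNReal.continuous_ofReal.tendsto _).comp ((hu y).pow 2)
    refine tendsto_nhds_unique h1 ?_
    simp only [fun k => (h (φ k)).mass]
    exact tendsto_const_nhds
  · rw [vol_eq huc.measurable]
    have h1 : ∀ y, cnt (u y) ≤ liminf (fun k => cnt (w (φ k) y)) atTop := by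
      intro y
      by_cases hy : u y = 0
      · simp [cnt, hy]
      · have h2 : ∀ᶠ k in atTop, w (φ k) y ≠ 0 :=
          (hu y).eventually_ne hy
        refine le_liminf_of_le (by isBoundedDefault) ?_
        filter_upwards [h2] with k hk
        simp [cnt, hy, hk]
    calc ∫⁻ y, cnt (u y) ≤ ∫⁻ y, liminf (fun k => cnt (w (φ k) y)) atTop := lintegral_mono h1
      _ ≤ liminf (fun k => ∫⁻ y, cnt (w (φ k) y)) atTop :=
          lintegral_liminf_le fun k => cnt_meas.comp (hm k)
      _ ≤ v := by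
          refine liminf_le_of_le (by isBoundedDefault) ?_
          intro b hb
          obtain ⟨k, hk⟩ := hb.exists
          rw [← vol_eq (hm k)] at hk
          exact hk.trans (h (φ k)).vol
  · intro η
    exact NE_fatou η hm hu fun k => (h (φ k)).en η

/-- the functional -/
noncomputable def JJ (w : Sp n → ℝ) : ℝ := ∫ y, w y * ‖y‖ ^ 2

/-- existence of a minimiser -/
theorem exists_min (hδ : ∀ ε > 0, 0 < δ ε) {u : Sp n → ℝ} (hu : Cls δ R B m v e u) :
    ∃ w : Sp n → ℝ, Cls δ R B m v e w ∧ ∀ v' : Sp n → ℝ, Cls δ R B m v e v' → JJ w ≤ JJ v' := by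
  set S : Set ℝ := {t | ∃ v' : Sp n → ℝ, Cls δ R B m v e v' ∧ JJ v' = t} with hS
  have hSne : S.Nonempty := ⟨_, u, hu, rfl⟩
  have hci : Continuous fun y : Sp n => ‖y‖ ^ 2 := by fun_prop
  set G : Sp n → ℝ := (Metric.closedBall (0 : Sp n) R).indicator (fun y => B * ‖y‖ ^ 2) with hG
  have hGi : Integrable G volume := by
    rw [hG, integrable_indicator_iff Metric.isClosed_closedBall.measurableSet]
    exact (continuous_const.mul hci).continuousOn.integrableOn_compact
      (isCompact_closedBall (0 : Sp n) R)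
  have hdom : ∀ v' : Sp n → ℝ, Cls δ R B m v e v' → ∀ y, ‖v' y * ‖y‖ ^ 2‖ ≤ G y := by
    intro v' hv y
    by_cases hy : y ∈ Metric.closedBall (0 : Sp n) R
    · simp only [G]
      rw [indicator_of_mem hy, norm_mul, Real.norm_eq_abs, abs_of_nonneg (hv.nn y),
        Real.norm_eq_abs, abs_of_nonneg (sq_nonneg ‖y‖)]
      exact mul_le_mul_of_nonneg_right (hv.le y) (sq_nonneg _)
    · simp only [G]
      rw [indicator_of_notMem hy]
      simp only [Metric.mem_closedBall, dist_zero_right, not_le] at hy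
      rw [hv.out y hy.le]; simp
  have hSb : BddBelow S := by
    refine ⟨0, ?_⟩
    rintro t ⟨v', hv, rfl⟩
    exact integral_nonneg fun y => mul_nonneg (hv.nn y) (sq_nonneg _)
  obtain ⟨t, -, ht, htS⟩ := exists_seq_tendsto_sInf hSne hSb
  choose w hw hwt using htS
  obtain ⟨φ, v', hφ, hv, hlim⟩ := Cls.compact_seq hδ hw
  refine ⟨v', hv, ?_⟩
  have h1 : Tendsto (fun k => JJ (w (φ k))) atTop (𝓝 (JJ v')) := by
    unfold JJ
    refine tendsto_integral_of_dominated_convergence G (fun k => ?_) hGi (fun k => ?_) ?_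
    · exact (((hw (φ k)).continuous hδ).mul hci).aestronglyMeasurable
    · exact Eventually.of_forall (hdom _ (hw (φ k)))
    · filter_upwards with y
      exact (hlim y).mul_const _
  have h2 : Tendsto (fun k => JJ (w (φ k))) atTop (𝓝 (sInf S)) := by
    simp only [hwt]
    exact ht.comp hφ.tendsto_atTop
  have h3 : JJ v' = sInf S := tendsto_nhds_unique h1 h2
  intro w' hw'
  rw [h3]
  exact csInf_le hSb ⟨w', hw', rfl⟩

theorem pol_add {ν : Sp n} (hν : ‖ν‖ = 1) {c : ℝ} (w : Sp n → ℝ) (y : Sp n) :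
    Helper855DB.pol ν c w (rf ν c y) - w (rf ν c y) = - (Helper855DB.pol ν c w y - w y) := by
  rcases pol_pair (c := c) hν w y with ⟨h1, h2⟩ | ⟨h1, h2⟩
  · rw [h1, h2]; ring
  · rw [h1, h2]; ring

/-- a minimiser of the functional is invariant under polarizations -/
theorem min_invariant (hδ : ∀ ε > 0, 0 < δ ε)
    (h : Cls δ R B m v e w) (hmin : ∀ v' : Sp n → ℝ, Cls δ R B m v e v' → JJ w ≤ JJ v')
    {ν : Sp n} (hν : ‖ν‖ = 1) {c : ℝ} (hc : 0 < c) {y : Sp n} (hy : 0 < lf ν c y) :
    w (rf ν c y) ≤ w y := by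
  have hP := h.pol hδ hν hc.le
  have hle := hmin _ hP
  have hc1 := h.continuous hδ
  have hc2 := hP.continuous hδ
  have hk1 := h.compact
  have hk2 := hP.compact
  set D : Sp n → ℝ := fun y => Helper855DB.pol ν c w y - w y with hD
  have hDc : Continuous D := hc2.sub hc1
  have hDk : HasCompactSupport D := hk2.sub hk1
  have hci : Continuous fun y : Sp n => ‖y‖ ^ 2 := by fun_prop
  have i1 : Integrable (fun y => w y * ‖y‖ ^ 2) volume :=
    (hc1.mul hci).integrable_of_hasCompactSupport hk1.mul_right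
  have i2 : Integrable (fun y => Helper855DB.pol ν c w y * ‖y‖ ^ 2) volume :=
    (hc2.mul hci).integrable_of_hasCompactSupport hk2.mul_right
  have i3 : Integrable (fun y => D y * ‖y‖ ^ 2) volume :=
    (hDc.mul hci).integrable_of_hasCompactSupport hDk.mul_right
  have j1 : ∫ y, D y * ‖y‖ ^ 2 = JJ (Helper855DB.pol ν c w) - JJ w := by
    unfold JJ
    rw [← integral_sub i2 i1]
    congr 1; ext y; simp only [D]; ring
  have hme : MeasurableEmbedding (rf ν c) := by
    let f : Sp n ≃ₜ Sp n := ⟨⟨rf ν c, rf ν c, rf_rf hν, rf_rf hν⟩, rf_cont, rf_cont⟩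
    exact f.measurableEmbedding
  have j2 : ∫ y, D (rf ν c y) * ‖rf ν c y‖ ^ 2 = ∫ y, D y * ‖y‖ ^ 2 :=
    (rf_mp hν).integral_comp hme (fun y => D y * ‖y‖ ^ 2)
  have i4 : Integrable (fun y => D (rf ν c y) * ‖rf ν c y‖ ^ 2) volume :=
    ((rf_mp hν).integrable_comp_emb hme).2 i3
  have j3 : 0 ≤ ∫ y, (D y * ‖y‖ ^ 2 + D (rf ν c y) * ‖rf ν c y‖ ^ 2) := by
    rw [integral_add i3 i4, j2, j1]; linarith
  set F : Sp n → ℝ := fun y => D y * (4 * c * lf ν c y) with hF
  have eF : ∀ y, D y * ‖y‖ ^ 2 + D (rf ν c y) * ‖rf ν c y‖ ^ 2 = - F y := by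
    intro y
    have e2 : D (rf ν c y) = - D y := pol_add hν w y
    simp only [F]
    rw [e2, norm_rf_sq hν]; ring
  simp_rw [eF] at j3
  have hFc : Continuous F := by
    simp only [F]
    exact hDc.mul (continuous_const.mul lf_cont)
  have hFk : HasCompactSupport F := hDk.mul_right
  have hFi : Integrable F volume := hFc.integrable_of_hasCompactSupport hFk
  have hF0 : ∀ y, 0 ≤ F y := by
    intro y
    simp only [F, D]
    unfold Helper855DB.pol
    split_ifs with h1
    · have := le_max_left (w y) (w (rf ν c y))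
      have : 0 ≤ max (w y) (w (rf ν c y)) - w y := by linarith
      positivity
    · push Not at h1
      have := min_le_left (w y) (w (rf ν c y))
      have h3 : 0 ≤ w y - min (w y) (w (rf ν c y)) := by linarith
      have h4 : 0 ≤ 4 * c * (-lf ν c y) := by
        have : 0 ≤ -lf ν c y := by linarith
        positivity
      nlinarith [mul_nonneg h3 h4]
  rw [integral_neg] at j3
  have hint : ∫ y, F y = 0 := le_antisymm (by linarith) (integral_nonneg hF0)
  have hae : F =ᵐ[volume] 0 := (integral_eq_zero_iff_of_nonneg hF0 hFi).1 hint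
  have hFz : F = 0 := by
    refine (hFc.ae_eq_iff_eq volume continuous_const).1 ?_
    exact hae
  have h5 := congrFun hFz y
  simp only [F, Pi.zero_apply] at h5
  have h6 : D y = 0 := by
    rcases mul_eq_zero.1 h5 with h | h
    · exact h
    · exfalso
      have : 0 < 4 * c * lf ν c y := by positivity
      linarith
  simp only [D] at h6
  unfold Helper855DB.pol at h6
  rw [if_pos hy.le] at h6
  have := le_max_right (w y) (w (rf ν c y))
  linarith

/-- the minimiser is radially decreasing -/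
theorem exists_radial_dec (hδ : ∀ ε > 0, 0 < δ ε) {u : Sp n → ℝ} (hu : Cls δ R B m v e u) :
    ∃ w : Sp n → ℝ, Cls δ R B m v e w ∧ ∀ y z : Sp n, ‖y‖ ≤ ‖z‖ → w z ≤ w y := by
  obtain ⟨w, hw, hmin⟩ := exists_min hδ hu
  refine ⟨w, hw, ?_⟩
  have key : ∀ y z : Sp n, ‖y‖ < ‖z‖ → w z ≤ w y := by
    intro y z hyz
    have hne : y - z ≠ 0 := by
      intro h0
      rw [sub_eq_zero] at h0
      rw [h0] at hyz
      exact lt_irrefl _ hyz
    have hN : 0 < ‖y - z‖ := norm_pos_iff.2 hne
    set ν : Sp n := (1 / ‖y - z‖) • (y - z) with hν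
    have hν1 : ‖ν‖ = 1 := by
      rw [hν, norm_smul, Real.norm_eq_abs, abs_of_pos (by positivity)]
      field_simp
    set c : ℝ := (‖z‖ ^ 2 - ‖y‖ ^ 2) / (2 * ‖y - z‖) with hc
    have hsq : 0 < ‖z‖ ^ 2 - ‖y‖ ^ 2 := by nlinarith [norm_nonneg y]
    have hc0 : 0 < c := by positivity
    have hns : ‖y - z‖ ^ 2 = ‖y‖ ^ 2 - 2 * ⟪y, z⟫ + ‖z‖ ^ 2 := norm_sub_sq_real y z
    have hl : lf ν c y = ‖y - z‖ / 2 := by
      unfold lf
      rw [hν, inner_smul_right, inner_sub_right, real_inner_self_eq_norm_sq, hc]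
      field_simp
      rw [hns]; ring
    have hr : rf ν c y = z := by
      unfold rf
      rw [hl, hν, smul_smul]
      have : 2 * (‖y - z‖ / 2) * (1 / ‖y - z‖) = 1 := by field_simp
      rw [this, one_smul]
      abel
    have h1 := min_invariant hδ hw hmin hν1 hc0 (y := y) (by rw [hl]; positivity)
    rwa [hr] at h1
  intro y z hyz
  rcases hyz.lt_or_eq with h | h
  · exact key y z h
  · -- limit of `t • z`, `t > 1`
    by_cases hz : z = 0
    · rw [hz, norm_zero, norm_eq_zero] at h
      rw [h, hz]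
    · have hz0 : 0 < ‖z‖ := norm_pos_iff.2 hz
      have hcw := hw.continuous hδ
      have h1 : Tendsto (fun j : ℕ => w ((1 + 1 / ((j:ℝ) + 1)) • z)) atTop (𝓝 (w z)) := by
        have h2 : Tendsto (fun j : ℕ => (1 + 1 / ((j:ℝ) + 1)) • z) atTop (𝓝 ((1 + 0 : ℝ) • z)) :=
          (tendsto_const_nhds.add tendsto_one_div_add_atTop_nhds_zero_nat).smul_const z
        rw [add_zero, one_smul] at h2
        exact (hcw.tendsto z).comp h2
      refine le_of_tendsto' h1 fun j => key y _ ?_
      rw [norm_smul, Real.norm_eq_abs, abs_of_pos (by positivity), h]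
      have : 0 < 1 / ((j:ℝ) + 1) := by positivity
      nlinarith

end Pool.Agent.Helper855DB
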