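import Pool.Agent.Helper855DB.Split
import Pool.Agent.Helper855DB.Asym

/-! Components: lower bounds, positivity, scaling (helper855). -/

set_option autoImplicit false

open MeasureTheory Filter Topology Set
open scoped ENNReal NNReal RealInnerProductSpace

namespace Pool.Agent.Helper855DB

variable {n : ℕ} {Ω : Set (Sp n)} {u : Sp n → ℝ}

/-- Faber-Krahn inequality with volumes, all test functions -/
theorem fk_all_vol (hn : 1 ≤ n) {r : ℝ} (hr : 0 < r) (h : Test Ω u) {t : ℝ} (ht : 0 < t)
    (hv : volume Ω ≤ ENNReal.ofReal t * volume (Metric.ball (0 : Sp n) r)) :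
    lam 1 (Metric.ball (0 : Sp n) r) * t ^ (-(2 / (n:ℝ))) * Ma u ≤ En u := by
  set L := lam 1 (Metric.ball (0 : Sp n) r) * t ^ (-(2 / (n:ℝ))) with hL
  have hL0 : 0 ≤ L := mul_nonneg (lam_nonneg le_rfl) (Real.rpow_nonneg ht.le _)
  have key : ∀ ε > 0, L * (Ma u - ε) ≤ En u := by
    intro ε hε
    obtain ⟨w, hw, hw0, -, hE, hM⟩ := exists_nonneg h hε
    have hv' : volume {x | w x ≠ 0} ≤ ENNReal.ofReal t * volume (Metric.ball (0 : Sp n) r) := by
      refine (measure_mono ?_).trans hv
      intro x hx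
      exact hw.supp (subset_tsupport w hx)
    have h1 := fk_vol hn hr (hw.mono (subset_univ _)) hw0 ht hv'
    calc L * (Ma u - ε) ≤ L * Ma w := mul_le_mul_of_nonneg_left hM hL0
      _ ≤ En w := h1
      _ ≤ En u := hE
  have hlim : Tendsto (fun ε : ℝ => L * (Ma u - ε)) (𝓝[>] 0) (𝓝 (L * (Ma u - 0))) := by
    refine Tendsto.mono_left ?_ nhdsWithin_le_nhds
    exact (continuous_const.mul (continuous_const.sub continuous_id)).tendsto 0
  rw [sub_zero] at hlim
  refine le_of_tendsto hlim ?_
  filter_upwards [self_mem_nhdsWithin] with ε hε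
  exact key ε hε

/-- the rest of an open set after removing a component is open -/
theorem comp_rest (hΩ : IsOpen Ω) (x : Sp n) :
    IsOpen (Ω \ connectedComponentIn Ω x) := by
  rw [isOpen_iff_forall_mem_open]
  rintro y ⟨hy, hyn⟩
  refine ⟨connectedComponentIn Ω y, ?_, hΩ.connectedComponentIn, mem_connectedComponentIn hy⟩
  intro z hz
  refine ⟨connectedComponentIn_subset Ω y hz, fun hz' => hyn ?_⟩
  rw [connectedComponentIn_eq hz', ← connectedComponentIn_eq hz]
  exact mem_connectedComponentIn hy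

/-- a lower bound on every component is a lower bound -/
theorem comps (hΩ : IsOpen Ω) {M : ℝ}
    (hM : ∀ x ∈ Ω, ∀ w, Test (connectedComponentIn Ω x) w → M * Ma w ≤ En w)
    (h : Test Ω u) : M * Ma u ≤ En u := by
  set S : Set (Set (Sp n)) := (fun x => connectedComponentIn Ω x) '' Ω with hS
  have hSd : S.PairwiseDisjoint id := by
    rintro _ ⟨x, hx, rfl⟩ _ ⟨y, hy, rfl⟩ hne
    simp only [Function.onFun, id]
    rw [Set.disjoint_left]
    intro z hz hz'
    apply hne
    simp only
    rw [connectedComponentIn_eq hz, connectedComponentIn_eq hz']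
  have hSc : S.Countable := hSd.countable_of_isOpen (by
    rintro _ ⟨x, -, rfl⟩; exact hΩ.connectedComponentIn) (by
    rintro _ ⟨x, hx, rfl⟩; exact ⟨x, mem_connectedComponentIn hx⟩)
  have : Countable S := hSc.to_subtype
  have hm : ∀ i : S, MeasurableSet (i : Set (Sp n)) := by
    rintro ⟨_, x, -, rfl⟩
    exact hΩ.connectedComponentIn.measurableSet
  have hd : Pairwise (Function.onFun Disjoint fun i : S => (i : Set (Sp n))) := by
    intro i j hij
    exact hSd i.2 j.2 (fun h0 => hij (Subtype.ext h0))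
  have hU : (⋃ i : S, (i : Set (Sp n))) = Ω := by
    ext z
    rw [mem_iUnion]
    constructor
    · rintro ⟨⟨_, x, hx, rfl⟩, hz⟩
      exact connectedComponentIn_subset Ω x hz
    · intro hzΩ
      refine ⟨⟨connectedComponentIn Ω z, ⟨z, hzΩ, rfl⟩⟩, ?_⟩
      exact mem_connectedComponentIn hzΩ
  have h1 := hasSum_integral_iUnion hm hd (f := fun x => ‖fderiv ℝ u x‖ ^ 2) h.int_fsq.integrableOn
  have h2 := hasSum_integral_iUnion hm hd (f := fun x => u x ^ 2) h.int_sq.integrableOn
  rw [hU] at h1 h2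
  have e1 : ∫ x in Ω, ‖fderiv ℝ u x‖ ^ 2 = En u := by
    unfold En
    refine setIntegral_eq_integral_of_forall_compl_eq_zero fun x hx => ?_
    have h0 : fderiv ℝ u x = 0 := by
      by_contra h3
      exact hx (h.supp (tsupport_fderiv_subset ℝ (subset_tsupport _ h3)))
    rw [h0]; simp
  have e2 : ∫ x in Ω, u x ^ 2 = Ma u := by
    unfold Ma
    refine setIntegral_eq_integral_of_forall_compl_eq_zero fun x hx => ?_
    have h0 : u x = 0 := image_eq_zero_of_notMem_tsupport fun h3 => hx (h.supp h3)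
    rw [h0]; simp
  rw [e1] at h1
  rw [e2] at h2
  refine hasSum_le ?_ (h2.mul_left M) h1
  rintro ⟨_, x, hx, rfl⟩
  simp only
  set U := connectedComponentIn Ω x with hUdef
  have hUo : IsOpen U := hΩ.connectedComponentIn
  have hVo : IsOpen (Ω \ U) := comp_rest hΩ x
  have hdis : Disjoint U (Ω \ U) := disjoint_sdiff_right
  have hun : U ∪ (Ω \ U) = Ω := union_sdiff_cancel (connectedComponentIn_subset Ω x)
  have hT : Test (U ∪ (Ω \ U)) u := by rwa [hun]
  have hI := ind_test hUo hVo hdis hT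
  have h3 := hM x hx _ hI
  have e3 : Ma (U.indicator u) = ∫ y in U, u y ^ 2 := by
    unfold Ma
    rw [← integral_indicator hUo.measurableSet]
    refine integral_congr_ae (Eventually.of_forall fun y => ?_)
    simp only
    by_cases hy : y ∈ U
    · rw [indicator_of_mem hy, indicator_of_mem hy]
    · rw [indicator_of_notMem hy, indicator_of_notMem hy]; simp
  have e4 : En (U.indicator u) = ∫ y in U, ‖fderiv ℝ u y‖ ^ 2 := by
    unfold En
    rw [← integral_indicator hUo.measurableSet]
    refine integral_congr_ae (Eventually.of_forall fun y => ?_)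
    simp only
    rw [ind_fderiv hUo hVo hdis hT]
    by_cases hy : y ∈ U
    · rw [indicator_of_mem hy, indicator_of_mem hy]
    · rw [indicator_of_notMem hy, indicator_of_notMem hy]; simp
  rw [e3, e4] at h3
  exact h3

/-- positivity of the lowest level of a ball -/
theorem lam_ball_pos (hn : 1 ≤ n) {r : ℝ} (hr : 0 < r) :
    0 < lam 1 (Metric.ball (0 : Sp n) r) := by
  have hpo : ∀ u, Test (Metric.ball (0 : Sp n) r) u → 1 / (4 * r ^ 2) * Ma u ≤ En u := by
    intro u h
    set b : Sp n := bs n ⟨0, by omega⟩ with hb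
    have hb1 : ‖b‖ = 1 := (bs n).norm_eq_one _
    have h1 := heis h b (2 * r ^ 2)
    have h2 : ∫ x, (⟪b, x⟫ * u x) ^ 2 ≤ r ^ 2 * Ma u := by
      unfold Ma
      rw [← integral_const_mul]
      refine integral_mono (h.mulp (lin_smooth b)).int_sq (h.int_sq.const_mul _) fun x => ?_
      simp only
      by_cases hx : x ∈ tsupport u
      · have h3 := h.supp hx
        rw [Metric.mem_ball, dist_zero_right] at h3
        have h4 := abs_real_inner_le_norm b x
        rw [hb1, one_mul] at h4
        rw [mul_pow, ← sq_abs ⟪b, x⟫]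
        exact mul_le_mul_of_nonneg_right (pow_le_pow_left₀ (abs_nonneg _) (h4.trans h3.le) 2)
          (sq_nonneg _)
      · rw [image_eq_zero_of_notMem_tsupport hx]; simp
    have h3 : ∫ x, (fderiv ℝ u x b) ^ 2 ≤ En u := by
      unfold En
      refine integral_mono (h.int_dsq b) h.int_fsq fun x => ?_
      simp only
      have h4 := (fderiv ℝ u x).le_opNorm b
      rw [hb1, mul_one, Real.norm_eq_abs] at h4
      rw [← sq_abs]
      exact pow_le_pow_left₀ (abs_nonneg _) h4 2
    rw [hb1] at h1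
    have h4 : (2 * r ^ 2) ^ 2 * ∫ x, (fderiv ℝ u x b) ^ 2 ≤ (2 * r ^ 2) ^ 2 * En u :=
      mul_le_mul_of_nonneg_left h3 (sq_nonneg _)
    have h5 : r ^ 2 * Ma u ≤ r ^ 2 * (4 * r ^ 2 * En u) := by nlinarith
    have h6 : Ma u ≤ 4 * r ^ 2 * En u := le_of_mul_le_mul_left h5 (by positivity)
    rw [one_div, inv_mul_le_iff₀ (by positivity)]
    exact h6
  have h1 : 1 / (4 * r ^ 2) ≤ lam 1 (Metric.ball (0 : Sp n) r) := by
    refine le_csInf (adm_one_nonempty Metric.isOpen_ball ⟨0, Metric.mem_ball_self hr⟩) ?_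
    intro c hc
    exact le_of_adm le_rfl hc hpo
  have h2 : 0 < 1 / (4 * r ^ 2) := by positivity
  linarith

/-- a ball of given volume -/
theorem exists_ball (hn : 1 ≤ n) (h0 : volume Ω ≠ 0) (ht : volume Ω ≠ ∞) :
    ∃ r : ℝ, 0 < r ∧ volume (Metric.ball (0 : Sp n) r) = volume Ω := by
  have hn0 : (0:ℝ) < n := by exact_mod_cast hn
  set v1 : ℝ := (volume (Metric.ball (0 : Sp n) 1)).toReal with hv1
  have hv1p : 0 < v1 := ENNReal.toReal_pos (Metric.measure_ball_pos volume _ one_pos).ne'
    measure_ball_lt_top.ne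
  set v : ℝ := (volume Ω).toReal with hv
  have hvp : 0 < v := ENNReal.toReal_pos h0 ht
  refine ⟨(v / v1) ^ (1 / (n:ℝ)), Real.rpow_pos_of_pos (by positivity) _, ?_⟩
  have hfr : Module.finrank ℝ (Sp n) = n := by simp
  rw [Measure.addHaar_ball_of_pos _ _ (Real.rpow_pos_of_pos (by positivity) _), hfr,
    ← Real.rpow_natCast, ← Real.rpow_mul (by positivity), one_div, inv_mul_cancel₀ hn0.ne',
    Real.rpow_one, ← ENNReal.ofReal_toReal (measure_ball_lt_top (x := (0 : Sp n)) (r := 1)).ne,
    ← hv1, ← ENNReal.ofReal_mul (by positivity), div_mul_cancel₀ _ hv1p.ne', hv,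
    ENNReal.ofReal_toReal ht]

end Pool.Agent.Helper855DB
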