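import Pool.Agent.Helper855DB.Onb

/-! The random localisation inequality for min-max levels (helper855). -/

set_option autoImplicit false

open MeasureTheory Filter Topology Set ProbabilityTheory
open scoped ENNReal NNReal RealInnerProductSpace

namespace Pool.Agent.Helper855DB

variable {n : ℕ} {Ω : Set (Sp n)}

/-- tangent line inequality -/
theorem tangent {p y : ℝ} (hp : 0 ≤ p) (hy : 0 < y) : 1 + p - p * y ≤ y ^ (-p) := by
  rw [Real.rpow_def_of_pos hy]
  have h1 := Real.add_one_le_exp (Real.log y * -p)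
  have h2 := Real.log_le_sub_one_of_pos hy
  have h3 := mul_le_mul_of_nonneg_left h2 hp
  linarith

/-- averaged Faber-Krahn inequality -/
theorem loc_fk (hn : 1 ≤ n) {r : ℝ} (hr : 0 < r) {m : ℕ} {W : Sp n → Sp m} (h : Good Ω W)
    {τ : ℝ} (hτ : 0 ≤ τ) {G : ℝ} (hG0 : 0 ≤ G)
    (hG : ∀ θ : Sp m, ‖θ‖ = 1 → ∫ x, (⟪W x, θ⟫ : ℝ) ^ 2 ≤ G)
    (hvol : volume {x | W x ≠ 0} ≤ volume (Metric.ball (0 : Sp n) r)) {P : ℝ} (hP : 0 < P) :
    lam 1 (Metric.ball (0 : Sp n) r) * P ^ (-(2 / (n:ℝ))) *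
        ((1 + 2 / n) * (a0 τ * ∫ x, ‖W x‖ ^ 2) -
          2 / n / P * (Real.exp 1 * (∫ x, ‖W x‖ ^ 2) + Real.exp (τ ^ 2 / 2) * τ ^ 4 * G)) ≤
      a0 τ * En (fun x => ‖W x‖) + a1 τ * ((∫ x, HS W x) - En (fun x => ‖W x‖)) := by
  set L := lam 1 (Metric.ball (0 : Sp n) r) with hL
  have hL0 : 0 ≤ L := lam_nonneg le_rfl
  have hn0 : (0:ℝ) < n := by exact_mod_cast hn
  set q : ℝ := L * P ^ (-(2 / (n:ℝ))) with hq
  have hPp : 0 < P ^ (-(2 / (n:ℝ))) := Real.rpow_pos_of_pos hP _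
  have hq0 : 0 ≤ q := mul_nonneg hL0 hPp.le
  set Bv : ℝ≥0∞ := volume (Metric.ball (0 : Sp n) r) with hBv
  have hB0 : 0 < Bv := Metric.measure_ball_pos volume _ hr
  have hBt : Bv ≠ ∞ := measure_ball_lt_top.ne
  set B : ℝ := Bv.toReal with hB
  have hBpos : 0 < B := ENNReal.toReal_pos hB0.ne' hBt
  have hBof : ENNReal.ofReal B = Bv := ENNReal.ofReal_toReal hBt
  set κ : ℝ := q * (2 / n / P) / B with hκ
  have hκ0 : 0 ≤ κ := by positivity
  set c2 : ℝ := q * (1 + 2 / n) with hc2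
  have hc20 : 0 ≤ c2 := by positivity
  -- pointwise in the Gaussian variable
  have pt : ∀ ξ : Sp m, ENNReal.ofReal c2 * ENNReal.ofReal (Ma (ww τ W ξ)) ≤
      ENNReal.ofReal (En (ww τ W ξ)) + ENNReal.ofReal κ *
        (ENNReal.ofReal (Ma (ww τ W ξ)) * volume {x | ww τ W ξ x ≠ 0}) := by
    intro ξ
    have hT := ww_test (τ := τ) h ξ
    set σ : ℝ≥0∞ := volume {x | ww τ W ξ x ≠ 0} with hσ
    have hσB : σ ≤ Bv := by
      refine (measure_mono ?_).trans hvol
      intro x hx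
      simp only [mem_ofPred_eq] at hx ⊢
      intro h0
      apply hx
      unfold ww
      rw [h0, norm_zero, zero_mul]
    have hσt : σ ≠ ∞ := ne_top_of_le_ne_top hBt hσB
    by_cases hσ0 : σ = 0
    · have h1 : Ma (ww τ W ξ) = 0 := by
        unfold Ma
        refine integral_eq_zero_of_ae ?_
        have h2 : ∀ᵐ x, ¬ (ww τ W ξ x ≠ 0) := by
          rw [ae_iff]
          simpa using hσ0
        filter_upwards [h2] with x hx
        push Not at hx
        simp [hx]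
      rw [h1]; simp
    · set s : ℝ := σ.toReal with hs
      have hs0 : 0 < s := ENNReal.toReal_pos hσ0 hσt
      have hsof : ENNReal.ofReal s = σ := ENNReal.ofReal_toReal hσt
      have ht0 : 0 < s / B := by positivity
      have hv : volume {x | ww τ W ξ x ≠ 0} ≤ ENNReal.ofReal (s / B) * volume (Metric.ball (0 : Sp n) r) := by
        rw [← hσ, ← hBv, ← hBof, ← ENNReal.ofReal_mul ht0.le, div_mul_cancel₀ _ hBpos.ne', hsof]
      have h1 := fk_vol hn hr (hT.mono (subset_univ _)) (fun x => ww_nonneg ξ x) ht0 hv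
      rw [← hL] at h1
      have h2 := tangent (p := 2 / (n:ℝ)) (y := s / B / P) (by positivity) (by positivity)
      have h3 : (s / B) ^ (-(2 / (n:ℝ))) = P ^ (-(2 / (n:ℝ))) * (s / B / P) ^ (-(2 / (n:ℝ))) := by
        rw [← Real.mul_rpow hP.le (by positivity)]
        congr 1; field_simp
      have hMa := Ma_nonneg (ww τ W ξ)
      have h4 : q * (1 + 2 / n - 2 / n * (s / B / P)) * Ma (ww τ W ξ) ≤ En (ww τ W ξ) := by
        refine le_trans ?_ h1
        rw [h3, ← mul_assoc L]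
        exact mul_le_mul_of_nonneg_right (mul_le_mul_of_nonneg_left h2 hq0) hMa
      have h5 : c2 * Ma (ww τ W ξ) ≤ En (ww τ W ξ) + κ * (Ma (ww τ W ξ) * s) := by
        have e : κ * (Ma (ww τ W ξ) * s) = q * (2 / n * (s / B / P)) * Ma (ww τ W ξ) := by
          rw [hκ]; field_simp
        rw [e, hc2]
        linarith
      rw [← hsof, ← ENNReal.ofReal_mul hc20, ← ENNReal.ofReal_mul hMa, ← ENNReal.ofReal_mul hκ0,
        ← ENNReal.ofReal_add (En_nonneg _) (by positivity)]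
      exact ENNReal.ofReal_le_ofReal h5
  -- integrate
  have hI : ENNReal.ofReal c2 * ENNReal.ofReal (a0 τ * ∫ x, ‖W x‖ ^ 2) ≤
      ENNReal.ofReal (a0 τ * En (fun x => ‖W x‖) + a1 τ * ((∫ x, HS W x) - En (fun x => ‖W x‖))) +
      ENNReal.ofReal κ * (Bv * ENNReal.ofReal (Real.exp 1 * (∫ x, ‖W x‖ ^ 2) +
        Real.exp (τ ^ 2 / 2) * τ ^ 4 * G)) := by
    rw [← h.mass_avg (τ := τ), ← h.energy_avg hτ]
    have hle := lintegral_mono (μ := stdGaussian (Sp m)) pt
    have hEm : Measurable fun ξ : Sp m => ENNReal.ofReal (En (ww τ W ξ)) := by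
      have e1 : ∀ ξ, ENNReal.ofReal (En (ww τ W ξ)) =
          ∫⁻ x, ENNReal.ofReal (∑ i, FF τ W i x ξ ^ 2) := by
        intro ξ
        unfold En
        rw [ofReal_integral_eq_lintegral_ofReal (ww_test h ξ).int_fsq
          (Eventually.of_forall fun x => sq_nonneg _)]
        refine lintegral_congr fun x => ?_
        rw [h.ww_fderiv_sq]
      simp_rw [e1]
      have hm : Measurable fun p : Sp m × Sp n => ENNReal.ofReal (∑ i, FF τ W i p.2 p.1 ^ 2) := by
        have h2 : Measurable fun p : Sp n × Sp m => ENNReal.ofReal (∑ i, FF τ W i p.1 p.2 ^ 2) := by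
          refine ENNReal.measurable_ofReal.comp ?_
          refine Finset.measurable_fun_sum _ fun i _ => ?_
          exact (h.FF_meas i).pow_const 2
        have h3 := h2.comp (measurable_swap (α := Sp m) (β := Sp n))
        exact h3
      exact Measurable.lintegral_prod_right' (f := fun p : Sp m × Sp n =>
        ENNReal.ofReal (∑ i, FF τ W i p.2 p.1 ^ 2)) hm
    rw [lintegral_const_mul' _ _ ENNReal.ofReal_ne_top, lintegral_add_left hEm,
      lintegral_const_mul' _ _ ENNReal.ofReal_ne_top] at hle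
    refine hle.trans (add_le_add_right ?_ _)
    refine mul_le_mul' le_rfl ?_
    refine (h.vol_avg hτ hG).trans ?_
    exact mul_le_mul' hvol le_rfl
  -- back to real numbers
  set M : ℝ := ∫ x, ‖W x‖ ^ 2 with hM
  have hM0 : 0 ≤ M := integral_nonneg fun _ => sq_nonneg _
  have hEd : 0 ≤ (∫ x, HS W x) - En (fun x => ‖W x‖) := by
    have h1 : En (fun x => ‖W x‖) ≤ ∫ x, HS W x :=
      integral_mono (norm_test h).int_fsq h.HS_int fun x => h.norm_le_HS x
    linarith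
  have ha0 := (a0_pos τ).le
  have ha1 := a1_nonneg τ
  have hEn := En_nonneg (fun x => ‖W x‖)
  have hS0 : 0 ≤ Real.exp 1 * M + Real.exp (τ ^ 2 / 2) * τ ^ 4 * G := by positivity
  rw [← hBof, ← ENNReal.ofReal_mul hc20, ← ENNReal.ofReal_mul hBpos.le, ← ENNReal.ofReal_mul hκ0,
    ← ENNReal.ofReal_add (by positivity) (by positivity),
    ENNReal.ofReal_le_ofReal_iff (by positivity)] at hI
  have e : κ * (B * (Real.exp 1 * M + Real.exp (τ ^ 2 / 2) * τ ^ 4 * G)) =
      q * (2 / n / P * (Real.exp 1 * M + Real.exp (τ ^ 2 / 2) * τ ^ 4 * G)) := by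
    rw [hκ]; field_simp
  rw [e, hc2] at hI
  linarith

/-- the core inequality -/
theorem core (hn : 1 ≤ n) {r : ℝ} (hr : 0 < r) (hΩ : IsOpen Ω)
    (hvol : volume Ω ≤ volume (Metric.ball (0 : Sp n) r)) {k : ℕ} (hk : 1 ≤ k) {c : ℝ}
    (hc : c ∈ Adm k Ω) {L : ℝ} (hL0 : 0 ≤ L) (hL : ∀ u, Test Ω u → L * Ma u ≤ En u)
    {τ : ℝ} (hτ : 0 ≤ τ) {P : ℝ}
    (hP : (Real.exp 1 + 2 * Real.exp (τ ^ 2 / 2) * τ ^ 4 / k) / a0 τ ≤ P) :
    lam 1 (Metric.ball (0 : Sp n) r) * P ^ (-(2 / (n:ℝ))) ≤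
      (τ / 2 + bb) ^ 2 * c - ((τ / 2 + bb) ^ 2 - 1) * L := by
  have hn0 : (0:ℝ) < n := by exact_mod_cast hn
  have hk0 : (0:ℝ) < k := by exact_mod_cast hk
  have ha0 := a0_pos τ
  have hP0 : 0 < P := lt_of_lt_of_le (by positivity) hP
  obtain ⟨V, hV1, hV2⟩ := hc
  have hVT : ∀ v ∈ V, Test Ω v := fun v hv => (adm_test (k := k) hV2 hv).1
  obtain ⟨v, hvV, hon⟩ := exists_onb hk hV1 hVT
  have hv : ∀ i, Test Ω (v i) := fun i => hVT _ (hvV i)
  have hEv : ∀ i, En (v i) ≤ c := by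
    intro i
    have h1 := (adm_test (k := k) hV2 (hvV i)).2
    have h2 : Ma (v i) = 1 := by
      have h3 := hon i i
      rw [if_pos rfl] at h3
      rw [← h3]
      refine integral_congr_ae (Eventually.of_forall fun x => ?_)
      simp only; ring
    rwa [h2, mul_one] at h1
  obtain ⟨χ, hχ, hχ0, hχpos⟩ := exists_cutoff hΩ hv
  set R : ℝ := (τ / 2 + bb) ^ 2 with hR
  have hbb := bb_ge
  have hR1 : 1 ≤ R := by
    rw [hR]
    have : 1 ≤ τ / 2 + bb := by linarith
    nlinarith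
  set Λ := lam 1 (Metric.ball (0 : Sp n) r) with hΛ
  have hΛ0 : 0 ≤ Λ := lam_nonneg le_rfl
  set q : ℝ := Λ * P ^ (-(2 / (n:ℝ))) with hq
  have hPp : 0 < P ^ (-(2 / (n:ℝ))) := Real.rpow_pos_of_pos hP0 _
  have hq0 : 0 ≤ q := mul_nonneg hΛ0 hPp.le
  have hc0 : 0 ≤ c := by
    have hk' : 0 < k := hk
    exact (En_nonneg _).trans (hEv ⟨0, hk'⟩)
  have hMχ := Ma_nonneg χ
  have hEχ := En_nonneg χ
  have key : ∀ ε : ℝ, 0 < ε → ε ≤ 1 → ε * Ma χ ≤ 1 →
      q ≤ R * c - (R - 1) * L + R * (ε ^ 2 * En χ) := by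
    intro ε hε hε1 hX
    have hg := Wv_good hε hv hχ hχ0 hχpos
    set W := Wv v χ ε with hW
    have hM : ∫ x, ‖W x‖ ^ 2 = ε ^ 2 * Ma χ + k := Wv_mass hv hχ hon
    have hH : ∫ x, HS W x = ε ^ 2 * En χ + ∑ i, En (v i) := Wv_HS hv hχ hg
    have hvW : volume {x | W x ≠ 0} ≤ volume (Metric.ball (0 : Sp n) r) := by
      refine (measure_mono ?_).trans hvol
      intro x hx
      exact hg.supp (subset_tsupport W hx)
    have hmain := loc_fk hn hr hg hτ (G := 2) (by norm_num)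
      (fun θ hθ => Wv_dir hε hε1 hv hχ hX hon hθ) hvW hP0
    rw [← hΛ, ← hq] at hmain
    set M : ℝ := ∫ x, ‖W x‖ ^ 2 with hMdef
    set H : ℝ := ∫ x, HS W x with hHdef
    set A : ℝ := En (fun x => ‖W x‖) with hA
    have hMk : (k:ℝ) ≤ M := by rw [hM]; nlinarith [sq_nonneg ε]
    have hM1 : 1 ≤ M := le_trans (by exact_mod_cast hk) hMk
    have hM0 : 0 < M := by linarith
    -- the volume term
    have h1 : Real.exp 1 * M + Real.exp (τ ^ 2 / 2) * τ ^ 4 * 2 ≤ M * (P * a0 τ) := by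
      have h2 : Real.exp 1 + 2 * Real.exp (τ ^ 2 / 2) * τ ^ 4 / k ≤ P * a0 τ := by
        rwa [div_le_iff₀ ha0] at hP
      have h3 := mul_le_mul_of_nonneg_left h2 hM0.le
      have h4 : Real.exp (τ ^ 2 / 2) * τ ^ 4 * 2 ≤ M * (2 * Real.exp (τ ^ 2 / 2) * τ ^ 4 / k) := by
        have h5 : M * (2 * Real.exp (τ ^ 2 / 2) * τ ^ 4 / k) =
            (M / k) * (Real.exp (τ ^ 2 / 2) * τ ^ 4 * 2) := by field_simp
        rw [h5]
        have h6 : 1 ≤ M / k := by rw [le_div_iff₀ hk0]; linarith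
        have h7 : 0 ≤ Real.exp (τ ^ 2 / 2) * τ ^ 4 * 2 := by positivity
        nlinarith
      nlinarith
    have h2 : q * (a0 τ * M) ≤ a0 τ * A + a1 τ * (H - A) := by
      refine le_trans ?_ hmain
      refine mul_le_mul_of_nonneg_left ?_ hq0
      have h3 : 2 / n / P * (Real.exp 1 * M + Real.exp (τ ^ 2 / 2) * τ ^ 4 * 2) ≤
          2 / n / P * (M * (P * a0 τ)) := mul_le_mul_of_nonneg_left h1 (by positivity)
      have h4 : 2 / n / P * (M * (P * a0 τ)) = 2 / n * (a0 τ * M) := by field_simp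
      linarith
    have hEd : 0 ≤ H - A := by
      have h3 : A ≤ H :=
        integral_mono (norm_test hg).int_fsq hg.HS_int fun x => hg.norm_le_HS x
      linarith
    have h3 : a1 τ * (H - A) ≤ R * a0 τ * (H - A) :=
      mul_le_mul_of_nonneg_right (a1_le hτ) hEd
    have h4 : q * M ≤ A + R * (H - A) := by
      have h5 : a0 τ * (q * M) ≤ a0 τ * (A + R * (H - A)) := by linarith
      exact le_of_mul_le_mul_left h5 ha0
    have h5 : L * M ≤ A := by
      have h6 := hL _ (norm_test hg)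
      exact h6
    have h6 : H ≤ ε ^ 2 * En χ + c * M := by
      rw [hH]
      have h7 : ∑ i, En (v i) ≤ k * c := by
        have h8 := Finset.sum_le_sum fun i (_ : i ∈ (Finset.univ : Finset (Fin k))) => hEv i
        simpa using h8
      have h8 : k * c ≤ c * M := by nlinarith
      linarith
    have h7 : q * M ≤ R * (ε ^ 2 * En χ + c * M) - (R - 1) * (L * M) := by
      have h8 : A + R * (H - A) = R * H - (R - 1) * A := by ring
      rw [h8] at h4
      have h9 := mul_le_mul_of_nonneg_left h6 (by linarith : (0:ℝ) ≤ R)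
      have h10 := mul_le_mul_of_nonneg_left h5 (by linarith : (0:ℝ) ≤ R - 1)
      linarith
    have h8 : R * (ε ^ 2 * En χ) ≤ R * (ε ^ 2 * En χ) * M := by
      have : 0 ≤ R * (ε ^ 2 * En χ) := by positivity
      nlinarith
    have h9 : q * M ≤ (R * c - (R - 1) * L + R * (ε ^ 2 * En χ)) * M := by nlinarith
    exact le_of_mul_le_mul_right h9 hM0
  have hlim : Tendsto (fun ε : ℝ => R * c - (R - 1) * L + R * (ε ^ 2 * En χ)) (𝓝[>] 0)
      (𝓝 (R * c - (R - 1) * L + R * ((0:ℝ) ^ 2 * En χ))) := by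
    refine Tendsto.mono_left ?_ nhdsWithin_le_nhds
    have hcont : Continuous fun ε : ℝ => R * c - (R - 1) * L + R * (ε ^ 2 * En χ) := by fun_prop
    exact hcont.tendsto 0
  have h2 := ge_of_tendsto hlim (b := q) (by
    have h3 : ∀ᶠ ε : ℝ in 𝓝[>] 0, ε < min 1 (1 / (Ma χ + 1)) :=
      nhdsWithin_le_nhds (Iio_mem_nhds (lt_min one_pos (by positivity)))
    filter_upwards [self_mem_nhdsWithin, h3] with ε hε hε'
    have h4 : ε < 1 := lt_of_lt_of_le hε' (min_le_left _ _)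
    have h5 : ε < 1 / (Ma χ + 1) := lt_of_lt_of_le hε' (min_le_right _ _)
    refine key ε hε h4.le ?_
    rw [lt_div_iff₀ (by positivity)] at h5
    have : 0 < ε := hε
    nlinarith)
  refine h2.trans (le_of_eq ?_)
  ring

end Pool.Agent.Helper855DB
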