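import Pool.Agent.Helper855DB.Grad

/-! Radial mollification (helper855). -/

set_option autoImplicit false

open MeasureTheory Filter Topology Set
open scoped ENNReal NNReal RealInnerProductSpace Convolution

namespace Pool.Agent.Helper855DB

variable {n : ℕ}

/-- radial bump -/
noncomputable def bm (ε : ℝ) (x : Sp n) : ℝ := Real.smoothTransition (1 - ‖x‖ ^ 2 / ε ^ 2)

theorem bm_nonneg (ε : ℝ) (x : Sp n) : 0 ≤ bm ε x := Real.smoothTransition.nonneg _

theorem bm_smooth (ε : ℝ) : ContDiff ℝ (⊤ : ℕ∞) (bm ε : Sp n → ℝ) := by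
  unfold bm
  refine Real.smoothTransition.contDiff.comp ?_
  exact contDiff_const.sub ((contDiff_norm_sq ℝ).div_const _)

theorem bm_zero {ε : ℝ} (hε : 0 < ε) {x : Sp n} (hx : ε ≤ ‖x‖) : bm ε x = 0 := by
  unfold bm
  refine Real.smoothTransition.zero_of_nonpos ?_
  have : 1 ≤ ‖x‖ ^ 2 / ε ^ 2 := by
    rw [le_div_iff₀ (by positivity), one_mul]
    exact pow_le_pow_left₀ hε.le hx 2
  linarith

theorem bm_comp {ε : ℝ} (hε : 0 < ε) : HasCompactSupport (bm ε : Sp n → ℝ) := by
  refine HasCompactSupport.intro (isCompact_closedBall (0 : Sp n) ε) fun x hx => bm_zero hε ?_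
  simp only [Metric.mem_closedBall, dist_zero_right, not_le] at hx
  exact hx.le

theorem bm_int {ε : ℝ} (hε : 0 < ε) : Integrable (bm ε : Sp n → ℝ) :=
  (bm_smooth ε).continuous.integrable_of_hasCompactSupport (bm_comp hε)

theorem bm_int_pos {ε : ℝ} (hε : 0 < ε) : 0 < ∫ x : Sp n, bm ε x := by
  rw [integral_pos_iff_support_of_nonneg (fun x => bm_nonneg ε x) (bm_int hε)]
  refine lt_of_lt_of_le (Metric.measure_ball_pos volume (0 : Sp n) hε) (measure_mono ?_)
  intro x hx
  rw [Function.mem_support]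
  refine (Real.smoothTransition.pos_of_pos ?_).ne'
  have h1 : ‖x‖ < ε := by simpa using hx
  have : ‖x‖ ^ 2 / ε ^ 2 < 1 := by
    rw [div_lt_one (by positivity)]
    exact pow_lt_pow_left₀ h1 (norm_nonneg _) (by norm_num)
  linarith

/-- normalised radial bump -/
noncomputable def rho (ε : ℝ) (x : Sp n) : ℝ := bm ε x / ∫ y : Sp n, bm ε y

theorem rho_nonneg {ε : ℝ} (hε : 0 < ε) (x : Sp n) : 0 ≤ rho ε x :=
  div_nonneg (bm_nonneg ε x) (bm_int_pos hε).le

theorem rho_smooth (ε : ℝ) : ContDiff ℝ (⊤ : ℕ∞) (rho ε : Sp n → ℝ) := (bm_smooth ε).div_const _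

theorem rho_zero {ε : ℝ} (hε : 0 < ε) {x : Sp n} (hx : ε ≤ ‖x‖) : rho ε x = 0 := by
  unfold rho; rw [bm_zero hε hx, zero_div]

theorem rho_comp {ε : ℝ} (hε : 0 < ε) : HasCompactSupport (rho ε : Sp n → ℝ) := by
  refine HasCompactSupport.intro (isCompact_closedBall (0 : Sp n) ε) fun x hx => rho_zero hε ?_
  simp only [Metric.mem_closedBall, dist_zero_right, not_le] at hx
  exact hx.le

theorem rho_cont (ε : ℝ) : Continuous (rho ε : Sp n → ℝ) := (rho_smooth ε).continuous

theorem rho_int {ε : ℝ} (hε : 0 < ε) : Integrable (rho ε : Sp n → ℝ) :=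
  (rho_cont ε).integrable_of_hasCompactSupport (rho_comp hε)

theorem rho_one {ε : ℝ} (hε : 0 < ε) : ∫ x : Sp n, rho ε x = 1 := by
  unfold rho
  rw [integral_div, div_self (bm_int_pos hε).ne']

theorem rho_isom (ε : ℝ) (σ : Sp n ≃ₗᵢ[ℝ] Sp n) (x : Sp n) : rho ε (σ x) = rho ε x := by
  unfold rho bm; rw [σ.norm_map]

theorem rho_mul_int {ε : ℝ} (hε : 0 < ε) {g : Sp n → ℝ} (hg : Continuous g) :
    Integrable fun u => rho ε u * g u :=
  ((rho_cont ε).mul hg).integrable_of_hasCompactSupport (rho_comp hε).mul_right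

theorem rho_jensen {ε : ℝ} (hε : 0 < ε) {g : Sp n → ℝ} (hg : Continuous g) :
    (∫ u, rho ε u * g u) ^ 2 ≤ ∫ u, rho ε u * g u ^ 2 := by
  set m := ∫ u, rho ε u * g u with hm
  have h0 : 0 ≤ ∫ u, rho ε u * (g u - m) ^ 2 :=
    integral_nonneg fun u => mul_nonneg (rho_nonneg hε u) (sq_nonneg _)
  have e : ∀ u, rho ε u * (g u - m) ^ 2 =
      (rho ε u * g u ^ 2 - 2 * m * (rho ε u * g u)) + m ^ 2 * rho ε u := fun u => by ring
  simp_rw [e] at h0
  have j1 : Integrable fun u => rho ε u * g u ^ 2 := rho_mul_int hε (hg.pow 2)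
  have j2 : Integrable fun u => 2 * m * (rho ε u * g u) := (rho_mul_int hε hg).const_mul (2 * m)
  have j3 : Integrable fun u : Sp n => m ^ 2 * rho ε u := (rho_int (n := n) hε).const_mul (m ^ 2)
  have j12 : Integrable fun u => rho ε u * g u ^ 2 - 2 * m * (rho ε u * g u) := j1.sub j2
  rw [integral_add j12 j3, integral_sub j1 j2, integral_const_mul, integral_const_mul,
    rho_one hε, ← hm] at h0
  nlinarith

/-- the mollification -/
noncomputable def mol (ε : ℝ) (w : Sp n → ℝ) (x : Sp n) : ℝ := ∫ u, rho ε u * w (x - u)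

variable {w : Sp n → ℝ}

theorem mol_smooth {ε : ℝ} (hε : 0 < ε) (hw : Continuous w) :
    ContDiff ℝ (⊤ : ℕ∞) (mol ε w) := by
  have h := (rho_comp hε).contDiff_convolution_left (ContinuousLinearMap.lsmul ℝ ℝ)
    (rho_smooth (n := n) ε) (hw.locallyIntegrable (μ := volume))
  exact h

theorem mol_zero {ε a : ℝ} (hε : 0 < ε) (hw0 : ∀ x, a ≤ ‖x‖ → w x = 0) {x : Sp n}
    (hx : a + ε ≤ ‖x‖) : mol ε w x = 0 := by
  unfold mol
  rw [← integral_zero (Sp n) ℝ (μ := volume)]
  refine integral_congr_ae (Eventually.of_forall fun u => ?_)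
  simp only
  by_cases hu : ε ≤ ‖u‖
  · rw [rho_zero hε hu, zero_mul]
  · push Not at hu
    rw [hw0 (x - u) (by
      have := norm_sub_norm_le x u
      linarith), mul_zero]

theorem mol_close {ε δ : ℝ} (hε : 0 < ε) (hw : Continuous w) {x : Sp n}
    (h : ∀ u, ‖u‖ < ε → |w (x - u) - w x| ≤ δ) : |mol ε w x - w x| ≤ δ := by
  have hc : Continuous fun u => w (x - u) := hw.comp (by fun_prop)
  have e : mol ε w x - w x = ∫ u, rho ε u * (w (x - u) - w x) := by
    unfold mol
    simp_rw [mul_sub]
    rw [integral_sub (rho_mul_int hε hc) (rho_mul_int hε continuous_const), integral_mul_const,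
      rho_one hε, one_mul]
  rw [e]
  calc |∫ u, rho ε u * (w (x - u) - w x)| ≤ ∫ u, |rho ε u * (w (x - u) - w x)| :=
        abs_integral_le_integral_abs
    _ ≤ ∫ u, rho ε u * δ := by
        refine integral_mono (rho_mul_int hε (hc.sub continuous_const)).abs
          (rho_mul_int hε continuous_const) fun u => ?_
        simp only
        rw [abs_mul, abs_of_nonneg (rho_nonneg hε u)]
        by_cases hu : ‖u‖ < ε
        · exact mul_le_mul_of_nonneg_left (h u hu) (rho_nonneg hε u)
        · push Not at hu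
          rw [rho_zero hε hu]; simp
    _ = δ := by rw [integral_mul_const, rho_one hε, one_mul]

theorem mol_isom (ε : ℝ) (σ : Sp n ≃ₗᵢ[ℝ] Sp n) (hw : ∀ x, w (σ x) = w x) (x : Sp n) :
    mol ε w (σ x) = mol ε w x := by
  unfold mol
  have h := σ.measurePreserving.integral_comp σ.toHomeomorph.measurableEmbedding
    (fun u => rho ε u * w (σ x - u))
  rw [← h]
  refine integral_congr_ae (Eventually.of_forall fun u => ?_)
  simp only
  rw [rho_isom, ← map_sub, hw]

/-- mollification decreases the nonlocal energy -/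
theorem NE_mol {ε : ℝ} (hε : 0 < ε) (hw : Continuous w) (η : ℝ) : NE η (mol ε w) ≤ NE η w := by
  have hT := TT_meas η hw.measurable
  have hm : Measurable (fun p : (Sp n × Sp n) × Sp n =>
      ENNReal.ofReal (rho ε p.2) * TT η w (p.1.1 - p.2) (p.1.2 - p.2)) := by
    refine (ENNReal.measurable_ofReal.comp ((rho_cont ε).measurable.comp measurable_snd)).mul ?_
    have h1 : Measurable (fun p : (Sp n × Sp n) × Sp n => (p.1.1 - p.2, p.1.2 - p.2)) := by fun_prop
    have h2 := hT.comp h1
    exact h2
  have pt : ∀ x y, TT η (mol ε w) x y ≤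
      ∫⁻ u, ENNReal.ofReal (rho ε u) * TT η w (x - u) (y - u) := by
    intro x y
    have hc1 : Continuous fun u => w (x - u) := hw.comp (by fun_prop)
    have hc2 : Continuous fun u => w (y - u) := hw.comp (by fun_prop)
    have e1 : mol ε w x - mol ε w y = ∫ u, rho ε u * (w (x - u) - w (y - u)) := by
      unfold mol
      simp_rw [mul_sub]
      rw [integral_sub (rho_mul_int hε hc1) (rho_mul_int hε hc2)]
    have h1 := rho_jensen hε (g := fun u => w (x - u) - w (y - u)) (hc1.sub hc2)
    have h2 : kr η x y * (mol ε w x - mol ε w y) ^ 2 ≤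
        ∫ u, rho ε u * (kr η x y * (w (x - u) - w (y - u)) ^ 2) := by
      rw [e1]
      have h3 := mul_le_mul_of_nonneg_left h1 (kr_nonneg η x y)
      refine h3.trans (le_of_eq ?_)
      rw [← integral_const_mul]
      refine integral_congr_ae (Eventually.of_forall fun u => ?_)
      simp only
      ring
    unfold TT
    refine (ENNReal.ofReal_le_ofReal h2).trans (le_of_eq ?_)
    rw [ofReal_integral_eq_lintegral_ofReal]
    · refine lintegral_congr fun u => ?_
      rw [ENNReal.ofReal_mul (rho_nonneg hε u)]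
      congr 3
      unfold kr
      rw [dist_sub_right]
    · exact rho_mul_int hε (continuous_const.mul ((hc1.sub hc2).pow 2))
    · exact Eventually.of_forall fun u => mul_nonneg (rho_nonneg hε u)
        (mul_nonneg (kr_nonneg _ _ _) (sq_nonneg _))
  calc NE η (mol ε w) ≤ ∫⁻ x, ∫⁻ y, ∫⁻ u, ENNReal.ofReal (rho ε u) * TT η w (x - u) (y - u) :=
        lintegral_mono fun x => lintegral_mono fun y => pt x y
    _ = ∫⁻ u, ∫⁻ x, ∫⁻ y, ENNReal.ofReal (rho ε u) * TT η w (x - u) (y - u) := by
        have hm1 : ∀ x, Measurable (fun p : Sp n × Sp n =>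
            ENNReal.ofReal (rho ε p.2) * TT η w (x - p.2) (p.1 - p.2)) := by
          intro x
          have h1 : Measurable (fun p : Sp n × Sp n => (((x, p.1), p.2) : (Sp n × Sp n) × Sp n)) := by
            fun_prop
          have h2 := hm.comp h1
          exact h2
        have e1 : ∀ x, ∫⁻ y, ∫⁻ u, ENNReal.ofReal (rho ε u) * TT η w (x - u) (y - u) =
            ∫⁻ u, ∫⁻ y, ENNReal.ofReal (rho ε u) * TT η w (x - u) (y - u) := fun x =>
          lintegral_lintegral_swap (hm1 x).aemeasurable
        simp_rw [e1]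
        have hm2 : Measurable (fun q : (Sp n × Sp n) × Sp n =>
            ENNReal.ofReal (rho ε q.1.2) * TT η w (q.1.1 - q.1.2) (q.2 - q.1.2)) := by
          have h1 : Measurable (fun q : (Sp n × Sp n) × Sp n =>
            (((q.1.1, q.2), q.1.2) : (Sp n × Sp n) × Sp n)) := by fun_prop
          have h2 := hm.comp h1
          exact h2
        have hm3 : Measurable (fun p : Sp n × Sp n =>
            ∫⁻ y, ENNReal.ofReal (rho ε p.2) * TT η w (p.1 - p.2) (y - p.2)) :=
          Measurable.lintegral_prod_right' (f := fun q : (Sp n × Sp n) × Sp n =>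
            ENNReal.ofReal (rho ε q.1.2) * TT η w (q.1.1 - q.1.2) (q.2 - q.1.2)) hm2
        exact lintegral_lintegral_swap hm3.aemeasurable
    _ = ∫⁻ u : Sp n, ENNReal.ofReal (rho ε u) * NE η w := by
        refine lintegral_congr fun u => ?_
        have m1 : ∀ x, Measurable fun y => TT η w (x - u) (y - u) := by
          intro x
          have h1 : Measurable ((fun y => TT η w (x - u) y) ∘ fun y => y - u) :=
            (TT_meas1 η hw.measurable (x - u)).comp (by fun_prop)
          exact h1
        have e2 : ∀ x, ∫⁻ y, ENNReal.ofReal (rho ε u) * TT η w (x - u) (y - u) =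
            ENNReal.ofReal (rho ε u) * ∫⁻ y, TT η w (x - u) y := by
          intro x
          rw [lintegral_const_mul _ (m1 x), lintegral_sub_right_eq_self (fun y => TT η w (x - u) y) u]
        simp_rw [e2]
        have m2 := TT_meas2 η hw.measurable
        have m3 : Measurable fun x : Sp n => ∫⁻ y, TT η w (x - u) y := by
          have h1 : Measurable ((fun x => ∫⁻ y, TT η w x y) ∘ fun x => x - u) :=
            m2.comp (by fun_prop)
          exact h1
        rw [lintegral_const_mul _ m3, lintegral_sub_right_eq_self (fun x => ∫⁻ y, TT η w x y) u]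
        rfl
    _ = NE η w := by
        have hmr : Measurable fun u : Sp n => ENNReal.ofReal (rho ε u) :=
          ENNReal.measurable_ofReal.comp (rho_cont ε).measurable
        rw [lintegral_mul_const _ hmr,
          ← ofReal_integral_eq_lintegral_ofReal (rho_int hε)
          (Eventually.of_forall fun u => rho_nonneg hε u), rho_one hε]
        simp

end Pool.Agent.Helper855DB
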