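import Pool.Agent.Helper855DB.Comp
import Pool.Agent.Helper855DB.Moll

/-! The Faber-Krahn comparison in its test function form (helper855). -/

set_option autoImplicit false

open MeasureTheory Filter Topology Set
open scoped ENNReal NNReal RealInnerProductSpace

namespace Pool.Agent.Helper855DB

variable {n : ℕ}

theorem Test.out {u : Sp n → ℝ} {Ω : Set (Sp n)} (h : Test Ω u) :
    ∃ R : ℝ, 0 < R ∧ ∀ y, R ≤ ‖y‖ → u y = 0 := by
  obtain ⟨R, hR⟩ := h.comp.isCompact.isBounded.subset_closedBall (0 : Sp n)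
  refine ⟨max R 0 + 1, by positivity, fun y hy => ?_⟩
  by_contra hne
  have h1 : y ∈ tsupport u := subset_tsupport u hne
  have h2 := hR h1
  simp only [Metric.mem_closedBall, dist_zero_right] at h2
  have := le_max_left R 0
  linarith

theorem Test.bdd {u : Sp n → ℝ} {Ω : Set (Sp n)} (h : Test Ω u) :
    ∃ B : ℝ, 0 ≤ B ∧ ∀ y, |u y| ≤ B := by
  obtain ⟨B, hB⟩ := h.cont.bounded_above_of_compact_support h.comp
  exact ⟨B, (norm_nonneg _).trans (hB 0), hB⟩

theorem Test.lip {u : Sp n → ℝ} {Ω : Set (Sp n)} (h : Test Ω u) :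
    ∃ C : ℝ, 0 ≤ C ∧ ∀ y z, |u y - u z| ≤ C * dist y z := by
  obtain ⟨C, hC⟩ := h.fcont.bounded_above_of_compact_support h.fcomp
  refine ⟨C, (norm_nonneg _).trans (hC 0), fun y z => ?_⟩
  have h1 := convex_univ.norm_image_sub_le_of_norm_fderiv_le (𝕜 := ℝ) (f := u) (C := C)
    (fun x _ => h.diff x) (fun x _ => hC x) (mem_univ z) (mem_univ y)
  rw [Real.norm_eq_abs] at h1
  rwa [dist_eq_norm]

theorem ball_vol_lt (hn : 1 ≤ n) {r s : ℝ} (hr : 0 ≤ r) (hrs : r < s) :
    volume (Metric.ball (0 : Sp n) r) < volume (Metric.ball (0 : Sp n) s) := by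
  have : Nontrivial (Sp n) := Module.nontrivial_of_finrank_pos (R := ℝ) (by simp; omega)
  rw [Measure.addHaar_ball _ _ hr, Measure.addHaar_ball _ _ (hr.trans hrs.le)]
  have hfr : Module.finrank ℝ (Sp n) = n := by simp
  rw [hfr]
  have h1 : volume (Metric.ball (0 : Sp n) 1) ≠ 0 :=
    (Metric.measure_ball_pos volume (0 : Sp n) one_pos).ne'
  have h2 : volume (Metric.ball (0 : Sp n) 1) ≠ ∞ := measure_ball_lt_top.ne
  refine ENNReal.mul_lt_mul_left h1 h2 ?_
  rw [ENNReal.ofReal_lt_ofReal_iff (pow_pos (lt_of_le_of_lt hr hrs) n)]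
  exact pow_lt_pow_left₀ hrs hr (by omega)

/-- truncation decreases the nonlocal energy -/
theorem NE_trunc (η d : ℝ) (w : Sp n → ℝ) : NE η (fun y => max (w y - d) 0) ≤ NE η w := by
  unfold NE
  refine lintegral_mono fun x => lintegral_mono fun y => ?_
  unfold TT
  refine ENNReal.ofReal_le_ofReal (mul_le_mul_of_nonneg_left ?_ (kr_nonneg _ _ _))
  have h1 : |max (w x - d) 0 - max (w y - d) 0| ≤ |w x - w y| := by
    have := abs_max_sub_max_le_abs (w x - d) (w y - d) 0
    simpa using this
  exact sq_le_sq.2 h1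

/-- Faber-Krahn comparison, nonnegative functions -/
theorem fk_nonneg (hn : 1 ≤ n) {r : ℝ} (hr : 0 < r) {u : Sp n → ℝ} (h : Test univ u)
    (h0 : ∀ x, 0 ≤ u x) (hv : volume {x | u x ≠ 0} ≤ volume (Metric.ball (0 : Sp n) r))
    {ε : ℝ} (hε : 0 < ε) :
    ∃ φ : Sp n → ℝ, Test (Metric.ball 0 r) φ ∧ (∀ x, 0 ≤ φ x) ∧
      (∀ (σ : Sp n ≃ₗᵢ[ℝ] Sp n) x, φ (σ x) = φ x) ∧ En φ ≤ En u ∧ Ma u - ε ≤ Ma φ := by
  obtain ⟨R, hR, hout⟩ := h.out
  obtain ⟨B, hB, hle⟩ := h.bdd
  obtain ⟨C, hC, hlip⟩ := h.lip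
  set δ : ℝ → ℝ := fun t => t / (C + 1) with hδdef
  have hδ : ∀ t > 0, 0 < δ t := fun t ht => div_pos ht (by linarith)
  have hcls : Cls δ R B (∫⁻ y, ENNReal.ofReal (u y ^ 2)) (volume (Metric.ball (0 : Sp n) r))
      (fun η => ENNReal.ofReal (kap n η * En u)) u := by
    refine ⟨?_, h0, ?_, hout, rfl, hv, fun η => NE_le hn h η⟩
    · intro t ht y z hyz
      simp only [hδdef] at hyz
      rw [lt_div_iff₀ (by linarith)] at hyz
      have h1 := hlip y z
      have h2 : 0 ≤ dist y z := dist_nonneg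
      nlinarith
    · intro y
      exact (le_abs_self _).trans (hle y)
  obtain ⟨w, hw, hrad⟩ := exists_radial_dec hδ hcls
  have hwc := hw.continuous hδ
  have hwk := hw.compact
  -- support in the ball
  have hwr : ∀ y, r ≤ ‖y‖ → w y = 0 := by
    intro y hy
    by_contra hne
    have hpos : 0 < w y := lt_of_le_of_ne (hw.nn y) (Ne.symm hne)
    have h1 : Tendsto (fun j : ℕ => w ((1 + 1 / ((j:ℝ) + 1)) • y)) atTop (𝓝 (w y)) := by
      have h2 : Tendsto (fun j : ℕ => (1 + 1 / ((j:ℝ) + 1)) • y) atTop (𝓝 ((1 + 0 : ℝ) • y)) :=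
        (tendsto_const_nhds.add tendsto_one_div_add_atTop_nhds_zero_nat).smul_const y
      rw [add_zero, one_smul] at h2
      exact (hwc.tendsto y).comp h2
    obtain ⟨j, hj⟩ := (h1.eventually_const_lt hpos).exists
    set s : ℝ := ‖(1 + 1 / ((j:ℝ) + 1)) • y‖ with hs
    have hsr : r < s := by
      rw [hs, norm_smul, Real.norm_eq_abs, abs_of_pos (by positivity)]
      have : 0 < 1 / ((j:ℝ) + 1) := by positivity
      nlinarith
    have hsub : Metric.ball (0 : Sp n) s ⊆ {y | w y ≠ 0} := by
      intro z hz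
      have hz' : ‖z‖ ≤ ‖(1 + 1 / ((j:ℝ) + 1)) • y‖ := by
        have : ‖z‖ < s := by simpa using hz
        exact this.le
      exact (lt_of_lt_of_le hj (hrad z _ hz')).ne'
    have h3 := (measure_mono hsub).trans hw.vol
    exact absurd (ball_vol_lt hn hr.le hsr) (not_lt.2 h3)
  -- the total integral
  have hwi : Integrable w := hwc.integrable_of_hasCompactSupport hwk
  set I : ℝ := ∫ y, w y with hI
  have hI0 : 0 ≤ I := integral_nonneg hw.nn
  set d : ℝ := ε / (2 * (I + 1)) with hd
  have hd0 : 0 < d := by positivity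
  set wt : Sp n → ℝ := fun y => max (w y - d / 2) 0 with hwt
  have hwtc : Continuous wt := (hwc.sub continuous_const).max continuous_const
  have hwt0 : ∀ y, 0 ≤ wt y := fun y => le_max_right _ _
  set a : ℝ := max (r - δ (d / 2) / 2) (r / 2) with ha
  have hd2 : 0 < δ (d / 2) := hδ _ (by linarith)
  have har : a < r := by
    rw [ha]; refine max_lt ?_ ?_ <;> linarith
  have ha0 : 0 < a := lt_of_lt_of_le (by linarith : 0 < r / 2) (le_max_right _ _)
  have hwta : ∀ y, a ≤ ‖y‖ → wt y = 0 := by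
    intro y hy
    simp only [hwt]
    refine max_eq_right ?_
    rcases le_or_gt r ‖y‖ with h1 | h1
    · rw [hwr y h1]; linarith
    · have hy0 : 0 < ‖y‖ := lt_of_lt_of_le ha0 hy
      have hz : ‖(r / ‖y‖) • y‖ = r := by
        rw [norm_smul, Real.norm_eq_abs, abs_of_pos (by positivity)]; field_simp
      have hdist : dist y ((r / ‖y‖) • y) < δ (d / 2) := by
        rw [dist_eq_norm]
        have e : y - (r / ‖y‖) • y = (1 - r / ‖y‖) • y := by rw [sub_smul, one_smul]
        have h2 : 1 - r / ‖y‖ ≤ 0 := by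
          have : 1 ≤ r / ‖y‖ := by rw [le_div_iff₀ hy0]; linarith
          linarith
        rw [e, norm_smul, Real.norm_eq_abs, abs_of_nonpos h2]
        have e2 : -(1 - r / ‖y‖) * ‖y‖ = r - ‖y‖ := by field_simp; ring
        rw [e2]
        have := le_max_left (r - δ (d / 2) / 2) (r / 2)
        linarith
      have h3 := hw.mod (d / 2) (by linarith) y _ hdist
      rw [hwr _ hz.ge, sub_zero, abs_of_nonneg (hw.nn y)] at h3
      linarith
  set t : ℝ := min ((r - a) / 2) (δ (d / 2) / 2) with ht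
  have ht0 : 0 < t := lt_min (by linarith) (by linarith)
  set φ : Sp n → ℝ := mol t wt with hφ
  have hφs : ∀ y, a + t ≤ ‖y‖ → φ y = 0 := fun y hy => mol_zero ht0 hwta hy
  have hat : a + t < r := by
    have := min_le_left ((r - a) / 2) (δ (d / 2) / 2)
    linarith
  have hsupp : tsupport φ ⊆ Metric.closedBall 0 (a + t) := by
    refine closure_minimal ?_ Metric.isClosed_closedBall
    intro y hy
    rw [Function.mem_support] at hy
    simp only [Metric.mem_closedBall, dist_zero_right]
    by_contra hcon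
    push Not at hcon
    exact hy (hφs y hcon.le)
  have hφT : Test (Metric.ball 0 r) φ := by
    refine ⟨mol_smooth ht0 hwtc, ?_, ?_⟩
    · exact HasCompactSupport.of_support_subset_isCompact (isCompact_closedBall (0 : Sp n) (a + t))
        ((subset_tsupport φ).trans hsupp)
    · exact hsupp.trans (Metric.closedBall_subset_ball hat)
  have hφ0 : ∀ x, 0 ≤ φ x := fun x =>
    integral_nonneg fun z => mul_nonneg (rho_nonneg ht0 z) (hwt0 _)
  have hclose : ∀ x, w x - d ≤ φ x := by
    intro x
    have h1 : |φ x - wt x| ≤ d / 2 := by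
      refine mol_close ht0 hwtc fun z hz => ?_
      have h2 : |w (x - z) - w x| ≤ d / 2 := by
        refine hw.mod (d / 2) (by linarith) _ _ ?_
        rw [dist_eq_norm]
        have e : x - z - x = -z := by abel
        rw [e, norm_neg]
        have := min_le_right ((r - a) / 2) (δ (d / 2) / 2)
        linarith
      refine le_trans ?_ h2
      have := abs_max_sub_max_le_abs (w (x - z) - d / 2) (w x - d / 2) 0
      simpa using this
    have h2 : w x - d / 2 ≤ wt x := le_max_left _ _
    rw [abs_le] at h1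
    linarith [h1.1]
  refine ⟨φ, hφT, hφ0, ?_, ?_, ?_⟩
  · intro σ x
    refine mol_isom t σ (fun y => ?_) x
    have h1 : w (σ y) = w y :=
      le_antisymm (hrad _ _ (σ.norm_map y).ge) (hrad _ _ (σ.norm_map y).le)
    simp only [hwt, h1]
  · refine En_le_of_NE hn hφT (En_nonneg u) one_pos fun η _ _ => ?_
    exact (NE_mol ht0 hwtc η).trans ((NE_trunc η (d / 2) w).trans (hw.en η))
  · have hMa : Ma w = Ma u := by
      have e1 : ENNReal.ofReal (Ma w) = ENNReal.ofReal (Ma u) := by
        unfold Ma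
        rw [ofReal_integral_eq_lintegral_ofReal, ofReal_integral_eq_lintegral_ofReal, hw.mass]
        · exact h.int_sq
        · exact Eventually.of_forall fun _ => sq_nonneg _
        · exact (hwc.pow 2).integrable_of_hasCompactSupport (by
            have : HasCompactSupport ((fun t : ℝ => t ^ 2) ∘ w) := hwk.comp_left (by norm_num)
            exact this)
        · exact Eventually.of_forall fun _ => sq_nonneg _
      exact (ENNReal.ofReal_eq_ofReal_iff (Ma_nonneg _) (Ma_nonneg _)).1 e1
    have i1 : Integrable fun y => w y ^ 2 := (hwc.pow 2).integrable_of_hasCompactSupport (by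
            have : HasCompactSupport ((fun t : ℝ => t ^ 2) ∘ w) := hwk.comp_left (by norm_num)
            exact this)
    have pt : ∀ y, w y ^ 2 - 2 * d * w y ≤ φ y ^ 2 := by
      intro y
      have h1 := hclose y
      have h2 := hφ0 y
      have h3 := hw.nn y
      rcases le_or_gt d (w y) with h4 | h4
      · nlinarith [mul_nonneg hd0.le hd0.le]
      · nlinarith [sq_nonneg (φ y)]
    have h5 : ∫ y, (w y ^ 2 - 2 * d * w y) ≤ Ma φ :=
      integral_mono (i1.sub (hwi.const_mul _)) hφT.int_sq pt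
    rw [integral_sub i1 (hwi.const_mul _), integral_const_mul] at h5
    have h6 : 2 * d * I ≤ ε := by
      rw [hd]
      have : 2 * (ε / (2 * (I + 1))) * I = ε * (I / (I + 1)) := by field_simp
      rw [this]
      have h7 : I / (I + 1) ≤ 1 := by rw [div_le_one (by linarith)]; linarith
      nlinarith
    have h8 : ∫ y, w y ^ 2 = Ma w := rfl
    rw [h8, hMa] at h5
    linarith

end Pool.Agent.Helper855DB
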