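import Mathlib

/-! One dimensional Gaussian integrals of the cutoff exponential (helper855). -/

set_option autoImplicit false

open MeasureTheory Filter Topology Set ProbabilityTheory
open scoped ENNReal NNReal RealInnerProductSpace

namespace Pool.Agent.Helper855DB

/-- the smooth step -/
noncomputable abbrev St : ℝ → ℝ := Real.smoothTransition

/-- its derivative -/
noncomputable def Sd (x : ℝ) : ℝ := deriv Real.smoothTransition x

theorem St_smooth : ContDiff ℝ (⊤ : ℕ∞) St := Real.smoothTransition.contDiff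

theorem St_deriv (x : ℝ) : HasDerivAt St (Sd x) x :=
  ((St_smooth.differentiable (by simp)) x).hasDerivAt

theorem Sd_cont : Continuous Sd := St_smooth.continuous_deriv (by simp)

theorem Sd_smooth : ContDiff ℝ (⊤ : ℕ∞) Sd := by
  have h : ContDiff ℝ (⊤ : ℕ∞) (deriv St) := (contDiff_infty_iff_deriv.1 St_smooth).2
  exact h

theorem Sd_zero {x : ℝ} (hx : x < 0) : Sd x = 0 := by
  have h : St =ᶠ[𝓝 x] fun _ => 0 := by
    filter_upwards [Iio_mem_nhds hx] with y hy
    exact Real.smoothTransition.zero_of_nonpos (le_of_lt hy)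
  unfold Sd
  rw [h.deriv_eq]; simp

theorem Sd_zero' {x : ℝ} (hx : x ≤ 0) : Sd x = 0 := by
  rcases hx.lt_or_eq with h | h
  · exact Sd_zero h
  · subst h
    have h1 : Tendsto Sd (𝓝[<] 0) (𝓝 (Sd 0)) := (Sd_cont.tendsto 0).mono_left nhdsWithin_le_nhds
    have h2 : Tendsto Sd (𝓝[<] 0) (𝓝 0) := by
      refine tendsto_const_nhds.congr' ?_
      filter_upwards [self_mem_nhdsWithin] with y hy
      exact (Sd_zero hy).symm
    exact tendsto_nhds_unique h1 h2

theorem Sd_one {x : ℝ} (hx : 1 < x) : Sd x = 0 := by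
  have h : St =ᶠ[𝓝 x] fun _ => 1 := by
    filter_upwards [Ioi_mem_nhds hx] with y hy
    exact Real.smoothTransition.one_of_one_le (le_of_lt hy)
  unfold Sd
  rw [h.deriv_eq]; simp

theorem Sd_nonneg (x : ℝ) : 0 ≤ Sd x := by
  refine Monotone.deriv_nonneg ?_
  exact Real.smoothTransition.monotone

theorem Sd_bdd : ∃ K : ℝ, 0 ≤ K ∧ ∀ x, Sd x ≤ K := by
  obtain ⟨K, hK⟩ := (isCompact_Icc (a := (0:ℝ)) (b := 1)).exists_bound_of_continuousOn
    (f := Sd) Sd_cont.continuousOn
  refine ⟨max K 0, le_max_right _ _, fun x => ?_⟩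
  by_cases h0 : x < 0
  · rw [Sd_zero h0]; exact le_max_right _ _
  by_cases h1 : 1 < x
  · rw [Sd_one h1]; exact le_max_right _ _
  push Not at h0 h1
  exact (le_abs_self _).trans ((hK x ⟨h0, h1⟩).trans (le_max_left _ _))

/-- bound of the derivative -/
noncomputable def SK : ℝ := Sd_bdd.choose

theorem SK_nonneg : 0 ≤ SK := Sd_bdd.choose_spec.1

theorem Sd_le (x : ℝ) : Sd x ≤ SK := Sd_bdd.choose_spec.2 x

/-- profile -/
noncomputable def ff (τ g : ℝ) : ℝ := Real.exp (τ * g / 2) * St (g - τ)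

/-- derivative of the profile -/
noncomputable def fd (τ g : ℝ) : ℝ := Real.exp (τ * g / 2) * (τ / 2 * St (g - τ) + Sd (g - τ))

theorem ff_deriv (τ g : ℝ) : HasDerivAt (ff τ) (fd τ g) g := by
  have h1 : HasDerivAt (fun g : ℝ => Real.exp (τ * g / 2)) (Real.exp (τ * g / 2) * (τ / 2)) g := by
    have h2 : HasDerivAt (fun g : ℝ => τ * g / 2) (τ / 2) g := by
      have := ((hasDerivAt_id g).const_mul τ).div_const 2
      simpa using this
    exact h2.exp
  have h3 : HasDerivAt (fun g : ℝ => St (g - τ)) (Sd (g - τ)) g := by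
    have h4 : HasDerivAt (fun g : ℝ => g - τ) 1 g := (hasDerivAt_id g).sub_const τ
    have h6 := (St_deriv (g - τ)).comp g h4
    rw [mul_one] at h6
    exact h6
  have h5 := h1.mul h3
  have e : Real.exp (τ * g / 2) * (τ / 2) * St (g - τ) + Real.exp (τ * g / 2) * Sd (g - τ) =
      fd τ g := by
    unfold fd; ring
  rw [e] at h5
  exact h5

theorem ff_smooth (τ : ℝ) : ContDiff ℝ (⊤ : ℕ∞) (ff τ) := by
  unfold ff
  refine ContDiff.mul ?_ ?_
  · exact Real.contDiff_exp.comp ((contDiff_const.mul contDiff_id).div_const 2)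
  · exact St_smooth.comp (contDiff_id.sub contDiff_const)

theorem ff_cont (τ : ℝ) : Continuous (ff τ) := (ff_smooth τ).continuous

theorem fd_cont (τ : ℝ) : Continuous (fd τ) := by
  unfold fd
  have h1 : Continuous fun g : ℝ => St (g - τ) := St_smooth.continuous.comp (by fun_prop)
  have h2 : Continuous fun g : ℝ => Sd (g - τ) := Sd_cont.comp (by fun_prop)
  have h3 : Continuous fun g : ℝ => Real.exp (τ * g / 2) := by fun_prop
  exact h3.mul ((continuous_const.mul h1).add h2)

theorem ff_nonneg (τ g : ℝ) : 0 ≤ ff τ g :=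
  mul_nonneg (Real.exp_pos _).le (Real.smoothTransition.nonneg _)

theorem ff_zero {τ g : ℝ} (h : g ≤ τ) : ff τ g = 0 := by
  unfold ff
  rw [show St (g - τ) = 0 from Real.smoothTransition.zero_of_nonpos (by linarith), mul_zero]

theorem fd_zero {τ g : ℝ} (h : g ≤ τ) : fd τ g = 0 := by
  unfold fd
  rw [show St (g - τ) = 0 from Real.smoothTransition.zero_of_nonpos (by linarith),
    Sd_zero' (by linarith)]
  simp

theorem ff_sq_le (τ g : ℝ) : ff τ g ^ 2 ≤ Real.exp (τ * g) := by
  unfold ff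
  rw [mul_pow, ← Real.exp_nat_mul]
  have h1 : ((2:ℕ):ℝ) * (τ * g / 2) = τ * g := by push_cast; ring
  rw [h1]
  have h2 : St (g - τ) ^ 2 ≤ 1 := by
    have h3 : 0 ≤ St (g - τ) := Real.smoothTransition.nonneg _
    have h4 : St (g - τ) ≤ 1 := Real.smoothTransition.le_one _
    nlinarith
  have h5 := Real.exp_pos (τ * g)
  nlinarith

/-- pointwise bound used for integrability -/
theorem fd_sq_le {τ : ℝ} (hτ : 0 ≤ τ) (g : ℝ) : fd τ g ^ 2 ≤ (τ / 2 + SK) ^ 2 * Real.exp (τ * g) := by
  unfold fd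
  rw [mul_pow, ← Real.exp_nat_mul]
  have h1 : ((2:ℕ):ℝ) * (τ * g / 2) = τ * g := by push_cast; ring
  rw [h1]
  have h3 : 0 ≤ St (g - τ) := Real.smoothTransition.nonneg _
  have h4 : St (g - τ) ≤ 1 := Real.smoothTransition.le_one _
  have h5 := Real.exp_pos (τ * g)
  have h6 : 0 ≤ τ / 2 * St (g - τ) + Sd (g - τ) := by
    have := Sd_nonneg (g - τ)
    positivity
  have h7 : τ / 2 * St (g - τ) + Sd (g - τ) ≤ τ / 2 + SK := by
    have h8 := Sd_le (g - τ)
    nlinarith
  have h9 := pow_le_pow_left₀ h6 h7 2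
  nlinarith

/-- the standard Gaussian -/
noncomputable abbrev gm : Measure ℝ := gaussianReal 0 1

theorem exp_int (τ : ℝ) : Integrable (fun g => Real.exp (τ * g)) gm :=
  integrable_exp_mul_gaussianReal τ

theorem exp_val (τ : ℝ) : ∫ g, Real.exp (τ * g) ∂gm = Real.exp (τ ^ 2 / 2) := by
  have h := mgf_gaussianReal (p := gm) (X := fun x => x) (μ := 0) (v := 1) (by simp) τ
  unfold mgf at h
  rw [h]
  congr 1
  simp

theorem ff_sq_int (τ : ℝ) : Integrable (fun g => ff τ g ^ 2) gm := by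
  refine (exp_int τ).mono' ((ff_cont τ).pow 2).aestronglyMeasurable ?_
  refine Eventually.of_forall fun g => ?_
  rw [Real.norm_eq_abs, abs_of_nonneg (sq_nonneg _)]
  exact ff_sq_le τ g

theorem fd_sq_int {τ : ℝ} (hτ : 0 ≤ τ) : Integrable (fun g => fd τ g ^ 2) gm := by
  refine ((exp_int τ).const_mul ((τ / 2 + SK) ^ 2)).mono' ((fd_cont τ).pow 2).aestronglyMeasurable ?_
  refine Eventually.of_forall fun g => ?_
  rw [Real.norm_eq_abs, abs_of_nonneg (sq_nonneg _)]
  exact fd_sq_le hτ g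

theorem ffd_int {τ : ℝ} (hτ : 0 ≤ τ) : Integrable (fun g => ff τ g * fd τ g) gm := by
  refine ((ff_sq_int τ).add (fd_sq_int hτ)).mono'
    ((ff_cont τ).mul (fd_cont τ)).aestronglyMeasurable ?_
  refine Eventually.of_forall fun g => ?_
  rw [Real.norm_eq_abs, abs_le]
  simp only [Pi.add_apply]
  constructor <;> nlinarith [sq_nonneg (ff τ g + fd τ g), sq_nonneg (ff τ g - fd τ g)]

/-- shift identity -/
theorem gm_shift (τ : ℝ) (h : ℝ → ℝ) :
    ∫ g, Real.exp (τ * g) * h (g - τ) ∂gm = Real.exp (τ ^ 2 / 2) * ∫ y, h y ∂gm := by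
  unfold gm
  rw [integral_gaussianReal_eq_integral_smul (by norm_num),
    integral_gaussianReal_eq_integral_smul (by norm_num), ← integral_const_mul]
  rw [← integral_add_right_eq_self (μ := volume) (fun g : ℝ => gaussianPDFReal 0 1 g •
    (Real.exp (τ * g) * h (g - τ))) τ]
  refine integral_congr_ae (Eventually.of_forall fun y => ?_)
  simp only [smul_eq_mul, add_sub_cancel_right]
  unfold gaussianPDFReal
  simp only [sub_zero, NNReal.coe_one, mul_one]
  have e : Real.exp (-(y + τ) ^ 2 / 2) * Real.exp (τ * (y + τ)) =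
      Real.exp (τ ^ 2 / 2) * Real.exp (-y ^ 2 / 2) := by
    rw [← Real.exp_add, ← Real.exp_add]
    congr 1; ring
  calc (√(2 * Real.pi))⁻¹ * Real.exp (-(y + τ) ^ 2 / 2) * (Real.exp (τ * (y + τ)) * h y)
      = (√(2 * Real.pi))⁻¹ * h y * (Real.exp (-(y + τ) ^ 2 / 2) * Real.exp (τ * (y + τ))) := by ring
    _ = (√(2 * Real.pi))⁻¹ * h y * (Real.exp (τ ^ 2 / 2) * Real.exp (-y ^ 2 / 2)) := by rw [e]
    _ = _ := by ring

/-- universal constants -/
noncomputable def c0 : ℝ := ∫ y, St y ^ 2 ∂gm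

noncomputable def c1 : ℝ := ∫ y, St y * Sd y ∂gm

noncomputable def c2 : ℝ := ∫ y, Sd y ^ 2 ∂gm

theorem c0_pos : 0 < c0 := by
  unfold c0
  have hi : Integrable (fun y => St y ^ 2) gm := by
    refine (integrable_const (1:ℝ)).mono' ((St_smooth.continuous).pow 2).aestronglyMeasurable ?_
    refine Eventually.of_forall fun g => ?_
    rw [Real.norm_eq_abs, abs_of_nonneg (sq_nonneg _)]
    have h3 : 0 ≤ St g := Real.smoothTransition.nonneg _
    have h4 : St g ≤ 1 := Real.smoothTransition.le_one _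
    nlinarith
  rw [integral_pos_iff_support_of_nonneg (fun y => sq_nonneg _) hi]
  have h1 : Ioi (0:ℝ) ⊆ Function.support fun y => St y ^ 2 := by
    intro y hy
    rw [Function.mem_support]
    exact pow_ne_zero 2 (Real.smoothTransition.pos_of_pos hy).ne'
  refine lt_of_lt_of_le ?_ (measure_mono h1)
  rw [pos_iff_ne_zero]
  intro h0
  have h2 := gaussianReal_absolutelyContinuous' 0 (v := 1) (by norm_num) h0
  simp at h2

theorem c1_nonneg : 0 ≤ c1 :=
  integral_nonneg fun _ => mul_nonneg (Real.smoothTransition.nonneg _) (Sd_nonneg _)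

theorem c2_nonneg : 0 ≤ c2 := integral_nonneg fun _ => sq_nonneg _

/-- second moment of the profile -/
noncomputable def a0 (τ : ℝ) : ℝ := ∫ g, ff τ g ^ 2 ∂gm

/-- second moment of its derivative -/
noncomputable def a1 (τ : ℝ) : ℝ := ∫ g, fd τ g ^ 2 ∂gm

theorem a0_eq (τ : ℝ) : a0 τ = Real.exp (τ ^ 2 / 2) * c0 := by
  unfold a0 c0
  rw [← gm_shift τ (fun y => St y ^ 2)]
  refine integral_congr_ae (Eventually.of_forall fun g => ?_)
  simp only
  unfold ff
  rw [mul_pow, ← Real.exp_nat_mul]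
  congr 2; push_cast; ring

theorem a0_pos (τ : ℝ) : 0 < a0 τ := by
  rw [a0_eq]; exact mul_pos (Real.exp_pos _) c0_pos

/-- universal constant in the ratio bound -/
noncomputable def bb : ℝ := 1 + c1 / c0 + c2 / c0

theorem bb_ge : 1 ≤ bb := by
  unfold bb
  have h1 := div_nonneg c1_nonneg c0_pos.le
  have h2 := div_nonneg c2_nonneg c0_pos.le
  linarith

theorem a1_le {τ : ℝ} (hτ : 0 ≤ τ) : a1 τ ≤ (τ / 2 + bb) ^ 2 * a0 τ := by
  have e1 : a1 τ = Real.exp (τ ^ 2 / 2) * (τ ^ 2 / 4 * c0 + τ * c1 + c2) := by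
    unfold a1
    have e2 : ∫ g, fd τ g ^ 2 ∂gm =
        ∫ g, Real.exp (τ * g) * (fun y => (τ / 2 * St y + Sd y) ^ 2) (g - τ) ∂gm := by
      refine integral_congr_ae (Eventually.of_forall fun g => ?_)
      simp only
      unfold fd
      rw [mul_pow, ← Real.exp_nat_mul]
      congr 2; push_cast; ring
    rw [e2, gm_shift τ (fun y => (τ / 2 * St y + Sd y) ^ 2)]
    congr 1
    have hb : ∀ y, 0 ≤ St y ∧ St y ≤ 1 := fun y =>
      ⟨Real.smoothTransition.nonneg _, Real.smoothTransition.le_one _⟩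
    have hi0 : Integrable (fun y => St y ^ 2) gm := by
      refine (integrable_const (1:ℝ)).mono' ((St_smooth.continuous).pow 2).aestronglyMeasurable ?_
      refine Eventually.of_forall fun g => ?_
      rw [Real.norm_eq_abs, abs_of_nonneg (sq_nonneg _)]
      have := hb g
      nlinarith
    have hi1 : Integrable (fun y => St y * Sd y) gm := by
      refine (integrable_const SK).mono' ((St_smooth.continuous).mul Sd_cont).aestronglyMeasurable ?_
      refine Eventually.of_forall fun g => ?_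
      have h3 := hb g
      have h4 := Sd_nonneg g
      have h5 := Sd_le g
      rw [Real.norm_eq_abs, abs_of_nonneg (mul_nonneg h3.1 h4)]
      nlinarith
    have hi2 : Integrable (fun y => Sd y ^ 2) gm := by
      refine (integrable_const (SK ^ 2)).mono' (Sd_cont.pow 2).aestronglyMeasurable ?_
      refine Eventually.of_forall fun g => ?_
      rw [Real.norm_eq_abs, abs_of_nonneg (sq_nonneg _)]
      exact pow_le_pow_left₀ (Sd_nonneg g) (Sd_le g) 2
    have e3 : ∀ y, (τ / 2 * St y + Sd y) ^ 2 =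
        (τ ^ 2 / 4 * St y ^ 2 + τ * (St y * Sd y)) + Sd y ^ 2 := fun y => by ring
    simp_rw [e3]
    have j1 : Integrable (fun y => τ ^ 2 / 4 * St y ^ 2) gm := hi0.const_mul _
    have j2 : Integrable (fun y => τ * (St y * Sd y)) gm := hi1.const_mul _
    have j12 : Integrable (fun y => τ ^ 2 / 4 * St y ^ 2 + τ * (St y * Sd y)) gm := j1.add j2
    rw [integral_add j12 hi2, integral_add j1 j2, integral_const_mul, integral_const_mul]
    rfl
  rw [e1, a0_eq]
  have h0 := c0_pos
  have h1 := c1_nonneg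
  have h2 := c2_nonneg
  have hb := bb_ge
  have k1 : c1 ≤ bb * c0 := by
    have : c1 / c0 ≤ bb := by unfold bb; have := div_nonneg h2 h0.le; linarith
    rwa [div_le_iff₀ h0] at this
  have k2 : c2 ≤ bb * c0 := by
    have : c2 / c0 ≤ bb := by unfold bb; have := div_nonneg h1 h0.le; linarith
    rwa [div_le_iff₀ h0] at this
  have k3 : c2 ≤ bb ^ 2 * c0 := by nlinarith [mul_nonneg h0.le (by linarith : (0:ℝ) ≤ bb)]
  have k4 : τ ^ 2 / 4 * c0 + τ * c1 + c2 ≤ (τ / 2 + bb) ^ 2 * c0 := by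
    nlinarith [mul_le_mul_of_nonneg_left k1 hτ]
  have := mul_le_mul_of_nonneg_left k4 (Real.exp_pos (τ ^ 2 / 2)).le
  linarith

end Pool.Agent.Helper855DB
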