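import Pool.Agent.Helper855DB.Gauss1

/-! Standard Gaussian vectors: independence and the random localisation integrals (helper855). -/

set_option autoImplicit false

open MeasureTheory Filter Topology Set ProbabilityTheory
open scoped ENNReal NNReal RealInnerProductSpace

namespace Pool.Agent.Helper855DB

variable {E : Type*} [NormedAddCommGroup E] [InnerProductSpace ℝ E] [FiniteDimensional ℝ E]
  [MeasurableSpace E] [BorelSpace E]

theorem inner_gauss (a : E) : HasGaussianLaw (fun ξ : E => ⟪a, ξ⟫) (stdGaussian E) := by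
  have h := (IsGaussian.hasGaussianLaw_id (μ := stdGaussian E)).map_fun (innerSL ℝ a)
  exact h

theorem inner_mean (a : E) : ∫ ξ : E, ⟪a, ξ⟫ ∂(stdGaussian E) = 0 :=
  integral_strongDual_stdGaussian (innerSL ℝ a)

theorem inner_var (a : E) : Var[fun ξ : E => ⟪a, ξ⟫; stdGaussian E] = ‖a‖ ^ 2 := by
  have h := variance_dual_stdGaussian (innerSL ℝ a)
  rw [innerSL_apply_norm] at h
  exact h

theorem inner_law (a : E) : (stdGaussian E).map (fun ξ : E => ⟪a, ξ⟫) =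
    gaussianReal 0 (‖a‖ ^ 2).toNNReal := by
  rw [(inner_gauss a).map_eq_gaussianReal, inner_mean, inner_var]

theorem inner_law_unit {a : E} (ha : ‖a‖ = 1) :
    (stdGaussian E).map (fun ξ : E => ⟪a, ξ⟫) = gm := by
  rw [inner_law, ha]; simp

theorem inner_meas (a : E) : Measurable (fun ξ : E => ⟪a, ξ⟫) := by fun_prop

theorem exp_inner (a : E) : ∫ ξ : E, Real.exp ⟪a, ξ⟫ ∂(stdGaussian E) = Real.exp (‖a‖ ^ 2 / 2) := by
  have h := mgf_gaussianReal (inner_law a) 1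
  unfold mgf at h
  simp only [one_mul, zero_mul, zero_add, one_pow, mul_one] at h
  rw [h, Real.coe_toNNReal _ (sq_nonneg _)]

theorem exp_inner_int (a : E) : Integrable (fun ξ : E => Real.exp ⟪a, ξ⟫) (stdGaussian E) := by
  have h1 : Integrable (fun x : ℝ => Real.exp (1 * x))
      ((stdGaussian E).map (fun ξ : E => ⟪a, ξ⟫)) := by
    rw [inner_law]
    exact integrable_exp_mul_gaussianReal 1
  have h2 := h1.comp_measurable (inner_meas a)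
  refine h2.congr (Eventually.of_forall fun ξ => ?_)
  simp

theorem inner_sq (a : E) : ∫ ξ : E, ⟪a, ξ⟫ ^ 2 ∂(stdGaussian E) = ‖a‖ ^ 2 := by
  rw [← inner_var a, variance_of_integral_eq_zero (inner_meas a).aemeasurable (inner_mean a)]

theorem inner_int (a : E) : Integrable (fun ξ : E => ⟪a, ξ⟫) (stdGaussian E) :=
  (inner_gauss a).integrable

theorem inner_sq_int (a : E) : Integrable (fun ξ : E => ⟪a, ξ⟫ ^ 2) (stdGaussian E) :=
  (inner_gauss a).memLp_two.integrable_sq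

theorem inner_indep {a b : E} (hab : ⟪a, b⟫ = 0) :
    IndepFun (fun ξ : E => ⟪a, ξ⟫) (fun ξ : E => ⟪b, ξ⟫) (stdGaussian E) := by
  refine HasGaussianLaw.indepFun_of_covariance_eq_zero ?_ ?_
  · have h := (IsGaussian.hasGaussianLaw_id (μ := stdGaussian E)).map_fun
      ((innerSL ℝ a).prod (innerSL ℝ b))
    exact h
  · rw [← covarianceBilin_apply_eq_cov IsGaussian.memLp_two_id, covarianceBilin_stdGaussian]
    exact hab

theorem comp_unit {a : E} (ha : ‖a‖ = 1) {h : ℝ → ℝ} (hc : Continuous h) :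
    ∫ ξ : E, h ⟪a, ξ⟫ ∂(stdGaussian E) = ∫ g, h g ∂gm := by
  rw [← inner_law_unit ha, integral_map (inner_meas a).aemeasurable hc.aestronglyMeasurable]

theorem comp_unit_int {a : E} (ha : ‖a‖ = 1) {h : ℝ → ℝ} (hi : Integrable h gm) :
    Integrable (fun ξ : E => h ⟪a, ξ⟫) (stdGaussian E) := by
  rw [← inner_law_unit ha] at hi
  exact hi.comp_measurable (inner_meas a)

/-- expectation of the squared derivative -/
theorem gauss_energy {τ : ℝ} (hτ : 0 ≤ τ) {θ q : E} (hθ : ‖θ‖ = 1) (hq : ⟪θ, q⟫ = 0) (p : ℝ) :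
    ∫⁻ ξ : E, ENNReal.ofReal ((ff τ ⟪θ, ξ⟫ * p + fd τ ⟪θ, ξ⟫ * ⟪q, ξ⟫) ^ 2) ∂(stdGaussian E) =
      ENNReal.ofReal (a0 τ * p ^ 2 + a1 τ * ‖q‖ ^ 2) := by
  have hind := inner_indep hq
  have i1 : Integrable (fun ξ : E => ff τ ⟪θ, ξ⟫ ^ 2) (stdGaussian E) :=
    comp_unit_int hθ (ff_sq_int τ)
  have i2' : Integrable (fun ξ : E => ff τ ⟪θ, ξ⟫ * fd τ ⟪θ, ξ⟫) (stdGaussian E) :=
    comp_unit_int hθ (ffd_int hτ)
  have i3' : Integrable (fun ξ : E => fd τ ⟪θ, ξ⟫ ^ 2) (stdGaussian E) :=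
    comp_unit_int hθ (fd_sq_int hτ)
  have hc2 : Continuous fun g => ff τ g * fd τ g := (ff_cont τ).mul (fd_cont τ)
  have hc3 : Continuous fun g => fd τ g ^ 2 := (fd_cont τ).pow 2
  have hcs : Continuous fun t : ℝ => t ^ 2 := by fun_prop
  have ind2 : IndepFun (fun ξ : E => ff τ ⟪θ, ξ⟫ * fd τ ⟪θ, ξ⟫) (fun ξ : E => ⟪q, ξ⟫)
      (stdGaussian E) := by
    have h := hind.comp hc2.measurable measurable_id
    exact h
  have ind3 : IndepFun (fun ξ : E => fd τ ⟪θ, ξ⟫ ^ 2) (fun ξ : E => ⟪q, ξ⟫ ^ 2)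
      (stdGaussian E) := by
    have h := hind.comp hc3.measurable hcs.measurable
    exact h
  have i2 : Integrable (fun ξ : E => ff τ ⟪θ, ξ⟫ * fd τ ⟪θ, ξ⟫ * ⟪q, ξ⟫) (stdGaussian E) :=
    ind2.integrable_mul i2' (inner_int q)
  have i3 : Integrable (fun ξ : E => fd τ ⟪θ, ξ⟫ ^ 2 * ⟪q, ξ⟫ ^ 2) (stdGaussian E) :=
    ind3.integrable_mul i3' (inner_sq_int q)
  have v1 : ∫ ξ : E, ff τ ⟪θ, ξ⟫ ^ 2 ∂(stdGaussian E) = a0 τ :=
    comp_unit hθ (h := fun g => ff τ g ^ 2) ((ff_cont τ).pow 2)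
  have v2 : ∫ ξ : E, ff τ ⟪θ, ξ⟫ * fd τ ⟪θ, ξ⟫ * ⟪q, ξ⟫ ∂(stdGaussian E) = 0 := by
    have h := ind2.integral_mul_eq_mul_integral i2'.aestronglyMeasurable
      (inner_int q).aestronglyMeasurable
    simp only [Pi.mul_apply] at h
    rw [h, inner_mean q, mul_zero]
  have v3 : ∫ ξ : E, fd τ ⟪θ, ξ⟫ ^ 2 * ⟪q, ξ⟫ ^ 2 ∂(stdGaussian E) = a1 τ * ‖q‖ ^ 2 := by
    have h := ind3.integral_mul_eq_mul_integral i3'.aestronglyMeasurable
      (inner_sq_int q).aestronglyMeasurable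
    simp only [Pi.mul_apply] at h
    rw [h, inner_sq q, comp_unit hθ (h := fun g => fd τ g ^ 2) hc3]
    rfl
  have e : ∀ ξ : E, (ff τ ⟪θ, ξ⟫ * p + fd τ ⟪θ, ξ⟫ * ⟪q, ξ⟫) ^ 2 =
      (ff τ ⟪θ, ξ⟫ ^ 2 * p ^ 2 + 2 * p * (ff τ ⟪θ, ξ⟫ * fd τ ⟪θ, ξ⟫ * ⟪q, ξ⟫)) +
        fd τ ⟪θ, ξ⟫ ^ 2 * ⟪q, ξ⟫ ^ 2 := fun ξ => by ring
  simp_rw [e]
  have j1 : Integrable (fun ξ : E => ff τ ⟪θ, ξ⟫ ^ 2 * p ^ 2) (stdGaussian E) := i1.mul_const _
  have j2 : Integrable (fun ξ : E => 2 * p * (ff τ ⟪θ, ξ⟫ * fd τ ⟪θ, ξ⟫ * ⟪q, ξ⟫))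
      (stdGaussian E) := i2.const_mul _
  have j12 : Integrable (fun ξ : E => ff τ ⟪θ, ξ⟫ ^ 2 * p ^ 2 +
      2 * p * (ff τ ⟪θ, ξ⟫ * fd τ ⟪θ, ξ⟫ * ⟪q, ξ⟫)) (stdGaussian E) := j1.add j2
  have j : Integrable (fun ξ : E => (ff τ ⟪θ, ξ⟫ ^ 2 * p ^ 2 +
      2 * p * (ff τ ⟪θ, ξ⟫ * fd τ ⟪θ, ξ⟫ * ⟪q, ξ⟫)) + fd τ ⟪θ, ξ⟫ ^ 2 * ⟪q, ξ⟫ ^ 2)
      (stdGaussian E) := j12.add i3
  rw [← ofReal_integral_eq_lintegral_ofReal j (Eventually.of_forall fun ξ => by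
    simp only [Pi.zero_apply]
    rw [← e ξ]; exact sq_nonneg _)]
  rw [integral_add j12 i3, integral_add j1 j2, integral_mul_const, integral_const_mul, v1, v2, v3]
  congr 1; ring

theorem gauss_mass {τ : ℝ} {θ : E} (hθ : ‖θ‖ = 1) :
    ∫⁻ ξ : E, ENNReal.ofReal (ff τ ⟪θ, ξ⟫ ^ 2) ∂(stdGaussian E) = ENNReal.ofReal (a0 τ) := by
  rw [← ofReal_integral_eq_lintegral_ofReal (comp_unit_int hθ (ff_sq_int τ))
    (Eventually.of_forall fun ξ => sq_nonneg _)]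
  rw [comp_unit hθ (h := fun g => ff τ g ^ 2) ((ff_cont τ).pow 2)]
  rfl

/-- expectation of the squared profile on a random cap -/
theorem gauss_vol {τ : ℝ} (hτ : 0 ≤ τ) {θ θ' : E} (hθ : ‖θ‖ = 1) (hθ' : ‖θ'‖ = 1) :
    ∫⁻ ξ : E, ENNReal.ofReal (ff τ ⟪θ, ξ⟫ ^ 2) * (if τ < ⟪θ', ξ⟫ then 1 else 0) ∂(stdGaussian E) ≤
      ENNReal.ofReal (Real.exp 1 + Real.exp (τ ^ 2 / 2) * τ ^ 4 * ⟪θ, θ'⟫ ^ 2) := by
  set t : ℝ := ⟪θ, θ'⟫ with ht
  have b1 : ∫⁻ ξ : E, ENNReal.ofReal (ff τ ⟪θ, ξ⟫ ^ 2) * (if τ < ⟪θ', ξ⟫ then 1 else 0)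
      ∂(stdGaussian E) ≤ ENNReal.ofReal (Real.exp (τ ^ 2 / 2)) := by
    have h1 : ∫ ξ : E, Real.exp (⟪τ • θ, ξ⟫) ∂(stdGaussian E) = Real.exp (τ ^ 2 / 2) := by
      rw [exp_inner, norm_smul, hθ, Real.norm_eq_abs, mul_one, sq_abs]
    rw [← h1, ofReal_integral_eq_lintegral_ofReal (exp_inner_int _)
      (Eventually.of_forall fun ξ => (Real.exp_pos _).le)]
    refine lintegral_mono fun ξ => ?_
    refine le_trans ?_ (ENNReal.ofReal_le_ofReal (ff_sq_le τ ⟪θ, ξ⟫ |>.trans (le_of_eq ?_)))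
    · split_ifs
      · rw [mul_one]
      · rw [mul_zero]; exact zero_le
    · rw [real_inner_smul_left]
  have b2 : ∫⁻ ξ : E, ENNReal.ofReal (ff τ ⟪θ, ξ⟫ ^ 2) * (if τ < ⟪θ', ξ⟫ then 1 else 0)
      ∂(stdGaussian E) ≤ ENNReal.ofReal (Real.exp (τ ^ 2 * t)) := by
    have h1 : Real.exp (-τ ^ 2) * ∫ ξ : E, Real.exp (⟪τ • (θ + θ'), ξ⟫) ∂(stdGaussian E) =
        Real.exp (τ ^ 2 * t) := by
      rw [exp_inner, norm_smul, Real.norm_eq_abs, mul_pow, sq_abs, norm_add_sq_real, hθ, hθ',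
        ← Real.exp_add]
      congr 1; rw [ht]; ring
    rw [← h1, ← integral_const_mul, ofReal_integral_eq_lintegral_ofReal
      ((exp_inner_int _).const_mul _)
      (Eventually.of_forall fun ξ => mul_nonneg (Real.exp_pos _).le (Real.exp_pos _).le)]
    refine lintegral_mono fun ξ => ?_
    simp only
    split_ifs with h2
    · rw [mul_one]
      refine ENNReal.ofReal_le_ofReal ((ff_sq_le τ ⟪θ, ξ⟫).trans ?_)
      rw [← Real.exp_add, Real.exp_le_exp, real_inner_smul_left, inner_add_left]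
      nlinarith
    · rw [mul_zero]; exact zero_le
  by_cases hc : τ ^ 2 * t ≤ 1
  · refine b2.trans (ENNReal.ofReal_le_ofReal ?_)
    have h1 : Real.exp (τ ^ 2 * t) ≤ Real.exp 1 := Real.exp_le_exp.2 hc
    have h2 : 0 ≤ Real.exp (τ ^ 2 / 2) * τ ^ 4 * t ^ 2 := by positivity
    linarith
  · refine b1.trans (ENNReal.ofReal_le_ofReal ?_)
    push Not at hc
    have h1 : 1 ≤ τ ^ 4 * t ^ 2 := by
      have : τ ^ 4 * t ^ 2 = (τ ^ 2 * t) ^ 2 := by ring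
      rw [this]; nlinarith
    have h2 := Real.exp_pos (τ ^ 2 / 2)
    have h3 := Real.exp_pos 1
    nlinarith

end Pool.Agent.Helper855DB
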