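import Pool.Agent.Helper855DB.Iso

/-! Upper and lower bounds of the nonlocal energy by the Dirichlet integral (helper855). -/

set_option autoImplicit false

open MeasureTheory Filter Topology Set
open scoped ENNReal NNReal RealInnerProductSpace

namespace Pool.Agent.Helper855DB

variable {n : ℕ}

/-- `v` is smooth, with compact support contained in `Ω` -/
structure Test (Ω : Set (Sp n)) (v : Sp n → ℝ) : Prop where
  smooth : ContDiff ℝ (⊤ : ℕ∞) v
  comp : HasCompactSupport v
  supp : tsupport v ⊆ Ω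

/-- the Dirichlet integral -/
noncomputable def En (v : Sp n → ℝ) : ℝ := ∫ x, ‖fderiv ℝ v x‖ ^ 2

/-- the square of the `L²` norm -/
noncomputable def Ma (v : Sp n → ℝ) : ℝ := ∫ x, v x ^ 2

variable {Ω : Set (Sp n)} {v w : Sp n → ℝ}

theorem Test.mono {Ω' : Set (Sp n)} (h : Test Ω v) (hΩ : Ω ⊆ Ω') : Test Ω' v :=
  ⟨h.smooth, h.comp, h.supp.trans hΩ⟩

theorem Test.diff (h : Test Ω v) : Differentiable ℝ v := h.smooth.differentiable (by simp)

theorem Test.cont (h : Test Ω v) : Continuous v := h.smooth.continuous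

theorem Test.fcont (h : Test Ω v) : Continuous (fderiv ℝ v) :=
  h.smooth.continuous_fderiv (by simp)

theorem Test.fcomp (h : Test Ω v) : HasCompactSupport (fderiv ℝ v) := h.comp.fderiv (𝕜 := ℝ)

theorem Test.csq (h : Test Ω v) : HasCompactSupport fun x => v x ^ 2 := by
  have h1 := h.comp.comp_left (g := fun t : ℝ => t ^ 2) (by norm_num)
  exact h1

theorem Test.cfsq (h : Test Ω v) : HasCompactSupport fun x => ‖fderiv ℝ v x‖ ^ 2 := by
  have h1 := h.fcomp.comp_left (g := fun L : Sp n →L[ℝ] ℝ => ‖L‖ ^ 2) (by simp)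
  exact h1

theorem Test.cdsq (h : Test Ω v) (z : Sp n) : HasCompactSupport fun x => (fderiv ℝ v x z) ^ 2 := by
  have h1 := h.fcomp.comp_left (g := fun L : Sp n →L[ℝ] ℝ => (L z) ^ 2) (by simp)
  exact h1

theorem Test.int_sq (h : Test Ω v) : Integrable fun x => v x ^ 2 :=
  (h.cont.pow 2).integrable_of_hasCompactSupport h.csq

theorem Test.int_fsq (h : Test Ω v) : Integrable fun x => ‖fderiv ℝ v x‖ ^ 2 :=
  (h.fcont.norm.pow 2).integrable_of_hasCompactSupport h.cfsq

theorem Test.int_dsq (h : Test Ω v) (z : Sp n) : Integrable fun x => (fderiv ℝ v x z) ^ 2 :=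
  ((h.fcont.clm_apply continuous_const).pow 2).integrable_of_hasCompactSupport (h.cdsq z)

theorem En_nonneg (v : Sp n → ℝ) : 0 ≤ En v := integral_nonneg fun _ => sq_nonneg _

theorem Ma_nonneg (v : Sp n → ℝ) : 0 ≤ Ma v := integral_nonneg fun _ => sq_nonneg _

theorem jensen {f : ℝ → ℝ} (hf : Continuous f) :
    (∫ s in (0:ℝ)..1, f s) ^ 2 ≤ ∫ s in (0:ℝ)..1, f s ^ 2 := by
  set m := ∫ s in (0:ℝ)..1, f s with hm
  have h0 : 0 ≤ ∫ s in (0:ℝ)..1, (f s - m) ^ 2 :=
    intervalIntegral.integral_nonneg zero_le_one fun s _ => sq_nonneg _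
  have e : ∀ s, (f s - m) ^ 2 = f s ^ 2 - 2 * m * f s + m ^ 2 := fun s => by ring
  simp_rw [e] at h0
  have j1 : IntervalIntegrable (fun s => f s ^ 2) volume 0 1 := (hf.pow 2).intervalIntegrable _ _
  have j2 : IntervalIntegrable (fun s => 2 * m * f s) volume 0 1 :=
    (continuous_const.mul hf).intervalIntegrable _ _
  have j3 : IntervalIntegrable (fun _ : ℝ => m ^ 2) volume 0 1 := continuous_const.intervalIntegrable _ _
  rw [intervalIntegral.integral_add (j1.sub j2) j3, intervalIntegral.integral_sub j1 j2,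
      intervalIntegral.integral_const_mul, intervalIntegral.integral_const] at h0
  simp only [sub_zero, smul_eq_mul, one_mul] at h0
  rw [← hm] at h0
  nlinarith

theorem shift_pt (h : Test Ω v) (x z : Sp n) :
    (v (x + z) - v x) ^ 2 ≤ ∫ s in (0:ℝ)..1, (fderiv ℝ v (x + s • z) z) ^ 2 := by
  have hd : ∀ s ∈ uIcc (0:ℝ) 1, HasDerivAt (fun s : ℝ => v (x + s • z)) (fderiv ℝ v (x + s • z) z) s := by
    intro s _
    have h1 : HasDerivAt (fun s : ℝ => x + s • z) z s := by
      have := ((hasDerivAt_id s).smul_const z).const_add x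
      simpa using this
    exact ((h.diff _).hasFDerivAt.comp_hasDerivAt s h1)
  have hcs : Continuous fun s : ℝ => fderiv ℝ v (x + s • z) z := by
    have : Continuous fun s : ℝ => fderiv ℝ v (x + s • z) := h.fcont.comp (by fun_prop)
    exact this.clm_apply continuous_const
  have h2 := intervalIntegral.integral_eq_sub_of_hasDerivAt hd (hcs.intervalIntegrable _ _)
  simp only [one_smul, zero_smul, add_zero] at h2
  rw [← h2]
  exact jensen hcs

theorem shift_lint (h : Test Ω v) (z : Sp n) :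
    ∫⁻ x, ENNReal.ofReal ((v (x + z) - v x) ^ 2) ≤ ∫⁻ x, ENNReal.ofReal ((fderiv ℝ v x z) ^ 2) := by
  have hc : Continuous fun p : Sp n × ℝ => fderiv ℝ v (p.1 + p.2 • z) z := by
    have : Continuous fun p : Sp n × ℝ => fderiv ℝ v (p.1 + p.2 • z) := h.fcont.comp (by fun_prop)
    exact this.clm_apply continuous_const
  have h1 : ∀ x, ENNReal.ofReal ((v (x + z) - v x) ^ 2) ≤
      ∫⁻ s in Ioc (0:ℝ) 1, ENNReal.ofReal ((fderiv ℝ v (x + s • z) z) ^ 2) := by
    intro x
    have h2 := shift_pt h x z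
    rw [intervalIntegral.integral_of_le zero_le_one] at h2
    refine (ENNReal.ofReal_le_ofReal h2).trans (le_of_eq ?_)
    have hcx : Continuous fun s : ℝ => (fderiv ℝ v (x + s • z) z) ^ 2 :=
      (hc.comp (Continuous.prodMk continuous_const continuous_id)).pow 2
    rw [ofReal_integral_eq_lintegral_ofReal]
    · exact (hcx.integrableOn_Icc).mono_set Ioc_subset_Icc_self
    · exact Eventually.of_forall fun _ => sq_nonneg _
  have hm : Measurable (fun p : Sp n × ℝ => ENNReal.ofReal ((fderiv ℝ v (p.1 + p.2 • z) z) ^ 2)) :=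
    ENNReal.measurable_ofReal.comp (hc.pow 2).measurable
  calc ∫⁻ x, ENNReal.ofReal ((v (x + z) - v x) ^ 2)
      ≤ ∫⁻ x, ∫⁻ s in Ioc (0:ℝ) 1, ENNReal.ofReal ((fderiv ℝ v (x + s • z) z) ^ 2) :=
        lintegral_mono h1
    _ = ∫⁻ s in Ioc (0:ℝ) 1, ∫⁻ x, ENNReal.ofReal ((fderiv ℝ v (x + s • z) z) ^ 2) :=
        lintegral_lintegral_swap hm.aemeasurable
    _ = ∫⁻ s in Ioc (0:ℝ) 1, ∫⁻ x, ENNReal.ofReal ((fderiv ℝ v x z) ^ 2) := by
        refine lintegral_congr fun s => ?_
        exact lintegral_add_right_eq_self (fun x => ENNReal.ofReal ((fderiv ℝ v x z) ^ 2)) (s • z)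
    _ = ∫⁻ x, ENNReal.ofReal ((fderiv ℝ v x z) ^ 2) := by
        rw [setLIntegral_const]; simp

/-- the nonlocal energy is at most the Dirichlet energy -/
theorem NE_le (hn : 1 ≤ n) (h : Test Ω v) (η : ℝ) : NE η v ≤ ENNReal.ofReal (kap n η * En v) := by
  have hc : Continuous fun p : Sp n × Sp n => fderiv ℝ v p.2 p.1 :=
    (h.fcont.comp continuous_snd).clm_apply continuous_fst
  have hm : Measurable (fun p : Sp n × Sp n => ENNReal.ofReal ((fderiv ℝ v p.2 p.1) ^ 2)) :=
    ENNReal.measurable_ofReal.comp (hc.pow 2).measurable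
  rw [NE_eq η h.cont.measurable]
  calc ∫⁻ z in Metric.ball (0 : Sp n) η, ∫⁻ x, ENNReal.ofReal ((v (x + z) - v x) ^ 2)
      ≤ ∫⁻ z in Metric.ball (0 : Sp n) η, ∫⁻ x, ENNReal.ofReal ((fderiv ℝ v x z) ^ 2) :=
        lintegral_mono fun z => shift_lint h z
    _ = ∫⁻ x, ∫⁻ z in Metric.ball (0 : Sp n) η, ENNReal.ofReal ((fderiv ℝ v x z) ^ 2) :=
        lintegral_lintegral_swap hm.aemeasurable
    _ = ∫⁻ x, ENNReal.ofReal (kap n η * ‖fderiv ℝ v x‖ ^ 2) :=
        lintegral_congr fun x => iso_lint hn η _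
    _ = ENNReal.ofReal (kap n η * En v) := by
        rw [En, ← integral_const_mul, ofReal_integral_eq_lintegral_ofReal]
        · exact h.int_fsq.const_mul _
        · refine Eventually.of_forall fun x => ?_
          have : 0 ≤ kap n η := by
            unfold kap
            exact div_nonneg (integral_nonneg fun _ => sq_nonneg _) (by positivity)
          positivity

/-- second order Taylor bound -/
theorem taylor (h : Test Ω v) : ∃ C : ℝ, 0 ≤ C ∧ ∀ x z : Sp n,
    |v (x + z) - v x - fderiv ℝ v x z| ≤ C * ‖z‖ ^ 2 := by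
  have hf1 : ContDiff ℝ 1 (fderiv ℝ v) := h.smooth.fderiv_right
    (WithTop.coe_le_coe.2 (le_top : (2:ℕ∞) ≤ ⊤))
  obtain ⟨C, hC⟩ := hf1.lipschitzWith_of_hasCompactSupport h.fcomp one_ne_zero
  refine ⟨C, C.2, fun x z => ?_⟩
  have hd : ∀ y ∈ Metric.closedBall x ‖z‖, HasFDerivWithinAt (fun y => v y - fderiv ℝ v x y)
      (fderiv ℝ v y - fderiv ℝ v x) (Metric.closedBall x ‖z‖) y := by
    intro y _
    exact ((h.diff y).hasFDerivAt.sub (fderiv ℝ v x).hasFDerivAt).hasFDerivWithinAt
  have hb : ∀ y ∈ Metric.closedBall x ‖z‖, ‖fderiv ℝ v y - fderiv ℝ v x‖ ≤ C * ‖z‖ := by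
    intro y hy
    rw [← dist_eq_norm]
    refine (hC.dist_le_mul y x).trans ?_
    exact mul_le_mul_of_nonneg_left (by simpa using hy) C.2
  have h1 := (convex_closedBall x ‖z‖).norm_image_sub_le_of_norm_hasFDerivWithin_le hd hb
    (Metric.mem_closedBall_self (norm_nonneg z)) (show x + z ∈ Metric.closedBall x ‖z‖ by simp)
  have e : v (x + z) - fderiv ℝ v x (x + z) - (v x - fderiv ℝ v x x) =
      v (x + z) - v x - fderiv ℝ v x z := by
    rw [map_add]; ring
  rw [e, add_sub_cancel_left, Real.norm_eq_abs] at h1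
  calc _ ≤ _ := h1
    _ = C * ‖z‖ ^ 2 := by ring

theorem En_lint (hn : 1 ≤ n) (h : Test Ω v) (η : ℝ) :
    ∫⁻ x, ∫⁻ z in Metric.ball (0 : Sp n) η, ENNReal.ofReal ((fderiv ℝ v x z) ^ 2) =
      ENNReal.ofReal (kap n η * En v) := by
  calc ∫⁻ x, ∫⁻ z in Metric.ball (0 : Sp n) η, ENNReal.ofReal ((fderiv ℝ v x z) ^ 2)
      = ∫⁻ x, ENNReal.ofReal (kap n η * ‖fderiv ℝ v x‖ ^ 2) :=
        lintegral_congr fun x => iso_lint hn η _
    _ = ENNReal.ofReal (kap n η * En v) := by
        rw [En, ← integral_const_mul, ofReal_integral_eq_lintegral_ofReal]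
        · exact h.int_fsq.const_mul _
        · refine Eventually.of_forall fun x => ?_
          have : 0 ≤ kap n η := by
            unfold kap
            exact div_nonneg (integral_nonneg fun _ => sq_nonneg _) (by positivity)
          positivity

theorem four_mom (η : ℝ) (hn : 1 ≤ n) :
    ∫⁻ z in Metric.ball (0 : Sp n) η, ENNReal.ofReal (‖z‖ ^ 4) ≤
      ENNReal.ofReal (η ^ 2 * (n * kap n η)) := by
  have e1 : n * kap n η = ∫ z in Metric.ball (0 : Sp n) η, ‖z‖ ^ 2 := by
    unfold kap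
    have : (n:ℝ) ≠ 0 := by positivity
    field_simp
  rw [e1, ← integral_const_mul, ofReal_integral_eq_lintegral_ofReal]
  · refine setLIntegral_mono' Metric.isOpen_ball.measurableSet fun z hz => ?_
    refine ENNReal.ofReal_le_ofReal ?_
    have h1 : ‖z‖ < η := by simpa using hz
    have h2 : ‖z‖ ^ 2 ≤ η ^ 2 := pow_le_pow_left₀ (norm_nonneg z) h1.le 2
    calc ‖z‖ ^ 4 = ‖z‖ ^ 2 * ‖z‖ ^ 2 := by ring
      _ ≤ η ^ 2 * ‖z‖ ^ 2 := mul_le_mul_of_nonneg_right h2 (sq_nonneg _)
  · exact (int_ball (by fun_prop) η).const_mul _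
  · exact Eventually.of_forall fun z => by positivity

/-- the Dirichlet energy is controlled by the nonlocal energies at small scales -/
theorem En_le_of_NE (hn : 1 ≤ n) (h : Test Ω v) {E η₀ : ℝ} (hE : 0 ≤ E) (hη₀ : 0 < η₀)
    (hNE : ∀ η, 0 < η → η < η₀ → NE η v ≤ ENNReal.ofReal (kap n η * E)) : En v ≤ E := by
  obtain ⟨C, hC0, hC⟩ := taylor h
  set S := tsupport v with hS
  have hSm : MeasurableSet S := (isClosed_tsupport v).measurableSet
  have hSf : volume S ≠ ∞ := h.comp.isCompact.measure_lt_top.ne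
  set s : ℝ := volume.real S with hs
  have hs0 : 0 ≤ s := measureReal_nonneg
  have hsS : volume S = ENNReal.ofReal s := by rw [hs, Measure.real, ENNReal.ofReal_toReal hSf]
  have key : ∀ t : ℝ, 0 < t → ∀ η : ℝ, 0 < η → η < η₀ →
      En v ≤ (1 + t) * E + (1 + 1 / t) * C ^ 2 * s * (η ^ 2 * n) := by
    intro t ht η hη hηη
    have hκ := kap_pos hn hη
    set κ := kap n η with hκd
    set D : ℝ := (1 + 1 / t) * C ^ 2 with hD
    have hD0 : 0 ≤ D := by positivity
    have pt : ∀ x z : Sp n, ENNReal.ofReal ((fderiv ℝ v x z) ^ 2) ≤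
        ENNReal.ofReal (1 + t) * ENNReal.ofReal ((v (x + z) - v x) ^ 2) +
          S.indicator (fun _ => ENNReal.ofReal D) x * ENNReal.ofReal (‖z‖ ^ 4) := by
      intro x z
      by_cases hx : x ∈ S
      · rw [indicator_of_mem hx, ← ENNReal.ofReal_mul (by positivity),
          ← ENNReal.ofReal_mul hD0, ← ENNReal.ofReal_add (by positivity) (by positivity)]
        refine ENNReal.ofReal_le_ofReal ?_
        have h1 := hC x z
        set a := v (x + z) - v x with ha
        set b := fderiv ℝ v x z with hb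
        have h2 : (a - b) ^ 2 ≤ (C * ‖z‖ ^ 2) ^ 2 := sq_le_sq' (by linarith [abs_le.1 h1]) (abs_le.1 h1).2
        have h3 : b ^ 2 ≤ (1 + t) * a ^ 2 + (1 + 1 / t) * (a - b) ^ 2 := by
          have h4 : 0 ≤ (t * a + (a - b)) ^ 2 / t := by positivity
          have h5 : (1 + t) * a ^ 2 + (1 + 1 / t) * (a - b) ^ 2 - b ^ 2 =
              (t * a + (a - b)) ^ 2 / t := by field_simp; ring
          linarith
        have h6 : (1 + 1 / t) * (a - b) ^ 2 ≤ (1 + 1 / t) * (C * ‖z‖ ^ 2) ^ 2 :=
          mul_le_mul_of_nonneg_left h2 (by positivity)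
        calc b ^ 2 ≤ _ := h3
          _ ≤ (1 + t) * a ^ 2 + (1 + 1 / t) * (C * ‖z‖ ^ 2) ^ 2 := by linarith
          _ = (1 + t) * a ^ 2 + D * ‖z‖ ^ 4 := by rw [hD]; ring
      · have h0 : fderiv ℝ v x = 0 := by
          have : x ∉ tsupport (fderiv ℝ v) := fun hx' => hx (tsupport_fderiv_subset ℝ hx')
          exact image_eq_zero_of_notMem_tsupport this
        rw [h0]; simp
    have m1 : Measurable (fun p : Sp n × Sp n => ENNReal.ofReal ((v (p.1 + p.2) - v p.1) ^ 2)) :=
      ENNReal.measurable_ofReal.comp (((h.cont.comp (continuous_fst.add continuous_snd)).sub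
        (h.cont.comp continuous_fst)).pow 2).measurable
    have mx : ∀ x : Sp n, Measurable (fun z => ENNReal.ofReal (1 + t) *
        ENNReal.ofReal ((v (x + z) - v x) ^ 2)) := by
      intro x
      have : Continuous fun z => (v (x + z) - v x) ^ 2 :=
        ((h.cont.comp (continuous_const.add continuous_id)).sub continuous_const).pow 2
      exact (ENNReal.measurable_ofReal.comp this.measurable).const_mul _
    have mz : Measurable (fun z : Sp n => ENNReal.ofReal (‖z‖ ^ 4)) :=
      ENNReal.measurable_ofReal.comp (by fun_prop)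
    have m2 : Measurable fun x : Sp n => ∫⁻ z in Metric.ball (0 : Sp n) η,
        ENNReal.ofReal ((v (x + z) - v x) ^ 2) :=
      Measurable.lintegral_prod_right' (f := fun p : Sp n × Sp n =>
        ENNReal.ofReal ((v (p.1 + p.2) - v p.1) ^ 2)) m1
    have big : ENNReal.ofReal (κ * En v) ≤ ENNReal.ofReal (1 + t) * NE η v +
        ENNReal.ofReal D * volume S * ENNReal.ofReal (η ^ 2 * (n * κ)) := by
      rw [hκd, ← En_lint hn h η]
      calc ∫⁻ x, ∫⁻ z in Metric.ball (0 : Sp n) η, ENNReal.ofReal ((fderiv ℝ v x z) ^ 2)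
          ≤ ∫⁻ x, ∫⁻ z in Metric.ball (0 : Sp n) η, (ENNReal.ofReal (1 + t) *
              ENNReal.ofReal ((v (x + z) - v x) ^ 2) +
              S.indicator (fun _ => ENNReal.ofReal D) x * ENNReal.ofReal (‖z‖ ^ 4)) :=
            lintegral_mono fun x => lintegral_mono fun z => pt x z
        _ = ∫⁻ x, (ENNReal.ofReal (1 + t) * (∫⁻ z in Metric.ball (0 : Sp n) η,
              ENNReal.ofReal ((v (x + z) - v x) ^ 2)) +
              S.indicator (fun _ => ENNReal.ofReal D) x *
                ∫⁻ z in Metric.ball (0 : Sp n) η, ENNReal.ofReal (‖z‖ ^ 4)) := by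
            refine lintegral_congr fun x => ?_
            rw [lintegral_add_left (mx x), lintegral_const_mul _ mz, lintegral_const_mul]
            have : Continuous fun z => (v (x + z) - v x) ^ 2 :=
              ((h.cont.comp (continuous_const.add continuous_id)).sub continuous_const).pow 2
            exact ENNReal.measurable_ofReal.comp this.measurable
        _ = ENNReal.ofReal (1 + t) * (∫⁻ x, ∫⁻ z in Metric.ball (0 : Sp n) η,
              ENNReal.ofReal ((v (x + z) - v x) ^ 2)) +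
              (∫⁻ x, S.indicator (fun _ => ENNReal.ofReal D) x) *
                ∫⁻ z in Metric.ball (0 : Sp n) η, ENNReal.ofReal (‖z‖ ^ 4) := by
            have m3 : Measurable (fun x : Sp n => ENNReal.ofReal (1 + t) *
              (∫⁻ z in Metric.ball (0 : Sp n) η, ENNReal.ofReal ((v (x + z) - v x) ^ 2))) :=
              m2.const_mul _
            rw [lintegral_add_left m3, lintegral_const_mul _ m2, lintegral_mul_const]
            exact measurable_const.indicator hSm
        _ ≤ _ := by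
            refine add_le_add ?_ ?_
            · rw [NE_eq η h.cont.measurable]
              refine le_of_eq ?_
              congr 1
              exact lintegral_lintegral_swap m1.aemeasurable
            · rw [lintegral_indicator hSm, setLIntegral_const]
              exact mul_le_mul' le_rfl (four_mom η hn)
    have h7 : ENNReal.ofReal (κ * En v) ≤ ENNReal.ofReal ((1 + t) * (κ * E) +
        D * s * (η ^ 2 * (n * κ))) := by
      refine big.trans ?_
      have h8 := hNE η hη hηη
      have e1 : ENNReal.ofReal ((1 + t) * (κ * E) + D * s * (η ^ 2 * (n * κ))) =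
          ENNReal.ofReal (1 + t) * ENNReal.ofReal (κ * E) +
          ENNReal.ofReal D * ENNReal.ofReal s * ENNReal.ofReal (η ^ 2 * (n * κ)) := by
        rw [← ENNReal.ofReal_mul hD0, ← ENNReal.ofReal_mul (by positivity),
          ← ENNReal.ofReal_mul (by positivity), ← ENNReal.ofReal_add (by positivity) (by positivity)]
      rw [hsS, e1]
      exact add_le_add (mul_le_mul' le_rfl h8) le_rfl
    have h9 : κ * En v ≤ (1 + t) * (κ * E) + D * s * (η ^ 2 * (n * κ)) :=
      (ENNReal.ofReal_le_ofReal_iff (by positivity)).1 h7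
    have h10 : κ * En v ≤ κ * ((1 + t) * E + D * s * (η ^ 2 * n)) := by linarith
    exact le_of_mul_le_mul_left h10 hκ
  have key2 : ∀ t : ℝ, 0 < t → En v ≤ (1 + t) * E := by
    intro t ht
    have hlim : Tendsto (fun η : ℝ => (1 + t) * E + (1 + 1 / t) * C ^ 2 * s * (η ^ 2 * n))
        (𝓝[>] 0) (𝓝 ((1 + t) * E + (1 + 1 / t) * C ^ 2 * s * (0 ^ 2 * n))) := by
      refine Tendsto.mono_left ?_ nhdsWithin_le_nhds
      exact Continuous.tendsto (by fun_prop) 0
    have h0 : (1 + t) * E + (1 + 1 / t) * C ^ 2 * s * ((0:ℝ) ^ 2 * n) = (1 + t) * E := by ring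
    rw [h0] at hlim
    refine ge_of_tendsto hlim ?_
    filter_upwards [Ioo_mem_nhdsGT hη₀] with η hη
    exact key t ht η hη.1 hη.2
  have hlim : Tendsto (fun t : ℝ => (1 + t) * E) (𝓝[>] 0) (𝓝 ((1 + 0) * E)) := by
    refine Tendsto.mono_left ?_ nhdsWithin_le_nhds
    exact Continuous.tendsto (by fun_prop) 0
  rw [add_zero, one_mul] at hlim
  refine ge_of_tendsto hlim ?_
  filter_upwards [self_mem_nhdsWithin] with t ht
  exact key2 t ht

end Pool.Agent.Helper855DB
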