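import Pool.Agent.Helper855DB.Comp

/-! Isotropy of the second moments of a ball; upper and lower bounds of the nonlocal energy by the
Dirichlet integral (helper855). -/

set_option autoImplicit false

open MeasureTheory Filter Topology Set
open scoped ENNReal NNReal RealInnerProductSpace

namespace Pool.Agent.Helper855DB

variable {n : ℕ}

/-- normalised second moment of the ball -/
noncomputable def kap (n : ℕ) (η : ℝ) : ℝ := (∫ z in Metric.ball (0 : Sp n) η, ‖z‖ ^ 2) / n

theorem int_ball {f : Sp n → ℝ} (hf : Continuous f) (η : ℝ) :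
    IntegrableOn f (Metric.ball (0 : Sp n) η) volume :=
  (hf.continuousOn.integrableOn_compact (isCompact_closedBall (0 : Sp n) η)).mono_set
    Metric.ball_subset_closedBall

theorem ball_isom (σ : Sp n ≃ₗᵢ[ℝ] Sp n) {f : Sp n → ℝ} (η : ℝ) :
    ∫ z in Metric.ball (0 : Sp n) η, f (σ z) = ∫ z in Metric.ball (0 : Sp n) η, f z := by
  have h := σ.measurePreserving.setIntegral_preimage_emb σ.toHomeomorph.measurableEmbedding f
    (Metric.ball (0 : Sp n) η)
  have e : σ ⁻¹' Metric.ball (0 : Sp n) η = Metric.ball (0 : Sp n) η := by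
    ext z; simp
  rw [← h, e]

theorem iso_unit (η : ℝ) {a b : Sp n} (ha : ‖a‖ = 1) (hb : ‖b‖ = 1) :
    ∫ z in Metric.ball (0 : Sp n) η, ⟪a, z⟫ ^ 2 = ∫ z in Metric.ball (0 : Sp n) η, ⟪b, z⟫ ^ 2 := by
  have h1 : (ℝ ∙ (a - b))ᗮ.reflection a = b := Submodule.reflection_sub (by rw [ha, hb])
  rw [← ball_isom ((ℝ ∙ (a - b))ᗮ.reflection) (f := fun z => ⟪b, z⟫ ^ 2) η]
  refine setIntegral_congr_fun Metric.isOpen_ball.measurableSet fun z _ => ?_
  have h2 := LinearIsometryEquiv.inner_map_map ((ℝ ∙ (a - b))ᗮ.reflection) a z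
  rw [h1] at h2
  rw [h2]

theorem iso_unit_eq (hn : 1 ≤ n) (η : ℝ) {a : Sp n} (ha : ‖a‖ = 1) :
    ∫ z in Metric.ball (0 : Sp n) η, ⟪a, z⟫ ^ 2 = kap n η := by
  have hs : ∫ z in Metric.ball (0 : Sp n) η, ‖z‖ ^ 2 =
      ∑ i : Fin n, ∫ z in Metric.ball (0 : Sp n) η, ⟪EuclideanSpace.single i (1:ℝ), z⟫ ^ 2 := by
    rw [← integral_finsetSum _ fun i _ => int_ball (by fun_prop) η]
    refine setIntegral_congr_fun Metric.isOpen_ball.measurableSet fun z _ => ?_
    rw [EuclideanSpace.norm_sq_eq]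
    refine Finset.sum_congr rfl fun i _ => ?_
    rw [EuclideanSpace.inner_single_left]
    simp
  have h2 : ∀ i : Fin n, ∫ z in Metric.ball (0 : Sp n) η, ⟪EuclideanSpace.single i (1:ℝ), z⟫ ^ 2 =
      ∫ z in Metric.ball (0 : Sp n) η, ⟪a, z⟫ ^ 2 := fun i => iso_unit η (by simp) ha
  unfold kap
  rw [hs, Finset.sum_congr rfl fun i _ => h2 i]
  simp only [Finset.sum_const, Finset.card_univ, Fintype.card_fin, nsmul_eq_mul]
  have : (n:ℝ) ≠ 0 := by positivity
  field_simp

theorem iso_inner (hn : 1 ≤ n) (η : ℝ) (a : Sp n) :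
    ∫ z in Metric.ball (0 : Sp n) η, ⟪a, z⟫ ^ 2 = kap n η * ‖a‖ ^ 2 := by
  by_cases ha : a = 0
  · rw [ha]; simp
  · have ha0 : 0 < ‖a‖ := norm_pos_iff.2 ha
    have h1 : ‖(1 / ‖a‖) • a‖ = 1 := by
      rw [norm_smul, Real.norm_eq_abs, abs_of_pos (by positivity)]; field_simp
    have h2 := iso_unit_eq hn η h1
    have e : ∀ z : Sp n, ⟪(1 / ‖a‖) • a, z⟫ ^ 2 = (1 / ‖a‖) ^ 2 * ⟪a, z⟫ ^ 2 := by
      intro z
      rw [real_inner_smul_left, mul_pow]
    simp_rw [e] at h2
    rw [integral_const_mul] at h2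
    rw [← h2]
    field_simp

theorem exists_riesz (L : Sp n →L[ℝ] ℝ) : ∃ a : Sp n, ‖a‖ = ‖L‖ ∧ ∀ z, L z = ⟪a, z⟫ := by
  refine ⟨(InnerProductSpace.toDual ℝ (Sp n)).symm L, by simp, fun z => ?_⟩
  simp

theorem iso (hn : 1 ≤ n) (η : ℝ) (L : Sp n →L[ℝ] ℝ) :
    ∫ z in Metric.ball (0 : Sp n) η, (L z) ^ 2 = kap n η * ‖L‖ ^ 2 := by
  obtain ⟨a, ha, haL⟩ := exists_riesz L
  simp_rw [haL]
  rw [iso_inner hn, ha]

theorem kap_pos (hn : 1 ≤ n) {η : ℝ} (hη : 0 < η) : 0 < kap n η := by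
  unfold kap
  refine div_pos ?_ (by positivity)
  have hfi : IntegrableOn (fun z : Sp n => ‖z‖ ^ 2) (Metric.ball 0 η) := int_ball (by fun_prop) η
  rw [setIntegral_pos_iff_support_of_nonneg_ae (Eventually.of_forall fun z => sq_nonneg _) hfi]
  have h1 : Metric.ball (0 : Sp n) η \ {0} ⊆
      Function.support (fun z : Sp n => ‖z‖ ^ 2) ∩ Metric.ball 0 η := by
    rintro z ⟨hz, hz0⟩
    refine ⟨?_, hz⟩
    simp only [Function.mem_support]
    have : 0 < ‖z‖ := norm_pos_iff.2 hz0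
    positivity
  refine lt_of_lt_of_le ?_ (measure_mono h1)
  have : Nonempty (Fin n) := ⟨⟨0, by omega⟩⟩
  have : Nontrivial (Sp n) := inferInstance
  rw [measure_sdiff_null (measure_singleton _)]
  exact Metric.measure_ball_pos volume _ hη

theorem iso_lint (hn : 1 ≤ n) (η : ℝ) (L : Sp n →L[ℝ] ℝ) :
    ∫⁻ z in Metric.ball (0 : Sp n) η, ENNReal.ofReal ((L z) ^ 2) =
      ENNReal.ofReal (kap n η * ‖L‖ ^ 2) := by
  rw [← iso hn, ofReal_integral_eq_lintegral_ofReal]
  · exact int_ball (by fun_prop) η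
  · exact Eventually.of_forall fun z => sq_nonneg _

/-- another form of the nonlocal energy -/
theorem NE_eq (η : ℝ) {w : Sp n → ℝ} (hw : Measurable w) :
    NE η w = ∫⁻ z in Metric.ball (0 : Sp n) η, ∫⁻ x, ENNReal.ofReal ((w (x + z) - w x) ^ 2) := by
  have h1 : ∀ x, ∫⁻ y, TT η w x y = ∫⁻ z, TT η w x (x + z) := fun x =>
    (lintegral_add_left_eq_self (fun y => TT η w x y) x).symm
  have h2 : ∀ x z : Sp n, TT η w x (x + z) =
      (Metric.ball (0 : Sp n) η).indicator (fun z => ENNReal.ofReal ((w (x + z) - w x) ^ 2)) z := by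
    intro x z
    unfold TT kr
    have e : dist x (x + z) = ‖z‖ := by rw [dist_eq_norm]; simp
    rw [e]
    by_cases h : ‖z‖ < η
    · rw [if_pos h, indicator_of_mem (by simpa using h), one_mul]
      congr 1; ring
    · rw [if_neg h, indicator_of_notMem (by simpa using h), zero_mul]; simp
  have hm : Measurable (fun p : Sp n × Sp n => (Metric.ball (0 : Sp n) η).indicator
      (fun z => ENNReal.ofReal ((w (p.1 + z) - w p.1) ^ 2)) p.2) := by
    have h3 : Measurable (fun p : Sp n × Sp n => ENNReal.ofReal ((w (p.1 + p.2) - w p.1) ^ 2)) := by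
      refine ENNReal.measurable_ofReal.comp ?_
      exact ((hw.comp (measurable_fst.add measurable_snd)).sub (hw.comp measurable_fst)).pow_const 2
    have h4 : MeasurableSet (Prod.snd ⁻¹' Metric.ball (0 : Sp n) η : Set (Sp n × Sp n)) :=
      measurable_snd Metric.isOpen_ball.measurableSet
    have h5 := h3.indicator h4
    convert h5 using 1
    funext p
    by_cases h : p.2 ∈ Metric.ball (0 : Sp n) η
    · rw [indicator_of_mem h, indicator_of_mem (by exact h)]
    · rw [indicator_of_notMem h, indicator_of_notMem (by exact h)]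
  unfold NE
  simp_rw [h1, h2]
  rw [lintegral_lintegral_swap hm.aemeasurable]
  rw [← lintegral_indicator Metric.isOpen_ball.measurableSet]
  refine lintegral_congr fun z => ?_
  by_cases h : z ∈ Metric.ball (0 : Sp n) η
  · rw [indicator_of_mem h]
    refine lintegral_congr fun x => ?_
    rw [indicator_of_mem h]
  · rw [indicator_of_notMem h]
    simp only [indicator_of_notMem h]
    simp

end Pool.Agent.Helper855DB
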