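import Pool.Agent.Helper855DB.FK

/-! Min-max values and the Faber-Krahn inequality with volumes (helper855). -/

set_option autoImplicit false

open MeasureTheory Filter Topology Set
open scoped ENNReal NNReal RealInnerProductSpace

namespace Pool.Agent.Helper855DB

variable {n : ℕ} {Ω : Set (Sp n)} {u : Sp n → ℝ}

/-- admissible levels in the min-max formula -/
def Adm (k : ℕ) (Ω : Set (Sp n)) : Set ℝ :=
  {c : ℝ | ∃ V : Submodule ℝ (Sp n → ℝ), Module.finrank ℝ V = k ∧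
    ∀ v ∈ V, ContDiff ℝ (⊤ : ℕ∞) v ∧ HasCompactSupport v ∧ tsupport v ⊆ Ω ∧
      ∫ x, ‖fderiv ℝ v x‖ ^ 2 ≤ c * ∫ x, v x ^ 2}

/-- the min-max value -/
noncomputable def lam (k : ℕ) (Ω : Set (Sp n)) : ℝ := sInf (Adm k Ω)

theorem Test.smul (h : Test Ω u) (c : ℝ) : Test Ω (c • u) := by
  refine ⟨contDiff_const.smul h.smooth, ?_, ?_⟩
  · exact h.comp.smul_left (f := fun _ => c)
  · exact (closure_mono (Function.support_const_smul_subset c u)).trans h.supp

theorem Ma_smul (c : ℝ) (u : Sp n → ℝ) : Ma (c • u) = c ^ 2 * Ma u := by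
  unfold Ma
  rw [← integral_const_mul]
  refine integral_congr_ae (Eventually.of_forall fun x => ?_)
  simp only [Pi.smul_apply, smul_eq_mul]; ring

theorem En_smul (h : Test Ω u) (c : ℝ) : En (c • u) = c ^ 2 * En u := by
  unfold En
  rw [← integral_const_mul]
  refine integral_congr_ae (Eventually.of_forall fun x => ?_)
  simp only
  rw [fderiv_const_smul (h.diff x), norm_smul, mul_pow, Real.norm_eq_abs, sq_abs]

theorem eq_zero_of_Ma (h : Test Ω u) (h0 : Ma u = 0) : u = 0 := by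
  have h1 : (fun x => u x ^ 2) =ᵐ[volume] 0 :=
    (integral_eq_zero_iff_of_nonneg (fun x => sq_nonneg _) h.int_sq).1 h0
  have h2 : (fun x => u x ^ 2) = fun _ => 0 :=
    ((h.cont.pow 2).ae_eq_iff_eq volume continuous_const).1 h1
  ext x
  have h3 := congrFun h2 x
  simpa using h3

/-- the lowest level -/
theorem mem_adm_one (h : Test Ω u) (h0 : 0 < Ma u) : En u / Ma u ∈ Adm 1 Ω := by
  have hne : u ≠ 0 := by
    intro h1
    rw [h1] at h0
    unfold Ma at h0
    simp at h0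
  refine ⟨Submodule.span ℝ {u}, finrank_span_singleton hne, ?_⟩
  intro v hv
  rw [Submodule.mem_span_singleton] at hv
  obtain ⟨c, rfl⟩ := hv
  have hs := h.smul c
  refine ⟨hs.smooth, hs.comp, hs.supp, ?_⟩
  have e1 := En_smul h c
  have e2 := Ma_smul c u
  unfold En at e1
  unfold Ma at e2
  rw [e1, e2]
  have : (∫ x, ‖fderiv ℝ u x‖ ^ 2) = En u := rfl
  rw [this]
  have h3 : (∫ x, u x ^ 2) = Ma u := rfl
  rw [h3]
  apply le_of_eq
  field_simp

theorem adm_test {k : ℕ} {V : Submodule ℝ (Sp n → ℝ)} {c : ℝ}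
    (hV : ∀ v ∈ V, ContDiff ℝ (⊤ : ℕ∞) v ∧ HasCompactSupport v ∧ tsupport v ⊆ Ω ∧
      ∫ x, ‖fderiv ℝ v x‖ ^ 2 ≤ c * ∫ x, v x ^ 2) {v : Sp n → ℝ} (hv : v ∈ V) :
    Test Ω v ∧ En v ≤ c * Ma v := by
  obtain ⟨h1, h2, h3, h4⟩ := hV v hv
  exact ⟨⟨h1, h2, h3⟩, h4⟩

/-- every admissible level dominates any lower bound of the Rayleigh quotient -/
theorem le_of_adm {k : ℕ} (hk : 1 ≤ k) {c L : ℝ} (hc : c ∈ Adm k Ω)
    (hL : ∀ u, Test Ω u → L * Ma u ≤ En u) : L ≤ c := by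
  obtain ⟨V, hV1, hV2⟩ := hc
  have hne : V ≠ ⊥ := by
    intro h0
    rw [h0] at hV1
    simp at hV1
    omega
  obtain ⟨v, hv, hv0⟩ := Submodule.exists_mem_ne_zero_of_ne_bot hne
  obtain ⟨hT, hE⟩ := adm_test (k := k) hV2 hv
  have h1 : 0 < Ma v := by
    refine lt_of_le_of_ne (Ma_nonneg v) fun h2 => hv0 (eq_zero_of_Ma hT h2.symm)
  have h2 := (hL v hT).trans hE
  exact le_of_mul_le_mul_right h2 h1

theorem adm_nonneg {k : ℕ} (hk : 1 ≤ k) {c : ℝ} (hc : c ∈ Adm k Ω) : 0 ≤ c :=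
  le_of_adm hk hc fun u _ => by rw [zero_mul]; exact En_nonneg u

theorem adm_bdd {k : ℕ} (hk : 1 ≤ k) : BddBelow (Adm k Ω) := ⟨0, fun _ hc => adm_nonneg hk hc⟩

theorem lam_nonneg {k : ℕ} (hk : 1 ≤ k) : 0 ≤ lam k Ω :=
  Real.sInf_nonneg fun _ hc => adm_nonneg hk hc

/-- the Rayleigh inequality for the lowest level -/
theorem lam_one_le (h : Test Ω u) : lam 1 Ω * Ma u ≤ En u := by
  rcases (Ma_nonneg u).eq_or_lt with h0 | h0
  · rw [← h0, mul_zero]; exact En_nonneg u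
  · rw [← le_div_iff₀ h0]
    exact csInf_le (adm_bdd le_rfl) (mem_adm_one h h0)

/-- existence of test functions -/
theorem exists_test (hΩ : IsOpen Ω) (hne : Ω.Nonempty) :
    ∃ u : Sp n → ℝ, Test Ω u ∧ (∀ x, 0 ≤ u x) ∧ 0 < Ma u := by
  obtain ⟨x, hx⟩ := hne
  obtain ⟨ρ, hρ, hsub⟩ := Metric.isOpen_iff.1 hΩ x hx
  have hb : (bm (ρ / 2) : Sp n → ℝ) 0 = 1 := by
    unfold bm; simp
  have hρ2 : 0 < ρ / 2 := by linarith
  have hs : Function.support (fun y => bm (ρ / 2) (y - x)) ⊆ Metric.closedBall x (ρ / 2) := by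
    intro y hy
    rw [Function.mem_support] at hy
    rw [Metric.mem_closedBall, dist_eq_norm]
    by_contra hcon
    push Not at hcon
    exact hy (bm_zero hρ2 hcon.le)
  have hT : Test Ω (fun y => bm (ρ / 2) (y - x)) := by
    refine ⟨(bm_smooth _).comp (contDiff_id.sub contDiff_const), ?_, ?_⟩
    · exact HasCompactSupport.of_support_subset_isCompact (isCompact_closedBall x (ρ / 2)) hs
    · refine (closure_minimal hs Metric.isClosed_closedBall).trans ?_
      exact (Metric.closedBall_subset_ball (by linarith)).trans hsub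
  refine ⟨_, hT, fun y => bm_nonneg _ _, ?_⟩
  refine lt_of_le_of_ne (Ma_nonneg _) fun h0 => ?_
  have h1 := congrFun (eq_zero_of_Ma hT h0.symm) x
  simp only [sub_self, hb, Pi.zero_apply] at h1
  norm_num at h1

theorem adm_one_nonempty (hΩ : IsOpen Ω) (hne : Ω.Nonempty) : (Adm 1 Ω).Nonempty := by
  obtain ⟨u, h, -, h0⟩ := exists_test hΩ hne
  exact ⟨_, mem_adm_one h h0⟩

/-- near minimisers of the lowest level -/
theorem exists_near (hΩ : IsOpen Ω) (hne : Ω.Nonempty) {ε : ℝ} (hε : 0 < ε) :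
    ∃ u : Sp n → ℝ, Test Ω u ∧ 0 < Ma u ∧ En u < (lam 1 Ω + ε) * Ma u := by
  obtain ⟨c, hc, hlt⟩ := exists_lt_of_csInf_lt (adm_one_nonempty hΩ hne)
    (show sInf (Adm 1 Ω) < lam 1 Ω + ε by unfold lam; linarith)
  obtain ⟨V, hV1, hV2⟩ := hc
  have hne : V ≠ ⊥ := by
    intro h0
    rw [h0] at hV1
    simp at hV1
  obtain ⟨v, hv, hv0⟩ := Submodule.exists_mem_ne_zero_of_ne_bot hne
  obtain ⟨hT, hE⟩ := adm_test (k := 1) hV2 hv
  have h1 : 0 < Ma v := by
    refine lt_of_le_of_ne (Ma_nonneg v) fun h2 => hv0 (eq_zero_of_Ma hT h2.symm)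
  exact ⟨v, hT, h1, hE.trans_lt (mul_lt_mul_of_pos_right hlt h1)⟩

/-- smoothing of the absolute value -/
theorem exists_nonneg (h : Test Ω u) {ε : ℝ} (hε : 0 < ε) :
    ∃ w : Sp n → ℝ, Test Ω w ∧ (∀ x, 0 ≤ w x) ∧ (∀ x, u x = 0 → w x = 0) ∧ En w ≤ En u ∧
      Ma u - ε ≤ Ma w := by
  have habs : Integrable fun x => |u x| := h.cont.abs.integrable_of_hasCompactSupport h.comp.abs
  set I : ℝ := ∫ x, |u x| with hI
  have hI0 : 0 ≤ I := integral_nonneg fun x => abs_nonneg _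
  set d : ℝ := ε / (2 * (I + 1)) with hd
  have hd0 : 0 < d := by positivity
  set w : Sp n → ℝ := fun x => Real.sqrt (u x ^ 2 + d ^ 2) - d with hw
  have hz : ∀ x, u x = 0 → w x = 0 := by
    intro x hx
    simp only [hw]
    rw [hx, zero_pow two_ne_zero, zero_add, Real.sqrt_sq hd0.le, sub_self]
  have hpos : ∀ x, 0 < u x ^ 2 + d ^ 2 := fun x => by positivity
  have hs : Function.support w ⊆ Function.support u := by
    intro x hx
    rw [Function.mem_support] at hx ⊢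
    exact fun h0 => hx (hz x h0)
  have hsm : ContDiff ℝ (⊤ : ℕ∞) w := by
    have h1 : ContDiff ℝ (⊤ : ℕ∞) fun x => u x ^ 2 + d ^ 2 := (h.smooth.pow 2).add contDiff_const
    exact (h1.sqrt fun x => (hpos x).ne').sub contDiff_const
  have hT : Test Ω w := by
    refine ⟨hsm, ?_, (closure_mono hs).trans h.supp⟩
    exact HasCompactSupport.of_support_subset_isCompact h.comp.isCompact
      (hs.trans (subset_tsupport u))
  have hge : ∀ x, |u x| - d ≤ w x := by
    intro x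
    simp only [hw]
    have : |u x| ≤ Real.sqrt (u x ^ 2 + d ^ 2) := by
      rw [← Real.sqrt_sq_eq_abs]
      exact Real.sqrt_le_sqrt (by nlinarith)
    linarith
  have h0 : ∀ x, 0 ≤ w x := by
    intro x
    simp only [hw]
    have : d ≤ Real.sqrt (u x ^ 2 + d ^ 2) := by
      conv_lhs => rw [← Real.sqrt_sq hd0.le]
      exact Real.sqrt_le_sqrt (by nlinarith [sq_nonneg (u x)])
    linarith
  refine ⟨w, hT, h0, hz, ?_, ?_⟩
  · unfold En
    refine integral_mono hT.int_fsq h.int_fsq fun x => ?_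
    simp only
    have h1 : HasFDerivAt u (fderiv ℝ u x) x := (h.diff x).hasFDerivAt
    have h2 : HasFDerivAt w ((1 / (2 * Real.sqrt (u x ^ 2 + d ^ 2))) •
        (((2:ℕ) • u x ^ (2-1)) • fderiv ℝ u x)) x := by
      have h3 := ((h1.pow 2).add_const (d ^ 2)).sqrt (hpos x).ne'
      exact h3.sub_const d
    rw [h2.fderiv, smul_smul, norm_smul]
    have h4 : 0 < Real.sqrt (u x ^ 2 + d ^ 2) := Real.sqrt_pos.2 (hpos x)
    have h5 : ‖1 / (2 * Real.sqrt (u x ^ 2 + d ^ 2)) * (2:ℕ) • u x ^ (2-1)‖ ≤ 1 := by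
      have e : 1 / (2 * Real.sqrt (u x ^ 2 + d ^ 2)) * (2:ℕ) • u x ^ (2-1) =
          u x / Real.sqrt (u x ^ 2 + d ^ 2) := by
        norm_num
        field_simp
      rw [e, norm_div, Real.norm_eq_abs, Real.norm_eq_abs, abs_of_pos h4, div_le_one h4]
      have := hge x
      rw [← Real.sqrt_sq_eq_abs]
      exact Real.sqrt_le_sqrt (by nlinarith)
    have h6 : ‖1 / (2 * Real.sqrt (u x ^ 2 + d ^ 2)) * (2:ℕ) • u x ^ (2-1)‖ * ‖fderiv ℝ u x‖ ≤
        ‖fderiv ℝ u x‖ := by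
      have := mul_le_mul_of_nonneg_right h5 (norm_nonneg (fderiv ℝ u x))
      linarith
    exact pow_le_pow_left₀ (by positivity) h6 2
  · have pt : ∀ y, u y ^ 2 - 2 * d * |u y| ≤ w y ^ 2 := by
      intro y
      have h1 := hge y
      have h2 := h0 y
      have h3 := abs_nonneg (u y)
      rw [← sq_abs (u y)]
      rcases le_or_gt d |u y| with h4 | h4
      · nlinarith [mul_nonneg hd0.le hd0.le]
      · nlinarith [sq_nonneg (w y)]
    have h5 : ∫ y, (u y ^ 2 - 2 * d * |u y|) ≤ Ma w :=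
      integral_mono (h.int_sq.sub (habs.const_mul _)) hT.int_sq pt
    rw [integral_sub h.int_sq (habs.const_mul _), integral_const_mul] at h5
    have h6 : 2 * d * I ≤ ε := by
      rw [hd]
      have : 2 * (ε / (2 * (I + 1))) * I = ε * (I / (I + 1)) := by field_simp
      rw [this]
      have h7 : I / (I + 1) ≤ 1 := by rw [div_le_one (by linarith)]; linarith
      nlinarith
    have h8 : ∫ y, u y ^ 2 = Ma u := rfl
    rw [h8] at h5
    linarith

/-- scaling of test functions -/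
theorem Test.scale {r s : ℝ} (hr : 0 < r) (hs : 0 < s) (h : Test (Metric.ball 0 s) u) :
    Test (Metric.ball (0 : Sp n) r) (fun x => u ((s / r) • x)) ∧
    Ma (fun x => u ((s / r) • x)) = ((s / r) ^ n)⁻¹ * Ma u ∧
    En (fun x => u ((s / r) • x)) = (s / r) ^ 2 * (((s / r) ^ n)⁻¹ * En u) := by
  have hc : 0 < s / r := by positivity
  have hfr : Module.finrank ℝ (Sp n) = n := by simp
  have hlin : ContDiff ℝ (⊤ : ℕ∞) fun x : Sp n => (s / r) • x := contDiff_const_smul _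
  let e : Sp n ≃ₜ Sp n := Homeomorph.smulOfNeZero (s / r) hc.ne'
  have hk : HasCompactSupport (fun x => u ((s / r) • x)) := h.comp.comp_homeomorph e
  have hsup : tsupport (fun x => u ((s / r) • x)) ⊆ Metric.ball (0 : Sp n) r := by
    have h1 : tsupport (fun x => u ((s / r) • x)) ⊆ e ⁻¹' (tsupport u) := by
      refine closure_minimal ?_ ((isClosed_tsupport u).preimage e.continuous)
      intro x hx
      exact subset_tsupport u hx
    intro x hx
    have h2 := h.supp (h1 hx)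
    have h3 : ‖(s / r) • x‖ < s := by simpa [e] using h2
    rw [norm_smul, Real.norm_eq_abs, abs_of_pos hc] at h3
    rw [Metric.mem_ball, dist_zero_right]
    have h4 : s / r * ‖x‖ < s / r * r := by
      have : s / r * r = s := by field_simp
      rw [this]; exact h3
    exact lt_of_mul_lt_mul_left h4 hc.le
  refine ⟨⟨h.smooth.comp hlin, hk, hsup⟩, ?_, ?_⟩
  · unfold Ma
    have h1 := Measure.integral_comp_smul_of_nonneg (volume : Measure (Sp n))
      (fun y => u y ^ 2) (s / r) (hR := hc.le)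
    rw [hfr, smul_eq_mul] at h1
    exact h1
  · unfold En
    have h1 := Measure.integral_comp_smul_of_nonneg (volume : Measure (Sp n))
      (fun y => ‖fderiv ℝ u y‖ ^ 2) (s / r) (hR := hc.le)
    rw [hfr, smul_eq_mul] at h1
    rw [← h1, ← integral_const_mul]
    refine integral_congr_ae (Eventually.of_forall fun x => ?_)
    simp only
    have h2 : HasFDerivAt (fun x => u ((s / r) • x)) ((s / r) • fderiv ℝ u ((s / r) • x)) x := by
      have h3 : HasFDerivAt (fun x : Sp n => (s / r) • x)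
          ((s / r) • ContinuousLinearMap.id ℝ (Sp n)) x := (hasFDerivAt_id x).const_smul (s / r)
      have h4 := (h.diff ((s / r) • x)).hasFDerivAt.comp x h3
      rw [ContinuousLinearMap.comp_smul, ContinuousLinearMap.comp_id] at h4
      exact h4
    rw [h2.fderiv, norm_smul, mul_pow, Real.norm_eq_abs, sq_abs]

/-- Faber-Krahn inequality with volumes -/
theorem fk_vol (hn : 1 ≤ n) {r : ℝ} (hr : 0 < r) (h : Test univ u) (h0 : ∀ x, 0 ≤ u x)
    {t : ℝ} (ht : 0 < t)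
    (hv : volume {x | u x ≠ 0} ≤ ENNReal.ofReal t * volume (Metric.ball (0 : Sp n) r)) :
    lam 1 (Metric.ball (0 : Sp n) r) * t ^ (-(2 / (n:ℝ))) * Ma u ≤ En u := by
  have hn0 : (0:ℝ) < n := by exact_mod_cast hn
  set s : ℝ := r * t ^ (1 / (n:ℝ)) with hs
  have hs0 : 0 < s := by positivity
  have hsn : s ^ n = r ^ n * t := by
    rw [hs, mul_pow, ← Real.rpow_natCast (t ^ (1 / (n:ℝ))) n, ← Real.rpow_mul ht.le,
      one_div, inv_mul_cancel₀ hn0.ne', Real.rpow_one]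
  have hfr : Module.finrank ℝ (Sp n) = n := by simp
  have hvs : volume {x | u x ≠ 0} ≤ volume (Metric.ball (0 : Sp n) s) := by
    refine hv.trans (le_of_eq ?_)
    rw [Measure.addHaar_ball_of_pos _ _ hr, Measure.addHaar_ball_of_pos _ _ hs0, hfr, hsn,
      ← mul_assoc, ← ENNReal.ofReal_mul ht.le, mul_comm t]
  set L := lam 1 (Metric.ball (0 : Sp n) r) with hL
  have hL0 : 0 ≤ L := lam_nonneg le_rfl
  have hsq : (s / r) ^ 2 = t ^ (2 / (n:ℝ)) := by
    have : s / r = t ^ (1 / (n:ℝ)) := by rw [hs]; field_simp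
    rw [this, ← Real.rpow_natCast, ← Real.rpow_mul ht.le]
    congr 1; push_cast; ring
  have key : ∀ ε > 0, L * t ^ (-(2 / (n:ℝ))) * (Ma u - ε) ≤ En u := by
    intro ε hε
    obtain ⟨φ, hφ, -, -, hE, hM⟩ := fk_nonneg hn hs0 h h0 hvs hε
    obtain ⟨hT, e1, e2⟩ := hφ.scale hr hs0
    have h1 := lam_one_le hT
    rw [e1, e2] at h1
    have hp : 0 < ((s / r) ^ n)⁻¹ := by positivity
    have h2 : L * Ma φ ≤ (s / r) ^ 2 * En φ := by
      have h3 : ((s / r) ^ n)⁻¹ * (L * Ma φ) ≤ ((s / r) ^ n)⁻¹ * ((s / r) ^ 2 * En φ) := by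
        calc ((s / r) ^ n)⁻¹ * (L * Ma φ) = L * (((s / r) ^ n)⁻¹ * Ma φ) := by ring
          _ ≤ (s / r) ^ 2 * (((s / r) ^ n)⁻¹ * En φ) := h1
          _ = _ := by ring
      exact le_of_mul_le_mul_left h3 hp
    rw [hsq] at h2
    have h4 : t ^ (-(2 / (n:ℝ))) * t ^ (2 / (n:ℝ)) = 1 := by
      rw [← Real.rpow_add ht]; simp
    have h5 : 0 < t ^ (-(2 / (n:ℝ))) := Real.rpow_pos_of_pos ht _
    have h6 := mul_le_mul_of_nonneg_left h2 h5.le
    rw [← mul_assoc (t ^ (-(2 / (n:ℝ)))) (t ^ (2 / (n:ℝ))), h4, one_mul] at h6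
    calc L * t ^ (-(2 / (n:ℝ))) * (Ma u - ε) ≤ L * t ^ (-(2 / (n:ℝ))) * Ma φ :=
          mul_le_mul_of_nonneg_left hM (mul_nonneg hL0 h5.le)
      _ = t ^ (-(2 / (n:ℝ))) * (L * Ma φ) := by ring
      _ ≤ En φ := h6
      _ ≤ En u := hE
  have hlim : Tendsto (fun ε : ℝ => L * t ^ (-(2 / (n:ℝ))) * (Ma u - ε)) (𝓝[>] 0)
      (𝓝 (L * t ^ (-(2 / (n:ℝ))) * (Ma u - 0))) := by
    refine Tendsto.mono_left ?_ nhdsWithin_le_nhds
    exact (continuous_const.mul (continuous_const.sub continuous_id)).tendsto 0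
  rw [sub_zero] at hlim
  refine le_of_tendsto hlim ?_
  filter_upwards [self_mem_nhdsWithin] with ε hε
  exact key ε hε

/-- Faber-Krahn comparison for all test functions -/
theorem fk_all (hn : 1 ≤ n) {r : ℝ} (hr : 0 < r) (h : Test Ω u)
    (hv : volume Ω ≤ volume (Metric.ball (0 : Sp n) r)) :
    lam 1 (Metric.ball (0 : Sp n) r) * Ma u ≤ En u := by
  set L := lam 1 (Metric.ball (0 : Sp n) r) with hL
  have hL0 : 0 ≤ L := lam_nonneg le_rfl
  have key : ∀ ε > 0, L * (Ma u - ε) ≤ En u := by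
    intro ε hε
    obtain ⟨w, hw, hw0, -, hE, hM⟩ := exists_nonneg h hε
    have hv' : volume {x | w x ≠ 0} ≤ ENNReal.ofReal 1 * volume (Metric.ball (0 : Sp n) r) := by
      rw [ENNReal.ofReal_one, one_mul]
      refine (measure_mono ?_).trans hv
      intro x hx
      exact hw.supp (subset_tsupport w hx)
    have h1 := fk_vol hn hr (hw.mono (subset_univ _)) hw0 one_pos hv'
    rw [Real.one_rpow, mul_one] at h1
    calc L * (Ma u - ε) ≤ L * Ma w := mul_le_mul_of_nonneg_left hM hL0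
      _ ≤ En w := h1
      _ ≤ En u := hE
  have hlim : Tendsto (fun ε : ℝ => L * (Ma u - ε)) (𝓝[>] 0) (𝓝 (L * (Ma u - 0))) := by
    refine Tendsto.mono_left ?_ nhdsWithin_le_nhds
    exact (continuous_const.mul (continuous_const.sub continuous_id)).tendsto 0
  rw [sub_zero] at hlim
  refine le_of_tendsto hlim ?_
  filter_upwards [self_mem_nhdsWithin] with ε hε
  exact key ε hε

/-- rotationally invariant near minimisers in the ball -/
theorem exists_radial_near (hn : 1 ≤ n) {r : ℝ} (hr : 0 < r) {ε : ℝ} (hε : 0 < ε) :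
    ∃ φ : Sp n → ℝ, Test (Metric.ball 0 r) φ ∧ (∀ (σ : Sp n ≃ₗᵢ[ℝ] Sp n) x, φ (σ x) = φ x) ∧
      0 < Ma φ ∧ En φ ≤ (lam 1 (Metric.ball (0 : Sp n) r) + ε) * Ma φ := by
  set L := lam 1 (Metric.ball (0 : Sp n) r) with hL
  have hL0 : 0 ≤ L := lam_nonneg le_rfl
  obtain ⟨u, hu, hu0, hE⟩ := exists_near (Ω := Metric.ball (0 : Sp n) r) Metric.isOpen_ball
    ⟨0, Metric.mem_ball_self hr⟩ (ε := ε / 2) (by linarith)
  rw [← hL] at hE
  -- choose the loss
  set η : ℝ := ε / 2 * Ma u / (2 * (L + ε)) with hη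
  have hη0 : 0 < η := by positivity
  have hη1 : η ≤ Ma u / 4 := by
    rw [hη, div_le_div_iff₀ (by positivity) (by norm_num)]
    nlinarith
  obtain ⟨w, hw, hw0, -, hE1, hM1⟩ := exists_nonneg hu hη0
  have hv : volume {x | w x ≠ 0} ≤ volume (Metric.ball (0 : Sp n) r) :=
    measure_mono fun x hx => hw.supp (subset_tsupport w hx)
  obtain ⟨φ, hφ, -, hinv, hE2, hM2⟩ := fk_nonneg hn hr (hw.mono (subset_univ _)) hw0 hv hη0
  refine ⟨φ, hφ, hinv, by linarith, ?_⟩
  have h1 : En φ < (L + ε / 2) * Ma u := lt_of_le_of_lt (hE2.trans hE1) hE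
  have h2 : Ma u - 2 * η ≤ Ma φ := by linarith
  have h3 : (L + ε) * (2 * η) = ε / 2 * Ma u := by rw [hη]; field_simp
  have h4 : (L + ε) * (Ma u - 2 * η) ≤ (L + ε) * Ma φ :=
    mul_le_mul_of_nonneg_left h2 (by positivity)
  nlinarith

end Pool.Agent.Helper855DB
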