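import Pool.Agent.Helper855DB.Grad
import Pool.Agent.Helper855DB.Gauss2

/-! Random localisation: the functions `‖W‖ f (ξ · W/‖W‖)` (helper855). -/

set_option autoImplicit false

open MeasureTheory Filter Topology Set ProbabilityTheory
open scoped ENNReal NNReal RealInnerProductSpace

namespace Pool.Agent.Helper855DB

variable {n m : ℕ}

/-- smooth compactly supported vector fields whose zeros are tame -/
structure Good (Ω : Set (Sp n)) (W : Sp n → Sp m) : Prop where
  smooth : ContDiff ℝ (⊤ : ℕ∞) W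
  comp : HasCompactSupport W
  supp : tsupport W ⊆ Ω
  loc : ∀ x, W x = 0 → ∃ (e : Sp m) (ψ : Sp n → ℝ), ‖e‖ = 1 ∧ ContDiff ℝ (⊤ : ℕ∞) ψ ∧
    (∀ y, 0 ≤ ψ y) ∧ ∀ᶠ y in 𝓝 x, W y = ψ y • e

/-- direction -/
noncomputable def th (W : Sp n → Sp m) (x : Sp n) : Sp m := ‖W x‖⁻¹ • W x

/-- localised function -/
noncomputable def ww (τ : ℝ) (W : Sp n → Sp m) (ξ : Sp m) (x : Sp n) : ℝ :=
  ‖W x‖ * ff τ ⟪th W x, ξ⟫

variable {Ω : Set (Sp n)} {W : Sp n → Sp m} {τ : ℝ}

theorem th_norm {x : Sp n} (hx : W x ≠ 0) : ‖th W x‖ = 1 := by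
  have h : 0 < ‖W x‖ := norm_pos_iff.2 hx
  unfold th
  rw [norm_smul, norm_inv, norm_norm, inv_mul_cancel₀ h.ne']

theorem Good.norm_smooth (h : Good Ω W) : ContDiff ℝ (⊤ : ℕ∞) fun x => ‖W x‖ := by
  rw [contDiff_iff_contDiffAt]
  intro x
  by_cases hx : W x = 0
  · obtain ⟨e, ψ, he, hψ, hψ0, hev⟩ := h.loc x hx
    refine hψ.contDiffAt.congr_of_eventuallyEq ?_
    filter_upwards [hev] with y hy
    rw [hy, norm_smul, he, mul_one, Real.norm_eq_abs, abs_of_nonneg (hψ0 y)]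
  · exact h.smooth.contDiffAt.norm ℝ hx

theorem Good.ww_smooth (h : Good Ω W) (ξ : Sp m) : ContDiff ℝ (⊤ : ℕ∞) (ww τ W ξ) := by
  rw [contDiff_iff_contDiffAt]
  intro x
  by_cases hx : W x = 0
  · obtain ⟨e, ψ, he, hψ, hψ0, hev⟩ := h.loc x hx
    have h1 : ContDiff ℝ (⊤ : ℕ∞) fun y => ψ y * ff τ ⟪e, ξ⟫ := hψ.mul contDiff_const
    refine h1.contDiffAt.congr_of_eventuallyEq ?_
    filter_upwards [hev] with y hy
    unfold ww
    rcases (hψ0 y).eq_or_lt with h2 | h2
    · rw [hy, ← h2]; simp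
    · have h3 : th W y = e := by
        unfold th
        rw [hy, norm_smul, he, mul_one, Real.norm_eq_abs, abs_of_pos h2, smul_smul,
          inv_mul_cancel₀ h2.ne', one_smul]
      rw [h3, hy, norm_smul, he, mul_one, Real.norm_eq_abs, abs_of_pos h2]
  · have h1 : ContDiffAt ℝ (⊤ : ℕ∞) (fun y => ‖W y‖) x := h.norm_smooth.contDiffAt
    have h2 : ContDiffAt ℝ (⊤ : ℕ∞) (fun y => ‖W y‖⁻¹) x := h1.inv (norm_ne_zero_iff.2 hx)
    have h3 : ContDiffAt ℝ (⊤ : ℕ∞) (th W) x := h2.smul h.smooth.contDiffAt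
    have h4 : ContDiffAt ℝ (⊤ : ℕ∞) (fun y => ⟪th W y, ξ⟫) x := h3.inner ℝ contDiffAt_const
    have h5 : ContDiffAt ℝ (⊤ : ℕ∞) (fun y => ff τ ⟪th W y, ξ⟫) x :=
      (ff_smooth τ).contDiffAt.comp x h4
    exact h1.mul h5

theorem norm_test (h : Good Ω W) : Test Ω fun x => ‖W x‖ := by
  refine ⟨h.norm_smooth, ?_, ?_⟩
  · have h1 := h.comp.norm
    exact h1
  · refine Subset.trans ?_ h.supp
    refine closure_mono ?_
    intro x hx
    rw [Function.mem_support] at hx ⊢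
    exact norm_ne_zero_iff.1 hx

theorem ww_test (h : Good Ω W) (ξ : Sp m) : Test Ω (ww τ W ξ) := by
  have hs : Function.support (ww τ W ξ) ⊆ Function.support W := by
    intro x hx
    rw [Function.mem_support] at hx ⊢
    intro h0
    apply hx
    unfold ww
    rw [h0, norm_zero, zero_mul]
  refine ⟨h.ww_smooth ξ, ?_, ?_⟩
  · exact HasCompactSupport.of_support_subset_isCompact h.comp.isCompact
      (hs.trans (subset_tsupport W))
  · exact (closure_mono hs).trans h.supp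

theorem ww_nonneg (ξ : Sp m) (x : Sp n) : 0 ≤ ww τ W ξ x :=
  mul_nonneg (norm_nonneg _) (ff_nonneg _ _)

theorem Good.diff (h : Good Ω W) : Differentiable ℝ W := h.smooth.differentiable (by simp)

/-- at a zero of `W` the derivative vanishes -/
theorem Good.fderiv_zero (h : Good Ω W) {x : Sp n} (hx : W x = 0) : fderiv ℝ W x = 0 := by
  obtain ⟨e, ψ, he, hψ, hψ0, hev⟩ := h.loc x hx
  have he0 : e ≠ 0 := by
    intro h0; rw [h0, norm_zero] at he; norm_num at he
  have h1 : ψ x = 0 := by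
    have h2 := hev.self_of_nhds
    rw [hx] at h2
    rcases smul_eq_zero.1 h2.symm with h3 | h3
    · exact h3
    · exact absurd h3 he0
  have h2 : IsLocalMin ψ x := by
    refine Eventually.of_forall fun y => ?_
    rw [h1]; exact hψ0 y
  have h3 : fderiv ℝ ψ x = 0 := h2.fderiv_eq_zero
  have hev' : W =ᶠ[𝓝 x] fun y => ψ y • e := hev
  rw [hev'.fderiv_eq]
  have h4 : HasFDerivAt ψ (0 : Sp n →L[ℝ] ℝ) x := by
    have := ((hψ.differentiable (by simp)) x).hasFDerivAt
    rwa [h3] at this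
  have h5 := h4.smul_const e
  rw [h5.fderiv]
  ext z; simp

/-- derivative of the norm -/
theorem Good.norm_deriv (h : Good Ω W) (x z : Sp n) :
    fderiv ℝ (fun y => ‖W y‖) x z = ⟪th W x, fderiv ℝ W x z⟫ := by
  by_cases hx : W x = 0
  · rw [h.fderiv_zero hx]
    have h2 : IsLocalMin (fun y => ‖W y‖) x := by
      refine Eventually.of_forall fun y => ?_
      simp only
      rw [hx, norm_zero]; exact norm_nonneg _
    rw [h2.fderiv_eq_zero]; simp
  · have hN : 0 < ‖W x‖ := norm_pos_iff.2 hx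
    have h1 : HasFDerivAt (fun y => ‖W y‖) (fderiv ℝ (fun y => ‖W y‖) x) x :=
      ((h.norm_smooth.differentiable (by simp)) x).hasFDerivAt
    have h2 := h1.pow 2
    have h3 := (h.diff x).hasFDerivAt.norm_sq
    have h4 := h2.unique h3
    have h5 := congrArg (fun L : Sp n →L[ℝ] ℝ => L z) h4
    simp only [smul_apply, ContinuousLinearMap.comp_apply,
      innerSL_apply_apply, smul_eq_mul] at h5
    unfold th
    rw [real_inner_smul_left]
    have h6 : ‖W x‖ * fderiv ℝ (fun y => ‖W y‖) x z = ⟪W x, fderiv ℝ W x z⟫ := by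
      norm_num at h5
      linarith
    rw [← h6, ← mul_assoc, inv_mul_cancel₀ hN.ne', one_mul]

/-- derivative of the localised function -/
theorem Good.ww_deriv (h : Good Ω W) (ξ : Sp m) (x z : Sp n) :
    fderiv ℝ (ww τ W ξ) x z = ff τ ⟪th W x, ξ⟫ * ⟪th W x, fderiv ℝ W x z⟫ +
      fd τ ⟪th W x, ξ⟫ * ⟪fderiv ℝ W x z - ⟪th W x, fderiv ℝ W x z⟫ • th W x, ξ⟫ := by
  by_cases hx : W x = 0
  · have h2 : IsLocalMin (ww τ W ξ) x := by
      refine Eventually.of_forall fun y => ?_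
      have : ww τ W ξ x = 0 := by unfold ww; rw [hx, norm_zero, zero_mul]
      rw [this]; exact ww_nonneg ξ y
    rw [h2.fderiv_eq_zero, h.fderiv_zero hx]; simp
  · have hN : 0 < ‖W x‖ := norm_pos_iff.2 hx
    have hc : HasDerivAt (fun t : ℝ => x + t • z) z 0 := by
      have := ((hasDerivAt_id (0:ℝ)).smul_const z).const_add x
      simpa using this
    have hc0 : x + (0:ℝ) • z = x := by simp
    have d1 : HasDerivAt (fun t : ℝ => ww τ W ξ (x + t • z)) (fderiv ℝ (ww τ W ξ) x z) 0 := by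
      have h1 : HasFDerivAt (ww τ W ξ) (fderiv ℝ (ww τ W ξ) x) (x + (0:ℝ) • z) := by
        rw [hc0]; exact (((h.ww_smooth ξ).differentiable (by simp)) x).hasFDerivAt
      exact h1.comp_hasDerivAt (0:ℝ) hc
    have d2 : HasDerivAt (fun t : ℝ => ‖W (x + t • z)‖) ⟪th W x, fderiv ℝ W x z⟫ 0 := by
      have h1 : HasFDerivAt (fun y => ‖W y‖) (fderiv ℝ (fun y => ‖W y‖) x) (x + (0:ℝ) • z) := by
        rw [hc0]; exact ((h.norm_smooth.differentiable (by simp)) x).hasFDerivAt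
      have h2 := h1.comp_hasDerivAt (0:ℝ) hc
      rw [h.norm_deriv] at h2
      exact h2
    have d3 : HasDerivAt (fun t : ℝ => W (x + t • z)) (fderiv ℝ W x z) 0 := by
      have h1 : HasFDerivAt W (fderiv ℝ W x) (x + (0:ℝ) • z) := by
        rw [hc0]; exact (h.diff x).hasFDerivAt
      exact h1.comp_hasDerivAt (0:ℝ) hc
    have d4 : HasDerivAt (fun t : ℝ => ⟪W (x + t • z), ξ⟫) ⟪fderiv ℝ W x z, ξ⟫ 0 := by
      have h1 := d3.inner ℝ (hasDerivAt_const (0:ℝ) ξ)
      simpa using h1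
    have hN0 : ‖W (x + (0:ℝ) • z)‖ ≠ 0 := by rw [hc0]; exact hN.ne'
    have d5 := d4.fun_div d2 hN0
    simp only [zero_smul, add_zero] at d5
    have e5 : (fun t : ℝ => ⟪W (x + t • z), ξ⟫ / ‖W (x + t • z)‖) =
        fun t : ℝ => ⟪th W (x + t • z), ξ⟫ := by
      ext t
      unfold th
      rw [real_inner_smul_left]
      ring
    rw [e5] at d5
    have d6 := (ff_deriv τ ⟪th W (x + (0:ℝ) • z), ξ⟫).comp (0:ℝ) d5
    have d7 := d2.mul d6
    have d8 := d1.unique d7
    rw [d8]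
    simp only [zero_smul, add_zero, Function.comp_apply]
    have e9 : ⟪W x, ξ⟫ = ‖W x‖ * ⟪th W x, ξ⟫ := by
      unfold th
      rw [real_inner_smul_left, ← mul_assoc, mul_inv_cancel₀ hN.ne', one_mul]
    rw [e9, inner_sub_left, real_inner_smul_left]
    field_simp

end Pool.Agent.Helper855DB
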