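import Pool.Agent.Helper855DB.Refl

/-! The nonlocal Dirichlet energy and its behaviour under polarization (helper855). -/

set_option autoImplicit false

open MeasureTheory Filter Topology Set
open scoped ENNReal NNReal RealInnerProductSpace

namespace Pool.Agent.Helper855DB

variable {n : ℕ}

/-- the kernel -/
noncomputable def kr (η : ℝ) (x y : Sp n) : ℝ := if dist x y < η then 1 else 0

/-- the integrand -/
noncomputable def TT (η : ℝ) (w : Sp n → ℝ) (x y : Sp n) : ℝ≥0∞ :=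
  ENNReal.ofReal (kr η x y * (w x - w y) ^ 2)

/-- the nonlocal energy -/
noncomputable def NE (η : ℝ) (w : Sp n → ℝ) : ℝ≥0∞ := ∫⁻ x, ∫⁻ y, TT η w x y

theorem kr_nonneg (η : ℝ) (x y : Sp n) : 0 ≤ kr η x y := by unfold kr; split_ifs <;> norm_num

theorem kr_anti {η : ℝ} {x y z t : Sp n} (h : dist x y ≤ dist z t) : kr η z t ≤ kr η x y := by
  unfold kr
  by_cases h1 : dist z t < η
  · rw [if_pos h1, if_pos (h.trans_lt h1)]
  · rw [if_neg h1]; split_ifs <;> norm_num

theorem kr_meas (η : ℝ) : Measurable (fun p : Sp n × Sp n => kr η p.1 p.2) := by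
  unfold kr
  refine Measurable.ite ?_ measurable_const measurable_const
  exact measurableSet_lt (by fun_prop) measurable_const

theorem TT_meas (η : ℝ) {w : Sp n → ℝ} (hw : Measurable w) :
    Measurable (fun p : Sp n × Sp n => TT η w p.1 p.2) := by
  unfold TT
  refine ENNReal.measurable_ofReal.comp ?_
  exact (kr_meas η).mul (((hw.comp measurable_fst).sub (hw.comp measurable_snd)).pow_const 2)

theorem TT_meas1 (η : ℝ) {w : Sp n → ℝ} (hw : Measurable w) (x : Sp n) :
    Measurable fun y => TT η w x y := by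
  have h : Measurable ((fun p : Sp n × Sp n => TT η w p.1 p.2) ∘ (fun y => (x, y))) :=
    (TT_meas η hw).comp measurable_prodMk_left
  exact h

theorem TT_meas2 (η : ℝ) {w : Sp n → ℝ} (hw : Measurable w) :
    Measurable fun x => ∫⁻ y, TT η w x y :=
  Measurable.lintegral_prod_right' (f := fun p : Sp n × Sp n => TT η w p.1 p.2) (TT_meas η hw)

variable {ν : Sp n} {c : ℝ}

/-- the sum over the four images of a pair -/
noncomputable def SS (ν : Sp n) (c : ℝ) (η : ℝ) (w : Sp n → ℝ) (x y : Sp n) : ℝ≥0∞ :=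
  (TT η w x y + TT η w x (rf ν c y)) + (TT η w (rf ν c x) y + TT η w (rf ν c x) (rf ν c y))

theorem SS_int (hν : ‖ν‖ = 1) (η : ℝ) {w : Sp n → ℝ} (hw : Measurable w) :
    ∫⁻ x, ∫⁻ y, SS ν c η w x y = 4 * NE η w := by
  have m1 := TT_meas1 η hw
  have m2 : ∀ x, Measurable fun y => TT η w x (rf ν c y) := fun x =>
    (m1 x).comp rf_cont.measurable
  have e1 : ∀ x, ∫⁻ y, SS ν c η w x y =
      2 * (∫⁻ y, TT η w x y) + 2 * (∫⁻ y, TT η w (rf ν c x) y) := by
    intro x
    have m12 : Measurable fun y => TT η w x y + TT η w x (rf ν c y) := (m1 x).add (m2 x)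
    unfold SS
    rw [lintegral_add_left m12, lintegral_add_left (m1 x),
      lintegral_add_left (m1 _), lint_rf hν (m1 x), lint_rf hν (m1 (rf ν c x)), two_mul, two_mul]
  have m3 := TT_meas2 η hw
  have m4 : Measurable fun x => 2 * ∫⁻ y, TT η w x y := m3.const_mul 2
  simp_rw [e1]
  rw [lintegral_add_left m4, lint_rf hν m4, lintegral_const_mul 2 m3]
  unfold NE
  ring

theorem SS_swap_left (hν : ‖ν‖ = 1) (η : ℝ) (w : Sp n → ℝ) (x y : Sp n) :
    SS ν c η w (rf ν c x) y = SS ν c η w x y := by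
  unfold SS; rw [rf_rf hν]; ring

theorem SS_swap_right (hν : ‖ν‖ = 1) (η : ℝ) (w : Sp n → ℝ) (x y : Sp n) :
    SS ν c η w x (rf ν c y) = SS ν c η w x y := by
  unfold SS; rw [rf_rf hν]; ring

theorem four_pt {K1 K2 a a' b b' : ℝ} (h : K2 ≤ K1) :
    (K1 * (max a a' - max b b') ^ 2 + K2 * (max a a' - min b b') ^ 2) +
      (K2 * (min a a' - max b b') ^ 2 + K1 * (min a a' - min b b') ^ 2) ≤
    (K1 * (a - b) ^ 2 + K2 * (a - b') ^ 2) + (K2 * (a' - b) ^ 2 + K1 * (a' - b') ^ 2) := by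
  rcases le_total a a' with h1 | h1 <;> rcases le_total b b' with h2 | h2
  · rw [max_eq_right h1, min_eq_left h1, max_eq_right h2, min_eq_left h2]
    nlinarith
  · rw [max_eq_right h1, min_eq_left h1, max_eq_left h2, min_eq_right h2]
    nlinarith [mul_nonneg (sub_nonneg.2 h) (mul_nonneg (sub_nonneg.2 h1) (sub_nonneg.2 h2))]
  · rw [max_eq_left h1, min_eq_right h1, max_eq_right h2, min_eq_left h2]
    nlinarith [mul_nonneg (sub_nonneg.2 h) (mul_nonneg (sub_nonneg.2 h1) (sub_nonneg.2 h2))]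
  · rw [max_eq_left h1, min_eq_right h1, max_eq_left h2, min_eq_right h2]

theorem pol_pos {x : Sp n} (w : Sp n → ℝ) (hx : 0 ≤ lf ν c x) :
    pol ν c w x = max (w x) (w (rf ν c x)) := by unfold pol; rw [if_pos hx]

theorem pol_rf (hν : ‖ν‖ = 1) {x : Sp n} (w : Sp n → ℝ) (hx : 0 ≤ lf ν c x) :
    pol ν c w (rf ν c x) = min (w x) (w (rf ν c x)) := by
  unfold pol
  rw [lf_rf hν, rf_rf hν]
  rcases hx.eq_or_lt with h | h
  · rw [rf_eq_self x h.symm]; simp
  · rw [if_neg (by linarith), min_comm]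

theorem SS_pos (hν : ‖ν‖ = 1) (η : ℝ) (w : Sp n → ℝ) {x y : Sp n} (hx : 0 ≤ lf ν c x)
    (hy : 0 ≤ lf ν c y) : SS ν c η (pol ν c w) x y ≤ SS ν c η w x y := by
  have hK : kr η x (rf ν c y) ≤ kr η x y := kr_anti (dist_le_dist_rf hν (mul_nonneg hx hy))
  have e1 : kr η (rf ν c x) y = kr η x (rf ν c y) := by unfold kr; rw [dist_rf_comm hν]
  have e2 : kr η (rf ν c x) (rf ν c y) = kr η x y := by unfold kr; rw [dist_rf_rf hν]
  unfold SS TT
  rw [e1, e2, pol_pos w hx, pol_pos w hy, pol_rf hν w hx, pol_rf hν w hy]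
  have hn := kr_nonneg η x y
  have hn2 := kr_nonneg η x (rf ν c y)
  rw [← ENNReal.ofReal_add (by positivity) (by positivity),
    ← ENNReal.ofReal_add (by positivity) (by positivity),
    ← ENNReal.ofReal_add (by positivity) (by positivity),
    ← ENNReal.ofReal_add (by positivity) (by positivity),
    ← ENNReal.ofReal_add (by positivity) (by positivity),
    ← ENNReal.ofReal_add (by positivity) (by positivity)]
  exact ENNReal.ofReal_le_ofReal (four_pt hK)

theorem SS_le (hν : ‖ν‖ = 1) (η : ℝ) (w : Sp n → ℝ) (x y : Sp n) :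
    SS ν c η (pol ν c w) x y ≤ SS ν c η w x y := by
  have hx : ∃ x', 0 ≤ lf ν c x' ∧ (x = x' ∨ x = rf ν c x') := by
    rcases le_total 0 (lf ν c x) with h | h
    · exact ⟨x, h, Or.inl rfl⟩
    · exact ⟨rf ν c x, by rw [lf_rf hν]; linarith, Or.inr (rf_rf hν x).symm⟩
  have hy : ∃ y', 0 ≤ lf ν c y' ∧ (y = y' ∨ y = rf ν c y') := by
    rcases le_total 0 (lf ν c y) with h | h
    · exact ⟨y, h, Or.inl rfl⟩
    · exact ⟨rf ν c y, by rw [lf_rf hν]; linarith, Or.inr (rf_rf hν y).symm⟩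
  obtain ⟨x', hx', hx2⟩ := hx
  obtain ⟨y', hy', hy2⟩ := hy
  have h := SS_pos hν η w hx' hy'
  rcases hx2 with rfl | rfl <;> rcases hy2 with rfl | rfl
  · exact h
  · rwa [SS_swap_right hν, SS_swap_right hν]
  · rwa [SS_swap_left hν, SS_swap_left hν]
  · rwa [SS_swap_right hν, SS_swap_right hν, SS_swap_left hν, SS_swap_left hν]

/-- polarization decreases the nonlocal energy -/
theorem NE_pol (hν : ‖ν‖ = 1) (η : ℝ) {w : Sp n → ℝ} (hw : Measurable w) :
    NE η (pol ν c w) ≤ NE η w := by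
  have h1 := SS_int (c := c) hν η hw
  have h2 := SS_int (c := c) hν η (pol_meas (ν := ν) (c := c) hw)
  have h3 : ∫⁻ x, ∫⁻ y, SS ν c η (pol ν c w) x y ≤ ∫⁻ x, ∫⁻ y, SS ν c η w x y :=
    lintegral_mono fun x => lintegral_mono fun y => SS_le hν η w x y
  rw [h1, h2] at h3
  exact (ENNReal.mul_le_mul_iff_right (by norm_num) (by norm_num)).1 h3

/-- lower semicontinuity -/
theorem NE_fatou (η : ℝ) {w : ℕ → Sp n → ℝ} {v : Sp n → ℝ} (hw : ∀ k, Measurable (w k))
    (hlim : ∀ y, Tendsto (fun k => w k y) atTop (𝓝 (v y))) {e : ℝ≥0∞}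
    (he : ∀ k, NE η (w k) ≤ e) : NE η v ≤ e := by
  have hT : ∀ x y, Tendsto (fun k => TT η (w k) x y) atTop (𝓝 (TT η v x y)) := by
    intro x y
    unfold TT
    exact (ENNReal.continuous_ofReal.tendsto _).comp
      ((((hlim x).sub (hlim y)).pow 2).const_mul _)
  have m1 : ∀ k x, Measurable fun y => TT η (w k) x y := fun k x => TT_meas1 η (hw k) x
  have m2 : ∀ k, Measurable fun x => ∫⁻ y, TT η (w k) x y := fun k => TT_meas2 η (hw k)
  calc NE η v = ∫⁻ x, ∫⁻ y, liminf (fun k => TT η (w k) x y) atTop := by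
        unfold NE
        refine lintegral_congr fun x => lintegral_congr fun y => ?_
        exact (hT x y).liminf_eq.symm
    _ ≤ ∫⁻ x, liminf (fun k => ∫⁻ y, TT η (w k) x y) atTop :=
        lintegral_mono fun x => lintegral_liminf_le fun k => m1 k x
    _ ≤ liminf (fun k => ∫⁻ x, ∫⁻ y, TT η (w k) x y) atTop :=
        lintegral_liminf_le fun k => m2 k
    _ ≤ e := by
        refine liminf_le_of_le ?_ ?_
        · isBoundedDefault
        · intro b hb
          obtain ⟨k, hk⟩ := hb.exists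
          exact hk.trans (he k)

end Pool.Agent.Helper855DB
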