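import Pool.Agent.Helper855DB.PPW2

/-! Orthonormal bases of trial spaces and the augmented vector field (helper855). -/

set_option autoImplicit false

open MeasureTheory Filter Topology Set
open scoped ENNReal NNReal RealInnerProductSpace

namespace Pool.Agent.Helper855DB

variable {n : ℕ} {Ω : Set (Sp n)}

/-- an `L²`-orthonormal basis of a space of test functions -/
theorem exists_onb {k : ℕ} (hk1 : 1 ≤ k) {V : Submodule ℝ (Sp n → ℝ)}
    (hk : Module.finrank ℝ V = k) (hV : ∀ v ∈ V, Test Ω v) :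
    ∃ v : Fin k → (Sp n → ℝ), (∀ i, v i ∈ V) ∧
      ∀ i j, ∫ x, v i x * v j x = if i = j then 1 else 0 := by
  let core : InnerProductSpace.Core ℝ V :=
    { inner := fun u v => ∫ x, u.1 x * v.1 x
      conj_inner_symm := fun u v => by
        simp only [conj_trivial]
        refine integral_congr_ae (Eventually.of_forall fun x => ?_)
        simp only; ring
      re_inner_nonneg := fun u => by
        simp only [RCLike.re_to_real]
        exact integral_nonneg fun x => mul_self_nonneg _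
      add_left := fun u v w => by
        have h1 := uv_int (hV u.1 u.2) (hV w.1 w.2)
        have h2 := uv_int (hV v.1 v.2) (hV w.1 w.2)
        have h3 := integral_add h1 h2
        refine Eq.trans ?_ h3
        refine integral_congr_ae (Eventually.of_forall fun x => ?_)
        simp only [Submodule.coe_add, Pi.add_apply]; ring
      smul_left := fun u v c => by
        simp only [conj_trivial]
        rw [← integral_const_mul]
        refine integral_congr_ae (Eventually.of_forall fun x => ?_)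
        simp only [Submodule.coe_smul, Pi.smul_apply, smul_eq_mul]; ring
      definite := fun u hu => by
        have h1 : Ma u.1 = 0 := by
          unfold Ma
          refine Eq.trans ?_ hu
          refine integral_congr_ae (Eventually.of_forall fun x => ?_)
          simp only; ring
        exact Subtype.ext (eq_zero_of_Ma (hV u.1 u.2) h1) }
  let i1 : NormedAddCommGroup V := core.toNormedAddCommGroup
  let i2 : InnerProductSpace ℝ V := InnerProductSpace.ofCore core.toCore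
  have hfd : FiniteDimensional ℝ V := FiniteDimensional.of_finrank_pos (by omega)
  subst hk
  refine ⟨fun i => ((stdOrthonormalBasis ℝ V) i).1, fun i => ((stdOrthonormalBasis ℝ V) i).2, ?_⟩
  intro i j
  have h1 := orthonormal_iff_ite.1 (stdOrthonormalBasis ℝ V).orthonormal i j
  exact h1

variable {k : ℕ} {v : Fin k → (Sp n → ℝ)} {χ : Sp n → ℝ} {ε : ℝ}

/-- the augmented vector field -/
noncomputable def Wv (v : Fin k → (Sp n → ℝ)) (χ : Sp n → ℝ) (ε : ℝ) (x : Sp n) : Sp (k + 1) :=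
  WithLp.toLp 2 (Fin.cons (ε * χ x) (fun i => v i x))

theorem Wv_zero (x : Sp n) : Wv v χ ε x 0 = ε * χ x := rfl

theorem Wv_succ (x : Sp n) (i : Fin k) : Wv v χ ε x i.succ = v i x := rfl

theorem exists_cutoff (hΩ : IsOpen Ω) (hv : ∀ i, Test Ω (v i)) :
    ∃ χ : Sp n → ℝ, Test Ω χ ∧ (∀ x, 0 ≤ χ x) ∧ ∀ i, ∀ x ∈ tsupport (v i), 0 < χ x := by
  have hK : IsCompact (⋃ i, tsupport (v i)) := isCompact_iUnion fun i => (hv i).comp.isCompact
  have hKΩ : (⋃ i, tsupport (v i)) ⊆ Ω := iUnion_subset fun i => (hv i).supp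
  obtain ⟨L, hL, hKL, hLΩ⟩ := exists_compact_between hK hΩ hKΩ
  obtain ⟨χ, hχ1, hχ2, hχ3⟩ := (isOpen_interior (s := L)).exists_contDiff_support_eq (n := ⊤)
  have h0 : ∀ x, 0 ≤ χ x := fun x => (hχ3 (mem_range_self x)).1
  have hsup : tsupport χ ⊆ L := by
    unfold tsupport
    rw [hχ1]
    exact closure_minimal interior_subset hL.isClosed
  refine ⟨χ, ⟨hχ2, ?_, hsup.trans hLΩ⟩, h0, ?_⟩
  · exact hL.of_isClosed_subset (isClosed_tsupport χ) hsup
  · intro i x hx
    have h1 : x ∈ Function.support χ := by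
      rw [hχ1]; exact hKL (mem_iUnion.2 ⟨i, hx⟩)
    exact lt_of_le_of_ne (h0 x) (Ne.symm h1)

theorem Wv_good (hε : 0 < ε) (hv : ∀ i, Test Ω (v i)) (hχ : Test Ω χ) (h0 : ∀ x, 0 ≤ χ x)
    (hpos : ∀ i, ∀ x ∈ tsupport (v i), 0 < χ x) : Good Ω (Wv v χ ε) := by
  have hsm : ContDiff ℝ (⊤ : ℕ∞) (Wv v χ ε) := by
    rw [contDiff_euclidean]
    intro j
    refine Fin.cases ?_ (fun i => ?_) j
    · have h1 : ContDiff ℝ (⊤ : ℕ∞) fun x => ε * χ x := contDiff_const.mul hχ.smooth
      exact h1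
    · have h1 := (hv i).smooth
      exact h1
  have hz : ∀ x, χ x = 0 → ∀ᶠ y in 𝓝 x, ∀ i, v i y = 0 := by
    intro x hx
    rw [eventually_all]
    intro i
    have h1 : x ∉ tsupport (v i) := fun h2 => by
      have := hpos i x h2
      linarith
    have h2 : ∀ᶠ y in 𝓝 x, y ∉ tsupport (v i) :=
      (isClosed_tsupport (v i)).isOpen_compl.mem_nhds h1
    filter_upwards [h2] with y hy
    exact image_eq_zero_of_notMem_tsupport hy
  have hs : Function.support (Wv v χ ε) ⊆ Function.support χ := by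
    intro x hx
    rw [Function.mem_support] at hx ⊢
    intro h1
    apply hx
    have h2 := (hz x h1).self_of_nhds
    ext j
    refine Fin.cases ?_ (fun i => ?_) j
    · rw [Wv_zero, h1]; simp
    · rw [Wv_succ, h2 i]; simp
  refine ⟨hsm, ?_, (closure_mono hs).trans hχ.supp, ?_⟩
  · exact HasCompactSupport.of_support_subset_isCompact hχ.comp.isCompact
      (hs.trans (subset_tsupport χ))
  · intro x hx
    have h1 : χ x = 0 := by
      have h2 := Wv_zero (v := v) (χ := χ) (ε := ε) x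
      rw [hx] at h2
      have h3 : ε * χ x = 0 := h2.symm
      rcases mul_eq_zero.1 h3 with h4 | h4
      · exact absurd h4 hε.ne'
      · exact h4
    refine ⟨EuclideanSpace.single 0 1, fun y => ε * χ y, by simp, contDiff_const.mul hχ.smooth,
      fun y => mul_nonneg hε.le (h0 y), ?_⟩
    filter_upwards [hz x h1] with y hy
    ext j
    refine Fin.cases ?_ (fun i => ?_) j
    · rw [Wv_zero]; simp
    · rw [Wv_succ, hy i]; simp

theorem Wv_norm_sq (x : Sp n) : ‖Wv v χ ε x‖ ^ 2 = ε ^ 2 * χ x ^ 2 + ∑ i, v i x ^ 2 := by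
  rw [EuclideanSpace.real_norm_sq_eq, Fin.sum_univ_succ, Wv_zero]
  simp only [Wv_succ]
  ring

theorem Wv_mass (hv : ∀ i, Test Ω (v i)) (hχ : Test Ω χ)
    (hon : ∀ i j, ∫ x, v i x * v j x = if i = j then 1 else 0) :
    ∫ x, ‖Wv v χ ε x‖ ^ 2 = ε ^ 2 * Ma χ + k := by
  simp_rw [Wv_norm_sq]
  rw [integral_add (hχ.int_sq.const_mul _) (integrable_finsetSum _ fun i _ => (hv i).int_sq),
    integral_const_mul, integral_finsetSum _ fun i _ => (hv i).int_sq]
  have h1 : ∀ i : Fin k, ∫ x, v i x ^ 2 = 1 := by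
    intro i
    have h2 := hon i i
    rw [if_pos rfl] at h2
    rw [← h2]
    refine integral_congr_ae (Eventually.of_forall fun x => ?_)
    simp only; ring
  simp_rw [h1]
  simp [Ma]

/-- coordinates of the derivative -/
theorem Good.Pd_coord {m : ℕ} {W : Sp n → Sp m} (h : Good Ω W) (i : Fin n) (x : Sp n) (j : Fin m) :
    Pd W i x j = fderiv ℝ (fun y => W y j) x (bs n i) := by
  have h1 : HasFDerivAt (fun y => W y j)
      ((EuclideanSpace.proj j : Sp m →L[ℝ] ℝ).comp (fderiv ℝ W x)) x := by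
    have h2 := (EuclideanSpace.proj j : Sp m →L[ℝ] ℝ).hasFDerivAt (x := W x)
    exact h2.comp x (h.diff x).hasFDerivAt
  rw [h1.fderiv]; rfl

theorem Good.HS_eq {m : ℕ} {W : Sp n → Sp m} (h : Good Ω W) (x : Sp n) :
    HS W x = ∑ j, ‖fderiv ℝ (fun y => W y j) x‖ ^ 2 := by
  unfold HS
  simp_rw [norm_dual_sq, EuclideanSpace.real_norm_sq_eq, h.Pd_coord]
  exact Finset.sum_comm

theorem Wv_HS (hv : ∀ i, Test Ω (v i)) (hχ : Test Ω χ) (h : Good Ω (Wv v χ ε)) :
    ∫ x, HS (Wv v χ ε) x = ε ^ 2 * En χ + ∑ i, En (v i) := by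
  have e : ∀ x, HS (Wv v χ ε) x = ε ^ 2 * ‖fderiv ℝ χ x‖ ^ 2 + ∑ i, ‖fderiv ℝ (v i) x‖ ^ 2 := by
    intro x
    rw [h.HS_eq, Fin.sum_univ_succ]
    congr 1
    have h1 : (fun y => Wv v χ ε y 0) = fun y => ε * χ y := rfl
    rw [h1, fderiv_const_mul (hχ.diff x), norm_smul, mul_pow, Real.norm_eq_abs, sq_abs]
  simp_rw [e]
  rw [integral_add (hχ.int_fsq.const_mul _) (integrable_finsetSum _ fun i _ => (hv i).int_fsq),
    integral_const_mul, integral_finsetSum _ fun i _ => (hv i).int_fsq]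
  rfl

/-- directional mass bound -/
theorem Wv_dir (hε : 0 < ε) (hε1 : ε ≤ 1) (hv : ∀ i, Test Ω (v i)) (hχ : Test Ω χ)
    (hX : ε * Ma χ ≤ 1)
    (hon : ∀ i j, ∫ x, v i x * v j x = if i = j then 1 else 0) {θ : Sp (k + 1)} (hθ : ‖θ‖ = 1) :
    ∫ x, (⟪Wv v χ ε x, θ⟫ : ℝ) ^ 2 ≤ 2 := by
  have hin : ∀ x, (⟪Wv v χ ε x, θ⟫ : ℝ) = θ 0 * (ε * χ x) + ∑ i, θ (Fin.succ i) * v i x := by
    intro x
    rw [PiLp.inner_apply, Fin.sum_univ_succ]
    simp only [RCLike.inner_apply, conj_trivial, Wv_zero, Wv_succ]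
  set S : Sp n → ℝ := fun x => ∑ i, θ (Fin.succ i) * v i x with hS
  have hSsq : ∀ x, S x ^ 2 = ∑ i, ∑ j, (θ (Fin.succ i) * θ (Fin.succ j)) * (v i x * v j x) := by
    intro x
    simp only [hS]
    rw [sq, Finset.sum_mul_sum]
    refine Finset.sum_congr rfl fun i _ => Finset.sum_congr rfl fun j _ => by ring
  have hij : ∀ i j, Integrable fun x => (θ (Fin.succ i) * θ (Fin.succ j)) * (v i x * v j x) :=
    fun i j => (uv_int (hv i) (hv j)).const_mul _
  have hSi : Integrable fun x => S x ^ 2 := by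
    simp_rw [hSsq]
    exact integrable_finsetSum _ fun i _ => integrable_finsetSum _ fun j _ => hij i j
  have hSint : ∫ x, S x ^ 2 = ∑ i : Fin k, θ (Fin.succ i) ^ 2 := by
    simp_rw [hSsq]
    rw [integral_finsetSum _ fun i _ => integrable_finsetSum _ fun j _ => hij i j]
    refine Finset.sum_congr rfl fun i _ => ?_
    rw [integral_finsetSum _ fun j _ => hij i j]
    simp_rw [integral_const_mul, hon]
    simp; ring
  have hθ2 : θ 0 ^ 2 + ∑ i : Fin k, θ (Fin.succ i) ^ 2 = 1 := by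
    have h1 : ‖θ‖ ^ 2 = 1 := by rw [hθ]; norm_num
    rw [EuclideanSpace.real_norm_sq_eq, Fin.sum_univ_succ] at h1
    exact h1
  have pt : ∀ x, (⟪Wv v χ ε x, θ⟫ : ℝ) ^ 2 ≤ (2 * ε ^ 2 * θ 0 ^ 2) * χ x ^ 2 + 2 * S x ^ 2 := by
    intro x
    rw [hin x]
    have : θ 0 * (ε * χ x) + ∑ i, θ (Fin.succ i) * v i x = θ 0 * (ε * χ x) + S x := rfl
    rw [this]
    nlinarith [sq_nonneg (θ 0 * (ε * χ x) - S x)]
  have hWi : Integrable fun x => (⟪Wv v χ ε x, θ⟫ : ℝ) ^ 2 := by
    simp_rw [hin]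
    have e : ∀ x, (θ 0 * (ε * χ x) + ∑ i, θ (Fin.succ i) * v i x) ^ 2 =
        (θ 0 * ε) ^ 2 * χ x ^ 2 + 2 * θ 0 * ε * (∑ i, θ (Fin.succ i) * (χ x * v i x)) +
          1 * S x ^ 2 := by
      intro x
      have h1 : ∑ i, θ (Fin.succ i) * (χ x * v i x) = χ x * S x := by
        simp only [hS]
        rw [Finset.mul_sum]
        refine Finset.sum_congr rfl fun i _ => by ring
      rw [h1]
      have : θ 0 * (ε * χ x) + ∑ i, θ (Fin.succ i) * v i x = θ 0 * (ε * χ x) + S x := rfl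
      rw [this]; ring
    simp_rw [e]
    refine ((hχ.int_sq.const_mul _).add (Integrable.const_mul ?_ _)).add (hSi.const_mul _)
    exact integrable_finsetSum _ fun i _ => (uv_int hχ (hv i)).const_mul _
  have hR : Integrable fun x => (2 * ε ^ 2 * θ 0 ^ 2) * χ x ^ 2 + 2 * S x ^ 2 :=
    (hχ.int_sq.const_mul _).add (hSi.const_mul _)
  have h0 := integral_mono hWi hR pt
  rw [lin2 hχ.int_sq hSi, hSint] at h0
  refine h0.trans ?_
  have h1 : ∫ x, χ x ^ 2 = Ma χ := rfl
  rw [h1]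
  have h2 : 0 ≤ Ma χ := Ma_nonneg χ
  have h3 : ε ^ 2 * Ma χ ≤ 1 := by nlinarith
  have h4 : 0 ≤ θ 0 ^ 2 := sq_nonneg _
  nlinarith

end Pool.Agent.Helper855DB
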