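import Pool.Agent.Helper855DB.Lam
import Pool.Agent.Helper855DB.Avg

/-! Upper bound for the `(n+1)`-st level of the ball (helper855). -/

set_option autoImplicit false

open MeasureTheory Filter Topology Set
open scoped ENNReal NNReal RealInnerProductSpace

namespace Pool.Agent.Helper855DB

variable {n : ℕ} {Ω : Set (Sp n)} {u v : Sp n → ℝ}

/-- gradient -/
noncomputable def gr (u : Sp n → ℝ) (x : Sp n) : Sp n :=
  (InnerProductSpace.toDual ℝ (Sp n)).symm (fderiv ℝ u x)

theorem gr_inner (u : Sp n → ℝ) (x z : Sp n) : (⟪gr u x, z⟫ : ℝ) = fderiv ℝ u x z :=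
  InnerProductSpace.toDual_symm_apply

theorem gr_norm (u : Sp n → ℝ) (x : Sp n) : ‖gr u x‖ = ‖fderiv ℝ u x‖ :=
  (InnerProductSpace.toDual ℝ (Sp n)).symm.norm_map _

theorem gr_cont (h : Test Ω u) : Continuous (gr u) :=
  (InnerProductSpace.toDual ℝ (Sp n)).symm.continuous.comp h.fcont

theorem gr_comp (h : Test Ω u) : HasCompactSupport (gr u) := by
  have h1 := h.fcomp.comp_left (g := fun L : Sp n →L[ℝ] ℝ =>
    (InnerProductSpace.toDual ℝ (Sp n)).symm L) (by simp)
  exact h1

theorem Test.mulp (h : Test Ω u) {p : Sp n → ℝ} (hp : ContDiff ℝ (⊤ : ℕ∞) p) :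
    Test Ω (fun x => p x * u x) := by
  refine ⟨hp.mul h.smooth, ?_, ?_⟩
  · have h1 : HasCompactSupport (p * u) := h.comp.mul_left
    exact h1
  · refine (closure_mono ?_).trans h.supp
    intro x hx
    rw [Function.mem_support] at hx ⊢
    exact right_ne_zero_of_mul hx

theorem gr_mul (h : Test Ω u) {p : Sp n → ℝ} (hp : ContDiff ℝ (⊤ : ℕ∞) p) (x : Sp n) :
    gr (fun x => p x * u x) x = p x • gr u x + u x • gr p x := by
  refine ext_inner_right ℝ fun z => ?_
  have h1 : HasFDerivAt p (fderiv ℝ p x) x := ((hp.differentiable (by simp)) x).hasFDerivAt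
  have h2 := h1.mul (h.diff x).hasFDerivAt
  have h3 : fderiv ℝ (fun x => p x * u x) x = p x • fderiv ℝ u x + u x • fderiv ℝ p x := h2.fderiv
  rw [gr_inner, h3, inner_add_left, real_inner_smul_left, real_inner_smul_left, gr_inner, gr_inner]
  rfl

theorem gr_lin (b : Sp n) (x : Sp n) : gr (fun x => (⟪b, x⟫ : ℝ)) x = b := by
  refine ext_inner_right ℝ fun z => ?_
  rw [gr_inner]
  have h1 : HasFDerivAt (fun x : Sp n => (⟪b, x⟫ : ℝ)) (innerSL ℝ b) x :=
    (innerSL ℝ b).hasFDerivAt
  rw [h1.fderiv]; rfl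

theorem lin_smooth (b : Sp n) : ContDiff ℝ (⊤ : ℕ∞) fun x : Sp n => (⟪b, x⟫ : ℝ) :=
  (innerSL ℝ b).contDiff

theorem lin2 {f g : Sp n → ℝ} (hf : Integrable f) (hg : Integrable g) (a b : ℝ) :
    ∫ x, (a * f x + b * g x) = a * (∫ x, f x) + b * ∫ x, g x := by
  rw [integral_add (hf.const_mul a) (hg.const_mul b), integral_const_mul, integral_const_mul]

theorem lin3 {f g k : Sp n → ℝ} (hf : Integrable f) (hg : Integrable g) (hk : Integrable k)
    (a b c : ℝ) : ∫ x, (a * f x + b * g x + c * k x) =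
      a * (∫ x, f x) + b * (∫ x, g x) + c * ∫ x, k x := by
  have h1 : Integrable fun x => a * f x + b * g x := (hf.const_mul a).add (hg.const_mul b)
  rw [integral_add h1 (hk.const_mul c), lin2 hf hg, integral_const_mul]

theorem lin4 {f g k l : Sp n → ℝ} (hf : Integrable f) (hg : Integrable g) (hk : Integrable k)
    (hl : Integrable l) (a b c d : ℝ) : ∫ x, (a * f x + b * g x + c * k x + d * l x) =
      a * (∫ x, f x) + b * (∫ x, g x) + c * (∫ x, k x) + d * ∫ x, l x := by
  have h1 : Integrable fun x => a * f x + b * g x + c * k x :=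
    ((hf.const_mul a).add (hg.const_mul b)).add (hk.const_mul c)
  rw [integral_add h1 (hl.const_mul d), lin3 hf hg hk, integral_const_mul]

/-- bilinear energy -/
noncomputable def BB (u v : Sp n → ℝ) : ℝ := ∫ x, (⟪gr u x, gr v x⟫ : ℝ)

theorem gr_int (h : Test Ω u) (k : Test Ω v) : Integrable fun x => (⟪gr u x, gr v x⟫ : ℝ) := by
  refine Continuous.integrable_of_hasCompactSupport ((gr_cont h).inner (gr_cont k)) ?_
  refine (gr_comp h).mono fun x hx => ?_
  rw [Function.mem_support] at hx ⊢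
  intro h0
  apply hx
  rw [h0, inner_zero_left]

theorem uv_int (h : Test Ω u) (k : Test Ω v) : Integrable fun x => u x * v x :=
  (h.cont.mul k.cont).integrable_of_hasCompactSupport h.comp.mul_right

theorem BB_self (u : Sp n → ℝ) : BB u u = En u := by
  unfold BB En
  refine integral_congr_ae (Eventually.of_forall fun x => ?_)
  simp only
  rw [real_inner_self_eq_norm_sq, gr_norm]

/-- discriminant inequality for a nonnegative quadratic form -/
theorem cross_le {L : ℝ} (hL : ∀ w : Sp n → ℝ, Test Ω w → L * Ma w ≤ En w) (h : Test Ω u)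
    (k : Test Ω v) {s : ℝ} (hs : 0 < s) :
    2 * (BB u v - L * ∫ x, u x * v x) ≤ (En u - L * Ma u) / s + s * (En v - L * Ma v) := by
  have hw : Test Ω (fun x => u x + (-s) * v x) := by
    have h1 := k.smul (-s)
    refine ⟨h.smooth.add h1.smooth, h.comp.add h1.comp, ?_⟩
    refine (tsupport_add u ((-s) • v)).trans ?_
    exact union_subset h.supp h1.supp
  have e1 : En (fun x => u x + (-s) * v x) = En u - 2 * s * BB u v + s ^ 2 * En v := by
    have pt : ∀ x, ‖fderiv ℝ (fun x => u x + (-s) * v x) x‖ ^ 2 =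
        1 * ‖fderiv ℝ u x‖ ^ 2 + (-(2 * s)) * ⟪gr u x, gr v x⟫ + s ^ 2 * ‖fderiv ℝ v x‖ ^ 2 := by
      intro x
      have e2 : gr (fun x => u x + (-s) * v x) x = gr u x - s • gr v x := by
        refine ext_inner_right ℝ fun z => ?_
        have h1 := (h.diff x).hasFDerivAt
        have h2 := ((k.diff x).hasFDerivAt).const_mul (-s)
        have h3 : fderiv ℝ (fun x => u x + (-s) * v x) x = fderiv ℝ u x + (-s) • fderiv ℝ v x :=
          (h1.add h2).fderiv
        rw [gr_inner, h3, inner_sub_left, real_inner_smul_left, gr_inner, gr_inner]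
        simp only [add_apply, smul_apply, smul_eq_mul]
        ring
      rw [← gr_norm, e2, norm_sub_sq_real, norm_smul, mul_pow, Real.norm_eq_abs, sq_abs,
        inner_smul_right, gr_norm, gr_norm]
      ring
    unfold En BB
    simp_rw [pt]
    rw [lin3 h.int_fsq (gr_int h k) k.int_fsq]
    ring
  have e3 : Ma (fun x => u x + (-s) * v x) = Ma u - 2 * s * (∫ x, u x * v x) + s ^ 2 * Ma v := by
    have pt : ∀ x, (u x + (-s) * v x) ^ 2 = 1 * u x ^ 2 + (-(2 * s)) * (u x * v x) + s ^ 2 * v x ^ 2 :=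
      fun x => by ring
    unfold Ma
    simp_rw [pt]
    rw [lin3 h.int_sq (uv_int h k) k.int_sq]
    ring
  have h1 := hL _ hw
  rw [e1, e3] at h1
  have h2 : s * (2 * (BB u v - L * ∫ x, u x * v x)) ≤
      s * ((En u - L * Ma u) / s + s * (En v - L * Ma v)) := by
    have e4 : s * ((En u - L * Ma u) / s + s * (En v - L * Ma v)) =
        (En u - L * Ma u) + s ^ 2 * (En v - L * Ma v) := by field_simp
    rw [e4]; linarith
  exact le_of_mul_le_mul_left h2 hs

theorem odd_int {f : Sp n → ℝ} (hf : ∀ x, f (-x) = - f x) : ∫ x, f x = 0 := by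
  have h1 := integral_neg_eq_self f (volume : Measure (Sp n))
  simp_rw [hf] at h1
  rw [integral_neg] at h1
  linarith

/-- isometry invariance of the derivative -/
theorem fderiv_isom (h : Test Ω u) {σ : Sp n ≃ₗᵢ[ℝ] Sp n} (hσ : ∀ x, u (σ x) = u x) (x z : Sp n) :
    fderiv ℝ u (σ x) (σ z) = fderiv ℝ u x z := by
  have h1 : HasFDerivAt (fun x => u (σ x))
      ((fderiv ℝ u (σ x)).comp (σ.toContinuousLinearEquiv : Sp n →L[ℝ] Sp n)) x := by
    have h2 : HasFDerivAt (fun x => σ x) (σ.toContinuousLinearEquiv : Sp n →L[ℝ] Sp n) x :=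
      σ.toContinuousLinearEquiv.hasFDerivAt
    exact (h.diff (σ x)).hasFDerivAt.comp x h2
  have h3 : (fun x => u (σ x)) = u := funext hσ
  rw [h3] at h1
  rw [h1.fderiv]; rfl

theorem gr_neg (h : Test Ω u) (hσ : ∀ x, u (-x) = u x) (x : Sp n) : gr u (-x) = - gr u x := by
  refine ext_inner_right ℝ fun z => ?_
  rw [inner_neg_left, gr_inner, gr_inner]
  have h1 := fderiv_isom h (σ := LinearIsometryEquiv.neg ℝ) (fun x => by
    simpa using hσ x) x (-z)
  simp only [LinearIsometryEquiv.coe_neg, map_neg, neg_neg] at h1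
  exact h1

/-- equidistribution of the derivative of an invariant function -/
theorem dir_eq (hn : 1 ≤ n) (h : Test Ω u) (hinv : ∀ (σ : Sp n ≃ₗᵢ[ℝ] Sp n) x, u (σ x) = u x)
    {b : Sp n} (hb : ‖b‖ = 1) : ∫ x, (fderiv ℝ u x b) ^ 2 = En u / n := by
  have h1 : ∀ a : Sp n, ‖a‖ = 1 → ∫ x, (fderiv ℝ u x a) ^ 2 = ∫ x, (fderiv ℝ u x b) ^ 2 := by
    intro a ha
    set σ := (ℝ ∙ (a - b))ᗮ.reflection with hσ
    have e1 : σ a = b := Submodule.reflection_sub (by rw [ha, hb])
    have h2 := σ.measurePreserving.integral_comp σ.toHomeomorph.measurableEmbedding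
      (fun x => (fderiv ℝ u x b) ^ 2)
    rw [← h2]
    refine integral_congr_ae (Eventually.of_forall fun x => ?_)
    simp only
    rw [← e1, fderiv_isom h (hinv σ)]
  have h2 : En u = ∑ i : Fin n, ∫ x, (fderiv ℝ u x (bs n i)) ^ 2 := by
    unfold En
    rw [← integral_finsetSum _ fun i _ => h.int_dsq _]
    refine integral_congr_ae (Eventually.of_forall fun x => ?_)
    simp only
    rw [norm_dual_sq]
  rw [Finset.sum_congr rfl fun i _ => h1 (bs n i) ((bs n).norm_eq_one i)] at h2
  simp only [Finset.sum_const, Finset.card_univ, Fintype.card_fin, nsmul_eq_mul] at h2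
  have hn0 : (n:ℝ) ≠ 0 := by positivity
  rw [h2]; field_simp

/-- integration by parts against a linear function -/
theorem ibp (h : Test Ω u) (b : Sp n) :
    ∫ x, (⟪b, x⟫ : ℝ) * (2 * (u x * fderiv ℝ u x b)) = - (‖b‖ ^ 2 * Ma u) := by
  have hg : ∀ x, fderiv ℝ (fun x => u x ^ 2) x b = 2 * (u x * fderiv ℝ u x b) := by
    intro x
    have h1 := (h.diff x).hasFDerivAt.pow 2
    have h2 : fderiv ℝ (fun x => u x ^ 2) x = (2 • u x ^ (2 - 1)) • fderiv ℝ u x := h1.fderiv
    rw [h2]
    simp only [smul_apply, smul_eq_mul]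
    norm_num; ring
  have hf : ∀ x, fderiv ℝ (fun x : Sp n => (⟪b, x⟫ : ℝ)) x b = ‖b‖ ^ 2 := by
    intro x
    rw [← gr_inner, gr_lin, real_inner_self_eq_norm_sq]
  have hlc : Continuous fun x : Sp n => (⟪b, x⟫ : ℝ) := (lin_smooth b).continuous
  have hc2 : Continuous fun x => 2 * (u x * fderiv ℝ u x b) :=
    continuous_const.mul (h.cont.mul (h.fcont.clm_apply continuous_const))
  have hk2 : HasCompactSupport fun x => 2 * (u x * fderiv ℝ u x b) := by
    have h1 : HasCompactSupport fun x => u x * fderiv ℝ u x b := h.comp.mul_right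
    exact h1.mul_left
  have h1 := integral_mul_fderiv_eq_neg_fderiv_mul_of_integrable (μ := (volume : Measure (Sp n)))
    (f := fun x : Sp n => (⟪b, x⟫ : ℝ)) (g := fun x => u x ^ 2) (v := b)
    (by
      simp_rw [hf]
      exact h.int_sq.const_mul _)
    (by
      simp_rw [hg]
      exact (hlc.mul hc2).integrable_of_hasCompactSupport hk2.mul_left)
    (by exact (hlc.mul (h.cont.pow 2)).integrable_of_hasCompactSupport h.csq.mul_left)
    (fun x _ => ((lin_smooth b).differentiable (by simp)) x)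
    (fun x _ => ((h.smooth.pow 2).differentiable (by simp)) x)
  simp_rw [hg, hf] at h1
  rw [integral_const_mul] at h1
  exact h1

/-- uncertainty principle in a direction -/
theorem heis (h : Test Ω u) (b : Sp n) (s : ℝ) :
    s * (‖b‖ ^ 2 * Ma u) - s ^ 2 * ∫ x, (fderiv ℝ u x b) ^ 2 ≤ ∫ x, (⟪b, x⟫ * u x) ^ 2 := by
  have hlc : Continuous fun x : Sp n => (⟪b, x⟫ : ℝ) := (lin_smooth b).continuous
  have h0 : 0 ≤ ∫ x, (⟪b, x⟫ * u x + s * fderiv ℝ u x b) ^ 2 := integral_nonneg fun _ => sq_nonneg _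
  have e : ∀ x, (⟪b, x⟫ * u x + s * fderiv ℝ u x b) ^ 2 = 1 * (⟪b, x⟫ * u x) ^ 2 +
      s * (⟪b, x⟫ * (2 * (u x * fderiv ℝ u x b))) + s ^ 2 * (fderiv ℝ u x b) ^ 2 :=
    fun x => by ring
  simp_rw [e] at h0
  have j1 : Integrable fun x => (⟪b, x⟫ * u x) ^ 2 := (h.mulp (lin_smooth b)).int_sq
  have j2 : Integrable fun x => (⟪b, x⟫ : ℝ) * (2 * (u x * fderiv ℝ u x b)) := by
    have hc2 : Continuous fun x => 2 * (u x * fderiv ℝ u x b) :=
      continuous_const.mul (h.cont.mul (h.fcont.clm_apply continuous_const))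
    have hk2 : HasCompactSupport fun x => 2 * (u x * fderiv ℝ u x b) := by
      have h1 : HasCompactSupport fun x => u x * fderiv ℝ u x b := h.comp.mul_right
      exact h1.mul_left
    exact (hlc.mul hc2).integrable_of_hasCompactSupport hk2.mul_left
  have j3 := h.int_dsq b
  rw [lin3 j1 j2 j3, ibp h b] at h0
  linarith

end Pool.Agent.Helper855DB
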