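import Pool.Agent.Helper855DB.PPW

/-! The trial space `(b₀ + b·x) φ` (helper855). -/

set_option autoImplicit false

open MeasureTheory Filter Topology Set
open scoped ENNReal NNReal RealInnerProductSpace

namespace Pool.Agent.Helper855DB

variable {n : ℕ} {Ω : Set (Sp n)} {φ : Sp n → ℝ}

/-- the trial map -/
noncomputable def TL (φ : Sp n → ℝ) : (ℝ × Sp n) →ₗ[ℝ] (Sp n → ℝ) where
  toFun p := fun x => (p.1 + ⟪p.2, x⟫) * φ x
  map_add' p q := by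
    ext x
    simp only [Prod.fst_add, Prod.snd_add, inner_add_left, Pi.add_apply]; ring
  map_smul' c p := by
    ext x
    simp only [Prod.smul_fst, Prod.smul_snd, real_inner_smul_left, Pi.smul_apply, smul_eq_mul,
      RingHom.id_apply]
    ring

theorem TL_apply (φ : Sp n → ℝ) (b0 : ℝ) (b x : Sp n) : TL φ (b0, b) x = (b0 + ⟪b, x⟫) * φ x := rfl

theorem ell_smooth (b0 : ℝ) (b : Sp n) : ContDiff ℝ (⊤ : ℕ∞) fun x : Sp n => b0 + ⟪b, x⟫ :=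
  contDiff_const.add (lin_smooth b)

theorem TL_test (h : Test Ω φ) (b0 : ℝ) (b : Sp n) : Test Ω (TL φ (b0, b)) := by
  have h1 := h.mulp (ell_smooth b0 b)
  exact h1

theorem gr_ell (b0 : ℝ) (b : Sp n) (x : Sp n) : gr (fun x => b0 + (⟪b, x⟫ : ℝ)) x = b := by
  refine ext_inner_right ℝ fun z => ?_
  rw [gr_inner]
  have h1 : HasFDerivAt (fun x : Sp n => b0 + (⟪b, x⟫ : ℝ)) (innerSL ℝ b) x :=
    (innerSL ℝ b).hasFDerivAt.const_add b0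
  rw [h1.fderiv]; rfl

theorem gr_TL (h : Test Ω φ) (b0 : ℝ) (b x : Sp n) :
    gr (TL φ (b0, b)) x = (b0 + ⟪b, x⟫) • gr φ x + φ x • b := by
  have h1 := gr_mul h (ell_smooth b0 b) x
  rw [gr_ell] at h1
  exact h1

/-- the quadratic trial function -/
noncomputable def et (φ : Sp n → ℝ) (b : Sp n) (x : Sp n) : ℝ := (⟪b, x⟫ : ℝ) ^ 2 * φ x

theorem et_test (h : Test Ω φ) (b : Sp n) : Test Ω (et φ b) := h.mulp ((lin_smooth b).pow 2)

theorem gr_et (h : Test Ω φ) (b x : Sp n) :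
    gr (et φ b) x = (⟪b, x⟫ : ℝ) ^ 2 • gr φ x + (2 * ⟪b, x⟫ * φ x) • b := by
  have h1 := gr_mul h ((lin_smooth b).pow 2) x
  have h2 : gr (fun x : Sp n => (⟪b, x⟫ : ℝ) ^ 2) x = (2 * ⟪b, x⟫) • b := by
    refine ext_inner_right ℝ fun z => ?_
    rw [gr_inner]
    have h3 : HasFDerivAt (fun x : Sp n => (⟪b, x⟫ : ℝ)) (innerSL ℝ b) x :=
      (innerSL ℝ b).hasFDerivAt
    have h4 := h3.pow 2
    have h5 : fderiv ℝ (fun x : Sp n => (⟪b, x⟫ : ℝ) ^ 2) x = (2 • (⟪b, x⟫ : ℝ) ^ (2 - 1)) • innerSL ℝ b :=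
      h4.fderiv
    rw [h5, real_inner_smul_left]
    simp only [smul_apply, smul_eq_mul, innerSL_apply_apply]
    norm_num
  rw [h2] at h1
  have e : et φ b = fun x => (⟪b, x⟫ : ℝ) ^ 2 * φ x := rfl
  rw [e, h1, smul_smul]
  congr 2; ring

theorem Ma_TL (h : Test Ω φ) (hev : ∀ x, φ (-x) = φ x) (b0 : ℝ) (b : Sp n) :
    Ma (TL φ (b0, b)) = b0 ^ 2 * Ma φ + ∫ x, (⟪b, x⟫ * φ x) ^ 2 := by
  have j2 : Integrable fun x => (⟪b, x⟫ * φ x) ^ 2 := (h.mulp (lin_smooth b)).int_sq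
  have j3 : Integrable fun x => (⟪b, x⟫ * φ x) * φ x := uv_int (h.mulp (lin_smooth b)) h
  have e : ∀ x, TL φ (b0, b) x ^ 2 = b0 ^ 2 * φ x ^ 2 + 1 * (⟪b, x⟫ * φ x) ^ 2 +
      (2 * b0) * ((⟪b, x⟫ * φ x) * φ x) := fun x => by rw [TL_apply]; ring
  unfold Ma
  simp_rw [e]
  rw [lin3 h.int_sq j2 j3, odd_int (f := fun x => (⟪b, x⟫ * φ x) * φ x)]
  · ring
  · intro x
    rw [hev, inner_neg_right]; ring

theorem En_TL (h : Test Ω φ) (hev : ∀ x, φ (-x) = φ x) (b0 : ℝ) (b : Sp n) :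
    En (TL φ (b0, b)) = b0 ^ 2 * En φ + BB φ (et φ b) + ‖b‖ ^ 2 * Ma φ := by
  have hlc : Continuous fun x : Sp n => (⟪b, x⟫ : ℝ) := (lin_smooth b).continuous
  have j4 : Integrable fun x => (⟪b, x⟫ * ‖gr φ x‖ ^ 2 + φ x * ⟪gr φ x, b⟫ : ℝ) := by
    refine Continuous.integrable_of_hasCompactSupport ?_ ?_
    · exact (hlc.mul ((gr_cont h).norm.pow 2)).add (h.cont.mul ((gr_cont h).inner continuous_const))
    · refine (gr_comp h).mono fun x hx => ?_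
      rw [Function.mem_support] at hx ⊢
      intro h0
      apply hx
      rw [h0]; simp
  have e : ∀ x, ‖fderiv ℝ (TL φ (b0, b)) x‖ ^ 2 = b0 ^ 2 * ‖fderiv ℝ φ x‖ ^ 2 +
      1 * ⟪gr φ x, gr (et φ b) x⟫ + ‖b‖ ^ 2 * φ x ^ 2 +
      (2 * b0) * (⟪b, x⟫ * ‖gr φ x‖ ^ 2 + φ x * ⟪gr φ x, b⟫) := by
    intro x
    rw [← gr_norm, gr_TL h, gr_et h, norm_add_sq_real, norm_smul, norm_smul, mul_pow, mul_pow,
      Real.norm_eq_abs, Real.norm_eq_abs, sq_abs, sq_abs, inner_smul_left, inner_smul_right,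
      inner_add_right, inner_smul_right, inner_smul_right, real_inner_self_eq_norm_sq, ← gr_norm]
    simp only [conj_trivial]
    ring
  have e2 : En (TL φ (b0, b)) = b0 ^ 2 * (∫ x, ‖fderiv ℝ φ x‖ ^ 2) +
      1 * (∫ x, (⟪gr φ x, gr (et φ b) x⟫ : ℝ)) + ‖b‖ ^ 2 * (∫ x, φ x ^ 2) +
      (2 * b0) * ∫ x, (⟪b, x⟫ * ‖gr φ x‖ ^ 2 + φ x * ⟪gr φ x, b⟫ : ℝ) := by
    rw [← lin4 h.int_fsq (gr_int h (et_test h b)) h.int_sq j4]
    unfold En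
    simp_rw [e]
  rw [e2, odd_int (f := fun x => (⟪b, x⟫ * ‖gr φ x‖ ^ 2 + φ x * ⟪gr φ x, b⟫ : ℝ))]
  · unfold En BB Ma; ring
  · intro x
    rw [gr_neg h hev, hev, inner_neg_right, norm_neg, inner_neg_left]; ring

theorem et_mass (b : Sp n) : ∫ x, φ x * et φ b x = ∫ x, (⟪b, x⟫ * φ x) ^ 2 := by
  refine integral_congr_ae (Eventually.of_forall fun x => ?_)
  simp only [et]; ring

/-- crude bound of the energy of the quadratic trial function -/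
theorem En_et {r : ℝ} (h : Test (Metric.ball (0 : Sp n) r) φ) (b : Sp n) :
    En (et φ b) ≤ ‖b‖ ^ 4 * (2 * r ^ 4 * En φ + 8 * r ^ 2 * Ma φ) := by
  have pt : ∀ x, ‖fderiv ℝ (et φ b) x‖ ^ 2 ≤ (2 * ‖b‖ ^ 4 * r ^ 4) * ‖fderiv ℝ φ x‖ ^ 2 +
      (8 * ‖b‖ ^ 4 * r ^ 2) * φ x ^ 2 := by
    intro x
    rw [← gr_norm, gr_et h]
    by_cases hx : x ∈ tsupport φ
    · have hr := h.supp hx
      rw [Metric.mem_ball, dist_zero_right] at hr
      have ha : (⟪b, x⟫ : ℝ) ^ 2 ≤ ‖b‖ ^ 2 * r ^ 2 := by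
        have h1 := abs_real_inner_le_norm b x
        have h2 : ‖b‖ * ‖x‖ ≤ ‖b‖ * r := mul_le_mul_of_nonneg_left hr.le (norm_nonneg b)
        rw [← sq_abs, ← mul_pow]
        exact pow_le_pow_left₀ (abs_nonneg _) (h1.trans h2) 2
      have h3 : ‖(⟪b, x⟫ : ℝ) ^ 2 • gr φ x + (2 * ⟪b, x⟫ * φ x) • b‖ ^ 2 ≤
          2 * ‖(⟪b, x⟫ : ℝ) ^ 2 • gr φ x‖ ^ 2 + 2 * ‖(2 * ⟪b, x⟫ * φ x) • b‖ ^ 2 := by
        have h4 := norm_add_le ((⟪b, x⟫ : ℝ) ^ 2 • gr φ x) ((2 * ⟪b, x⟫ * φ x) • b)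
        have h5 := pow_le_pow_left₀ (norm_nonneg _) h4 2
        nlinarith [sq_nonneg (‖(⟪b, x⟫ : ℝ) ^ 2 • gr φ x‖ - ‖(2 * ⟪b, x⟫ * φ x) • b‖)]
      refine h3.trans ?_
      rw [norm_smul, norm_smul, mul_pow, mul_pow, Real.norm_eq_abs, Real.norm_eq_abs, sq_abs,
        sq_abs, gr_norm]
      have h6 : ((⟪b, x⟫ : ℝ) ^ 2) ^ 2 ≤ (‖b‖ ^ 2 * r ^ 2) ^ 2 :=
        pow_le_pow_left₀ (sq_nonneg _) ha 2
      have h7 : 2 * (((⟪b, x⟫ : ℝ) ^ 2) ^ 2 * ‖fderiv ℝ φ x‖ ^ 2) ≤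
          (2 * ‖b‖ ^ 4 * r ^ 4) * ‖fderiv ℝ φ x‖ ^ 2 := by
        have := mul_le_mul_of_nonneg_right h6 (sq_nonneg ‖fderiv ℝ φ x‖)
        nlinarith
      have h8 : 2 * ((2 * ⟪b, x⟫ * φ x) ^ 2 * ‖b‖ ^ 2) ≤ (8 * ‖b‖ ^ 4 * r ^ 2) * φ x ^ 2 := by
        have := mul_le_mul_of_nonneg_right ha (mul_nonneg (sq_nonneg (φ x)) (sq_nonneg ‖b‖))
        nlinarith
      linarith
    · have h1 : φ x = 0 := image_eq_zero_of_notMem_tsupport hx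
      have h2 : fderiv ℝ φ x = 0 := by
        by_contra h3
        exact hx (tsupport_fderiv_subset ℝ (subset_tsupport _ h3))
      have h3 : gr φ x = 0 := by
        unfold gr; rw [h2]; simp
      rw [h1, h3, h2]; simp
  have h1 : En (et φ b) ≤ ∫ x, ((2 * ‖b‖ ^ 4 * r ^ 4) * ‖fderiv ℝ φ x‖ ^ 2 +
      (8 * ‖b‖ ^ 4 * r ^ 2) * φ x ^ 2) :=
    integral_mono (et_test h b).int_fsq ((h.int_fsq.const_mul _).add (h.int_sq.const_mul _)) pt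
  rw [lin2 h.int_fsq h.int_sq] at h1
  refine h1.trans (le_of_eq ?_)
  unfold En Ma; ring

theorem dir_all (hn : 1 ≤ n) (h : Test Ω φ)
    (hinv : ∀ (σ : Sp n ≃ₗᵢ[ℝ] Sp n) x, φ (σ x) = φ x) (b : Sp n) :
    ∫ x, (fderiv ℝ φ x b) ^ 2 = ‖b‖ ^ 2 * (En φ / n) := by
  by_cases hb : b = 0
  · rw [hb]; simp
  · have hN : 0 < ‖b‖ := norm_pos_iff.2 hb
    have h1 : ‖(‖b‖⁻¹ • b)‖ = 1 := by
      rw [norm_smul, norm_inv, norm_norm, inv_mul_cancel₀ hN.ne']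
    rw [← dir_eq hn h hinv h1, ← integral_const_mul]
    refine integral_congr_ae (Eventually.of_forall fun x => ?_)
    simp only
    rw [map_smul, smul_eq_mul, mul_pow, ← mul_assoc, ← mul_pow, mul_inv_cancel₀ hN.ne', one_pow,
      one_mul]

/-- the trial space gives an admissible level -/
theorem trial (hn : 1 ≤ n) {r : ℝ} {L ε s : ℝ} (hL0 : 0 ≤ L) (hε : 0 < ε) (hs : 0 < s)
    (hL : ∀ w : Sp n → ℝ, Test (Metric.ball (0 : Sp n) r) w → L * Ma w ≤ En w)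
    (h : Test (Metric.ball (0 : Sp n) r) φ)
    (hinv : ∀ (σ : Sp n ≃ₗᵢ[ℝ] Sp n) x, φ (σ x) = φ x) (hM : 0 < Ma φ)
    (hE : En φ ≤ (L + ε) * Ma φ) :
    L + (ε + (1 + (ε / (2 * s) + s / 2 * (2 * r ^ 4 * (L + ε) + 8 * r ^ 2))) *
      (4 / n * (L + ε))) ∈ Adm (n + 1) (Metric.ball (0 : Sp n) r) := by
  have hn0 : (0:ℝ) < n := by exact_mod_cast hn
  have hev : ∀ x, φ (-x) = φ x := fun x => by
    simpa using hinv (LinearIsometryEquiv.neg ℝ) x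
  set K : ℝ := 2 * r ^ 4 * (L + ε) + 8 * r ^ 2 with hK
  have hK0 : 0 ≤ K := by positivity
  set δ : ℝ := ε / (2 * s) + s / 2 * K with hδ
  have hδ0 : 0 ≤ δ := by positivity
  -- uncertainty
  have hH : ∀ b : Sp n, ‖b‖ ^ 2 * Ma φ ≤ 4 / n * (L + ε) * ∫ x, (⟪b, x⟫ * φ x) ^ 2 := by
    intro b
    have h1 := heis h b (n / (2 * (L + ε)))
    rw [dir_all hn h hinv b] at h1
    have hLe : 0 < L + ε := by linarith
    have h2 : ‖b‖ ^ 2 * (En φ / n) ≤ ‖b‖ ^ 2 * ((L + ε) * Ma φ / n) := by gcongr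
    have h3 : (n / (2 * (L + ε))) ^ 2 * (‖b‖ ^ 2 * (En φ / n)) ≤
        (n / (2 * (L + ε))) ^ 2 * (‖b‖ ^ 2 * ((L + ε) * Ma φ / n)) :=
      mul_le_mul_of_nonneg_left h2 (sq_nonneg _)
    have h4 : n / (2 * (L + ε)) * (‖b‖ ^ 2 * Ma φ) -
        (n / (2 * (L + ε))) ^ 2 * (‖b‖ ^ 2 * ((L + ε) * Ma φ / n)) =
        n / (4 * (L + ε)) * (‖b‖ ^ 2 * Ma φ) := by field_simp; ring
    have h5 : n / (4 * (L + ε)) * (‖b‖ ^ 2 * Ma φ) ≤ ∫ x, (⟪b, x⟫ * φ x) ^ 2 := by linarith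
    have h6 := mul_le_mul_of_nonneg_left h5 (show 0 ≤ 4 / n * (L + ε) by positivity)
    have h7 : 4 / n * (L + ε) * (n / (4 * (L + ε)) * (‖b‖ ^ 2 * Ma φ)) = ‖b‖ ^ 2 * Ma φ := by
      field_simp
    rwa [h7] at h6
  -- cross term
  have hX : ∀ b : Sp n, BB φ (et φ b) - L * ∫ x, (⟪b, x⟫ * φ x) ^ 2 ≤ ‖b‖ ^ 2 * (δ * Ma φ) := by
    intro b
    by_cases hb : b = 0
    · have e1 : et φ b = fun _ => 0 := by ext x; unfold et; rw [hb]; simp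
      have e2 : BB φ (et φ b) = 0 := by
        unfold BB gr; rw [e1]; simp
      rw [e2, hb]; simp
    · have hN : 0 < ‖b‖ := norm_pos_iff.2 hb
      have h1 := cross_le hL h (et_test h b) (s := s / ‖b‖ ^ 2) (by positivity)
      rw [et_mass] at h1
      have h2 : En φ - L * Ma φ ≤ ε * Ma φ := by linarith
      have h3 : (En φ - L * Ma φ) / (s / ‖b‖ ^ 2) ≤ ε * Ma φ / (s / ‖b‖ ^ 2) := by gcongr
      have h4 : En (et φ b) - L * Ma (et φ b) ≤ ‖b‖ ^ 4 * (K * Ma φ) := by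
        have h5 := En_et h b
        have h6 : 0 ≤ L * Ma (et φ b) := mul_nonneg hL0 (Ma_nonneg _)
        have h7 : 2 * r ^ 4 * En φ + 8 * r ^ 2 * Ma φ ≤ K * Ma φ := by
          rw [hK]
          have := mul_le_mul_of_nonneg_left hE (show 0 ≤ 2 * r ^ 4 by positivity)
          linarith
        have h8 := mul_le_mul_of_nonneg_left h7 (show 0 ≤ ‖b‖ ^ 4 by positivity)
        linarith
      have h5 : s / ‖b‖ ^ 2 * (En (et φ b) - L * Ma (et φ b)) ≤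
          s / ‖b‖ ^ 2 * (‖b‖ ^ 4 * (K * Ma φ)) := mul_le_mul_of_nonneg_left h4 (by positivity)
      have h6 : ε * Ma φ / (s / ‖b‖ ^ 2) + s / ‖b‖ ^ 2 * (‖b‖ ^ 4 * (K * Ma φ)) =
          2 * (‖b‖ ^ 2 * (δ * Ma φ)) := by
        rw [hδ]; field_simp
      linarith
  set c : ℝ := ε + (1 + δ) * (4 / n * (L + ε)) with hc
  -- the form inequality
  have hmain : ∀ p : ℝ × Sp n, En (TL φ p) ≤ (L + c) * Ma (TL φ p) := by
    rintro ⟨b0, b⟩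
    rw [En_TL h hev, Ma_TL h hev]
    set A : ℝ := ∫ x, (⟪b, x⟫ * φ x) ^ 2 with hA
    have hA0 : 0 ≤ A := integral_nonneg fun _ => sq_nonneg _
    have h1 := hX b
    have h2 := hH b
    rw [← hA] at h1 h2
    have h3 : b0 ^ 2 * En φ ≤ b0 ^ 2 * ((L + ε) * Ma φ) :=
      mul_le_mul_of_nonneg_left hE (sq_nonneg _)
    have h4 : (1 + δ) * (‖b‖ ^ 2 * Ma φ) ≤ (1 + δ) * (4 / n * (L + ε) * A) :=
      mul_le_mul_of_nonneg_left h2 (by linarith)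
    have h5 : 0 ≤ (1 + δ) * (4 / n * (L + ε)) := by positivity
    have h6 : 0 ≤ (1 + δ) * (4 / n * (L + ε)) * (b0 ^ 2 * Ma φ) := by positivity
    have h7 : 0 ≤ ε * A := by positivity
    rw [hc]
    nlinarith
  have hinj : Function.Injective (TL φ) := by
    rw [injective_iff_map_eq_zero]
    rintro ⟨b0, b⟩ h0
    have h1 : Ma (TL φ (b0, b)) = 0 := by rw [h0]; unfold Ma; simp
    rw [Ma_TL h hev] at h1
    have hA0 : 0 ≤ ∫ x, (⟪b, x⟫ * φ x) ^ 2 := integral_nonneg fun _ => sq_nonneg _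
    have h2 : 0 ≤ b0 ^ 2 * Ma φ := by positivity
    have h3 : b0 ^ 2 * Ma φ = 0 := by linarith
    have h4 : ∫ x, (⟪b, x⟫ * φ x) ^ 2 = 0 := by linarith
    have h5 := hH b
    rw [h4, mul_zero] at h5
    have h6 : b0 = 0 := by
      rcases mul_eq_zero.1 h3 with h7 | h7
      · exact pow_eq_zero_iff two_ne_zero |>.1 h7
      · exact absurd h7 hM.ne'
    have h7 : b = 0 := by
      by_contra hb
      have hN : 0 < ‖b‖ := norm_pos_iff.2 hb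
      have : 0 < ‖b‖ ^ 2 * Ma φ := by positivity
      linarith
    rw [h6, h7]; rfl
  refine ⟨LinearMap.range (TL φ), ?_, ?_⟩
  · rw [LinearMap.finrank_range_of_inj hinj, Module.finrank_prod]
    simp [add_comm]
  · rintro v ⟨⟨b0, b⟩, rfl⟩
    have hT := TL_test h b0 b
    exact ⟨hT.smooth, hT.comp, hT.supp, hmain (b0, b)⟩

/-- the bound for the ball -/
theorem ball_level (hn : 1 ≤ n) {r : ℝ} (hr : 0 < r) :
    lam (n + 1) (Metric.ball (0 : Sp n) r) ≤ (1 + 4 / n) * lam 1 (Metric.ball (0 : Sp n) r) := by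
  set L := lam 1 (Metric.ball (0 : Sp n) r) with hL
  have hL0 : 0 ≤ L := lam_nonneg le_rfl
  have key : ∀ s : ℝ, 0 < s → lam (n + 1) (Metric.ball (0 : Sp n) r) ≤
      L + (s ^ 2 + (1 + (s / 2 + s / 2 * (2 * r ^ 4 * (L + s ^ 2) + 8 * r ^ 2))) *
      (4 / n * (L + s ^ 2))) := by
    intro s hs
    have hs2 : 0 < s ^ 2 := by positivity
    obtain ⟨φ, hφ, hinv, hM, hE⟩ := exists_radial_near hn hr hs2
    have h1 := trial hn hL0 hs2 hs (fun w hw => lam_one_le hw) hφ hinv hM hE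
    have e : s ^ 2 / (2 * s) = s / 2 := by field_simp
    rw [e] at h1
    exact csInf_le (adm_bdd (by omega)) h1
  have hlim : Tendsto (fun s : ℝ => L + (s ^ 2 + (1 + (s / 2 + s / 2 *
      (2 * r ^ 4 * (L + s ^ 2) + 8 * r ^ 2))) * (4 / n * (L + s ^ 2)))) (𝓝[>] 0)
      (𝓝 (L + ((0:ℝ) ^ 2 + (1 + ((0:ℝ) / 2 + (0:ℝ) / 2 *
      (2 * r ^ 4 * (L + (0:ℝ) ^ 2) + 8 * r ^ 2))) * (4 / n * (L + (0:ℝ) ^ 2))))) := by
    refine Tendsto.mono_left ?_ nhdsWithin_le_nhds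
    have hc : Continuous fun s : ℝ => L + (s ^ 2 + (1 + (s / 2 + s / 2 *
      (2 * r ^ 4 * (L + s ^ 2) + 8 * r ^ 2))) * (4 / n * (L + s ^ 2))) := by fun_prop
    exact hc.tendsto 0
  have h2 := ge_of_tendsto hlim (by
    filter_upwards [self_mem_nhdsWithin] with s hs
    exact key s hs)
  refine h2.trans (le_of_eq ?_)
  ring

theorem adm_ball_nonempty (hn : 1 ≤ n) {r : ℝ} (hr : 0 < r) :
    (Adm (n + 1) (Metric.ball (0 : Sp n) r)).Nonempty := by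
  obtain ⟨φ, hφ, hinv, hM, hE⟩ := exists_radial_near hn hr one_pos
  exact ⟨_, trial hn (lam_nonneg le_rfl) one_pos one_pos (fun w hw => lam_one_le hw) hφ hinv hM hE⟩

end Pool.Agent.Helper855DB
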