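import Mathlib

/-! Reflections in affine hyperplanes and polarization of functions (helper855). -/

set_option autoImplicit false

open MeasureTheory Filter Topology Set
open scoped ENNReal NNReal RealInnerProductSpace

namespace Pool.Agent.Helper855DB

/-- Euclidean space. -/
abbrev Sp (n : ℕ) := EuclideanSpace ℝ (Fin n)

variable {n : ℕ}

/-- signed distance to the affine hyperplane -/
noncomputable def lf (ν : Sp n) (c : ℝ) (y : Sp n) : ℝ := ⟪y, ν⟫ + c

/-- reflection in the affine hyperplane `⟪y, ν⟫ + c = 0` -/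
noncomputable def rf (ν : Sp n) (c : ℝ) (y : Sp n) : Sp n := y - (2 * lf ν c y) • ν

/-- polarization -/
noncomputable def pol (ν : Sp n) (c : ℝ) (w : Sp n → ℝ) (y : Sp n) : ℝ :=
  if 0 ≤ lf ν c y then max (w y) (w (rf ν c y)) else min (w y) (w (rf ν c y))

variable {ν : Sp n} {c : ℝ}

theorem inner_self_one (hν : ‖ν‖ = 1) : ⟪ν, ν⟫ = (1:ℝ) := by
  rw [real_inner_self_eq_norm_sq, hν]; norm_num

theorem lf_rf (hν : ‖ν‖ = 1) (y : Sp n) : lf ν c (rf ν c y) = - lf ν c y := by
  unfold rf lf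
  rw [inner_sub_left, inner_smul_left, inner_self_one hν]
  simp only [conj_trivial]
  ring

theorem rf_rf (hν : ‖ν‖ = 1) (y : Sp n) : rf ν c (rf ν c y) = y := by
  have h := lf_rf (c := c) hν y
  rw [rf, h, rf]
  module

theorem rf_eq_self (y : Sp n) (h : lf ν c y = 0) : rf ν c y = y := by
  rw [rf, h]; simp

theorem dist_rf_sq (hν : ‖ν‖ = 1) (x y : Sp n) :
    dist x (rf ν c y) ^ 2 = dist x y ^ 2 + 4 * (lf ν c x * lf ν c y) := by
  rw [dist_eq_norm, dist_eq_norm]
  have e : x - rf ν c y = (x - y) + (2 * lf ν c y) • ν := by unfold rf; abel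
  rw [e, norm_add_sq_real, norm_smul, inner_smul_right, hν, inner_sub_left, mul_one,
    Real.norm_eq_abs, sq_abs]
  unfold lf
  ring

theorem norm_rf_sq (hν : ‖ν‖ = 1) (y : Sp n) :
    ‖rf ν c y‖ ^ 2 = ‖y‖ ^ 2 + 4 * c * lf ν c y := by
  have h := dist_rf_sq (c := c) hν 0 y
  rw [dist_zero_left, dist_zero_left] at h
  rw [h]
  unfold lf
  rw [inner_zero_left]
  ring

theorem dist_rf_rf (hν : ‖ν‖ = 1) (x y : Sp n) : dist (rf ν c x) (rf ν c y) = dist x y := by
  have h := dist_rf_sq (c := c) hν (rf ν c x) y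
  have h2 := dist_rf_sq (c := c) hν y x
  rw [lf_rf hν] at h
  rw [dist_comm] at h2
  have h3 : dist (rf ν c x) (rf ν c y) ^ 2 = dist x y ^ 2 := by
    rw [h, h2, dist_comm y x]; ring
  exact (sq_eq_sq₀ dist_nonneg dist_nonneg).1 h3

theorem dist_le_dist_rf (hν : ‖ν‖ = 1) {x y : Sp n} (h : 0 ≤ lf ν c x * lf ν c y) :
    dist x y ≤ dist x (rf ν c y) := by
  refine le_of_sq_le_sq ?_ dist_nonneg
  rw [dist_rf_sq hν]; linarith

theorem dist_rf_le (hν : ‖ν‖ = 1) {x y : Sp n} (h : lf ν c x * lf ν c y ≤ 0) :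
    dist x (rf ν c y) ≤ dist x y := by
  refine le_of_sq_le_sq ?_ dist_nonneg
  rw [dist_rf_sq hν]; linarith

theorem dist_rf_comm (hν : ‖ν‖ = 1) (x y : Sp n) : dist (rf ν c x) y = dist x (rf ν c y) := by
  rw [← dist_rf_rf (c := c) hν x (rf ν c y), rf_rf hν]

theorem lf_cont : Continuous (lf ν c) := by unfold lf; fun_prop

theorem rf_cont : Continuous (rf ν c) := by unfold rf; exact continuous_id.sub ((continuous_const.mul lf_cont).smul continuous_const)

theorem rf_mp (hν : ‖ν‖ = 1) : MeasurePreserving (rf ν c) volume volume := by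
  have key : ∀ y, rf ν c y = (ℝ ∙ ν)ᗮ.reflection y - (2 * c) • ν := by
    intro y
    rw [Submodule.reflection_orthogonal_apply, Submodule.reflection_singleton_apply]
    rw [hν]
    simp only [RCLike.ofReal_one, one_pow, div_one]
    unfold rf lf
    rw [real_inner_comm y ν]
    module
  have h1 := ((ℝ ∙ ν)ᗮ.reflection : Sp n ≃ₗᵢ[ℝ] Sp n).measurePreserving
  have h2 := (measurePreserving_sub_right volume ((2 * c) • ν)).comp h1
  have e : rf ν c = (fun x => x - (2 * c) • ν) ∘ ((ℝ ∙ ν)ᗮ.reflection : Sp n ≃ₗᵢ[ℝ] Sp n) := by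
    funext y
    exact key y
  rw [e]
  exact h2

theorem lint_rf (hν : ‖ν‖ = 1) {F : Sp n → ℝ≥0∞} (hF : Measurable F) :
    ∫⁻ y, F (rf ν c y) = ∫⁻ y, F y :=
  (rf_mp hν).lintegral_comp hF

/-- the values of the polarization at a pair of points -/
theorem pol_pair (hν : ‖ν‖ = 1) (w : Sp n → ℝ) (y : Sp n) :
    (pol ν c w y = w y ∧ pol ν c w (rf ν c y) = w (rf ν c y)) ∨
    (pol ν c w y = w (rf ν c y) ∧ pol ν c w (rf ν c y) = w y) := by
  unfold pol
  rw [lf_rf hν, rf_rf hν]
  rcases lt_trichotomy (lf ν c y) 0 with h | h | h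
  · rw [if_neg (not_le.2 h), if_pos (by linarith)]
    rcases le_total (w y) (w (rf ν c y)) with h1 | h1
    · left; rw [min_eq_left h1, max_eq_left h1]; exact ⟨rfl, rfl⟩
    · right; rw [min_eq_right h1, max_eq_right h1]; exact ⟨rfl, rfl⟩
  · rw [rf_eq_self y h]; left; rw [h]; simp
  · rw [if_pos h.le, if_neg (by linarith)]
    rcases le_total (w y) (w (rf ν c y)) with h1 | h1
    · right; rw [max_eq_right h1, min_eq_right h1]; exact ⟨rfl, rfl⟩
    · left; rw [max_eq_left h1, min_eq_left h1]; exact ⟨rfl, rfl⟩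

theorem pol_sum (hν : ‖ν‖ = 1) (w : Sp n → ℝ) (F : ℝ → ℝ≥0∞) (y : Sp n) :
    F (pol ν c w y) + F (pol ν c w (rf ν c y)) = F (w y) + F (w (rf ν c y)) := by
  rcases pol_pair (c := c) hν w y with ⟨h1, h2⟩ | ⟨h1, h2⟩
  · rw [h1, h2]
  · rw [h1, h2, add_comm]

theorem pol_meas {w : Sp n → ℝ} (hw : Measurable w) : Measurable (pol ν c w) := by
  unfold pol
  have h1 : Measurable (fun y => w (rf ν c y)) := hw.comp rf_cont.measurable
  refine Measurable.ite ?_ (hw.max h1) (hw.min h1)
  exact measurableSet_le measurable_const lf_cont.measurable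

/-- equimeasurability -/
theorem pol_lint (hν : ‖ν‖ = 1) {w : Sp n → ℝ} (hw : Measurable w) {F : ℝ → ℝ≥0∞}
    (hF : Measurable F) : ∫⁻ y, F (pol ν c w y) = ∫⁻ y, F (w y) := by
  have hp := pol_meas (ν := ν) (c := c) hw
  have h1 := lint_rf (c := c) hν (hF.comp hp)
  have h2 := lint_rf (c := c) hν (hF.comp hw)
  simp only [Function.comp_apply] at h1 h2
  have h3 : ∫⁻ y, (F (pol ν c w y) + F (pol ν c w (rf ν c y))) =
      ∫⁻ y, (F (w y) + F (w (rf ν c y))) := by
    refine lintegral_congr fun y => pol_sum hν w F y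
  have m1 : Measurable fun y => F (pol ν c w y) := hF.comp hp
  have m2 : Measurable fun y => F (w y) := hF.comp hw
  rw [lintegral_add_left m1, lintegral_add_left m2] at h3
  rw [h1, h2, ← two_mul, ← two_mul] at h3
  exact (ENNReal.mul_right_inj two_ne_zero (by simp)).1 h3

theorem abs_max_sub_max_le' {a b c d ε : ℝ} (h1 : |a - c| ≤ ε) (h2 : |b - d| ≤ ε) :
    |max a b - max c d| ≤ ε := by
  rw [abs_le] at *
  constructor
  · rcases le_total c d with h | h
    · rw [max_eq_right h]; have := le_max_right a b; linarith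
    · rw [max_eq_left h]; have := le_max_left a b; linarith
  · rcases le_total a b with h | h
    · rw [max_eq_right h]; have := le_max_right c d; linarith
    · rw [max_eq_left h]; have := le_max_left c d; linarith

theorem abs_min_sub_min_le' {a b c d ε : ℝ} (h1 : |a - c| ≤ ε) (h2 : |b - d| ≤ ε) :
    |min a b - min c d| ≤ ε := by
  rw [abs_le] at *
  constructor
  · rcases le_total a b with h | h
    · rw [min_eq_left h]; have := min_le_left c d; linarith
    · rw [min_eq_right h]; have := min_le_right c d; linarith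
  · rcases le_total c d with h | h
    · rw [min_eq_left h]; have := min_le_left a b; linarith
    · rw [min_eq_right h]; have := min_le_right a b; linarith

theorem abs_max_sub_min_le' {a b c d ε : ℝ} (h1 : |a - c| ≤ ε) (h2 : |b - d| ≤ ε)
    (h3 : |a - d| ≤ ε) (h4 : |b - c| ≤ ε) : |max a b - min c d| ≤ ε := by
  rcases max_choice a b with h | h <;> rcases min_choice c d with h' | h' <;> rw [h, h'] <;>
    assumption

theorem pol_mod (hν : ‖ν‖ = 1) {w : Sp n → ℝ} {ε t : ℝ}
    (hw : ∀ y z, dist y z < t → |w y - w z| ≤ ε) {y z : Sp n} (hyz : dist y z < t) :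
    |pol ν c w y - pol ν c w z| ≤ ε := by
  have h1 := hw y z hyz
  have h2 : |w (rf ν c y) - w (rf ν c z)| ≤ ε := hw _ _ (by rwa [dist_rf_rf hν])
  have cross : ∀ x x' : Sp n, dist x x' < t → lf ν c x * lf ν c x' ≤ 0 →
      |w x - w (rf ν c x')| ≤ ε := fun x x' hx hx' =>
    hw _ _ ((dist_rf_le hν hx').trans_lt hx)
  unfold pol
  by_cases hy : 0 ≤ lf ν c y
  · by_cases hz : 0 ≤ lf ν c z
    · rw [if_pos hy, if_pos hz]; exact abs_max_sub_max_le' h1 h2
    · rw [if_pos hy, if_neg hz]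
      push Not at hz
      refine abs_max_sub_min_le' h1 h2 (cross y z hyz (mul_nonpos_of_nonneg_of_nonpos hy hz.le)) ?_
      have := cross z y (by rwa [dist_comm]) (mul_nonpos_of_nonpos_of_nonneg hz.le hy)
      rwa [abs_sub_comm] at this
  · by_cases hz : 0 ≤ lf ν c z
    · rw [if_neg hy, if_pos hz, abs_sub_comm]
      push Not at hy
      rw [abs_sub_comm] at h1 h2
      refine abs_max_sub_min_le' h1 h2 (cross z y (by rwa [dist_comm])
        (mul_nonpos_of_nonneg_of_nonpos hz hy.le)) ?_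
      have := cross y z hyz (mul_nonpos_of_nonpos_of_nonneg hy.le hz)
      rwa [abs_sub_comm] at this
    · rw [if_neg hy, if_neg hz]; exact abs_min_sub_min_le' h1 h2

end Pool.Agent.Helper855DB
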