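import Pool.Agent.Helper855DB.Trans

/-! Splitting test functions over disjoint open pieces (helper855). -/

set_option autoImplicit false

open MeasureTheory Filter Topology Set
open scoped ENNReal NNReal RealInnerProductSpace

namespace Pool.Agent.Helper855DB

variable {n : ℕ} {U V : Set (Sp n)} {u : Sp n → ℝ}

theorem ind_eventually (hU : IsOpen U) (hV : IsOpen V) (hd : Disjoint U V)
    (h : Test (U ∪ V) u) (x : Sp n) :
    (x ∈ U ∧ U.indicator u =ᶠ[𝓝 x] u) ∨ (x ∉ U ∧ U.indicator u =ᶠ[𝓝 x] fun _ => 0) := by
  by_cases hx : x ∈ U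
  · left
    refine ⟨hx, ?_⟩
    filter_upwards [hU.mem_nhds hx] with y hy
    exact indicator_of_mem hy u
  · right
    refine ⟨hx, ?_⟩
    by_cases hxV : x ∈ V
    · filter_upwards [hV.mem_nhds hxV] with y hy
      exact indicator_of_notMem (fun h1 => (Set.disjoint_left.1 hd) h1 hy) u
    · have hxs : x ∉ tsupport u := fun h1 => by
        rcases h.supp h1 with h2 | h2
        · exact hx h2
        · exact hxV h2
      filter_upwards [(isClosed_tsupport u).isOpen_compl.mem_nhds hxs] with y hy
      by_cases hyU : y ∈ U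
      · rw [indicator_of_mem hyU]; exact image_eq_zero_of_notMem_tsupport hy
      · exact indicator_of_notMem hyU u

theorem ind_test (hU : IsOpen U) (hV : IsOpen V) (hd : Disjoint U V) (h : Test (U ∪ V) u) :
    Test U (U.indicator u) := by
  have hsm : ContDiff ℝ (⊤ : ℕ∞) (U.indicator u) := by
    rw [contDiff_iff_contDiffAt]
    intro x
    rcases ind_eventually hU hV hd h x with ⟨-, h1⟩ | ⟨-, h1⟩
    · exact h.smooth.contDiffAt.congr_of_eventuallyEq h1
    · exact contDiffAt_const.congr_of_eventuallyEq h1
  have hs : Function.support (U.indicator u) ⊆ tsupport u := by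
    intro x hx
    rw [Function.mem_support] at hx
    refine subset_tsupport u ?_
    rw [Function.mem_support]
    intro h0
    apply hx
    by_cases hxU : x ∈ U
    · rw [indicator_of_mem hxU, h0]
    · exact indicator_of_notMem hxU u
  refine ⟨hsm, HasCompactSupport.of_support_subset_isCompact h.comp.isCompact hs, ?_⟩
  intro x hx
  by_contra hxU
  rcases ind_eventually hU hV hd h x with ⟨h0, -⟩ | ⟨-, h1⟩
  · exact hxU h0
  · have h2 : U.indicator u =ᶠ[𝓝 x] 0 := h1
    rw [← notMem_tsupport_iff_eventuallyEq] at h2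
    exact h2 hx

theorem ind_fderiv (hU : IsOpen U) (hV : IsOpen V) (hd : Disjoint U V) (h : Test (U ∪ V) u)
    (x : Sp n) : fderiv ℝ (U.indicator u) x = U.indicator (fderiv ℝ u) x := by
  rcases ind_eventually hU hV hd h x with ⟨h0, h1⟩ | ⟨h0, h1⟩
  · rw [h1.fderiv_eq, indicator_of_mem h0]
  · rw [h1.fderiv_eq, indicator_of_notMem h0]; simp

theorem split_Ma (hU : IsOpen U) (hV : IsOpen V) (hd : Disjoint U V) (h : Test (U ∪ V) u) :
    Ma u = Ma (U.indicator u) + Ma (V.indicator u) := by
  have hV' : Test V (V.indicator u) := ind_test hV hU hd.symm (by rwa [union_comm])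
  unfold Ma
  rw [← integral_add (ind_test hU hV hd h).int_sq hV'.int_sq]
  refine integral_congr_ae (Eventually.of_forall fun x => ?_)
  simp only
  by_cases hxU : x ∈ U
  · have hxV : x ∉ V := Set.disjoint_left.1 hd hxU
    rw [indicator_of_mem hxU, indicator_of_notMem hxV]; ring
  · by_cases hxV : x ∈ V
    · rw [indicator_of_mem hxV, indicator_of_notMem hxU]; ring
    · have h0 : u x = 0 := by
        refine image_eq_zero_of_notMem_tsupport fun h1 => ?_
        rcases h.supp h1 with h2 | h2
        · exact hxU h2
        · exact hxV h2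
      rw [indicator_of_notMem hxV, indicator_of_notMem hxU, h0]; ring

theorem split_En (hU : IsOpen U) (hV : IsOpen V) (hd : Disjoint U V) (h : Test (U ∪ V) u) :
    En u = En (U.indicator u) + En (V.indicator u) := by
  have h' : Test (V ∪ U) u := by rwa [union_comm]
  have hV' : Test V (V.indicator u) := ind_test hV hU hd.symm h'
  unfold En
  rw [← integral_add (ind_test hU hV hd h).int_fsq hV'.int_fsq]
  refine integral_congr_ae (Eventually.of_forall fun x => ?_)
  simp only
  rw [ind_fderiv hU hV hd h, ind_fderiv hV hU hd.symm h']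
  by_cases hxU : x ∈ U
  · have hxV : x ∉ V := Set.disjoint_left.1 hd hxU
    rw [indicator_of_mem hxU, indicator_of_notMem hxV]; simp
  · by_cases hxV : x ∈ V
    · rw [indicator_of_mem hxV, indicator_of_notMem hxU]; simp
    · have h0 : fderiv ℝ u x = 0 := by
        by_contra h3
        have h1 := tsupport_fderiv_subset ℝ (subset_tsupport _ h3)
        rcases h.supp h1 with h2 | h2
        · exact hxU h2
        · exact hxV h2
      rw [indicator_of_notMem hxV, indicator_of_notMem hxU, h0]; simp

/-- if one piece has a large lowest level, the admissible levels come from the other piece -/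
theorem adm_split (hU : IsOpen U) (hV : IsOpen V) (hd : Disjoint U V) {k : ℕ} {c M : ℝ}
    (hc : c ∈ Adm k (U ∪ V)) (hcM : c < M) (hM : ∀ w, Test V w → M * Ma w ≤ En w) :
    c ∈ Adm k U := by
  obtain ⟨W, hW1, hW2⟩ := hc
  let T : (Sp n → ℝ) →ₗ[ℝ] (Sp n → ℝ) :=
    { toFun := fun f => U.indicator f
      map_add' := fun f g => Set.indicator_add U f g
      map_smul' := fun a f => by
        simp only [RingHom.id_apply]
        exact Set.indicator_const_smul U a f }
  have hTapp : ∀ f, T f = U.indicator f := fun f => rfl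
  have key : ∀ w ∈ W, Test U (U.indicator w) ∧ En (U.indicator w) ≤ c * Ma (U.indicator w) ∧
      (U.indicator w = 0 → w = 0) := by
    intro w hw
    obtain ⟨hT, hE⟩ := adm_test (k := k) hW2 hw
    have hT' : Test (V ∪ U) w := by rwa [union_comm]
    have hV' : Test V (V.indicator w) := ind_test hV hU hd.symm hT'
    have h1 := split_Ma hU hV hd hT
    have h2 := split_En hU hV hd hT
    have h3 := hM _ hV'
    have h4 := Ma_nonneg (V.indicator w)
    have h5 : c * Ma (V.indicator w) ≤ M * Ma (V.indicator w) :=
      mul_le_mul_of_nonneg_right hcM.le h4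
    refine ⟨ind_test hU hV hd hT, ?_, ?_⟩
    · rw [h1, h2] at hE
      linarith
    · intro h0
      have h6 : Ma (U.indicator w) = 0 := by rw [h0]; unfold Ma; simp
      have h7 : 0 ≤ En (U.indicator w) := En_nonneg _
      rw [h1, h2, h6, zero_add] at hE
      have h8 : M * Ma (V.indicator w) ≤ c * Ma (V.indicator w) := by linarith
      have h9 : Ma (V.indicator w) = 0 := by
        rcases h4.eq_or_lt with h10 | h10
        · exact h10.symm
        · have := mul_lt_mul_of_pos_right hcM h10
          linarith
      refine eq_zero_of_Ma hT ?_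
      rw [h1, h6, h9, add_zero]
  let TW : W →ₗ[ℝ] (Sp n → ℝ) := T.comp W.subtype
  have hinj : Function.Injective TW := by
    rw [injective_iff_map_eq_zero]
    rintro ⟨w, hw⟩ h0
    have h1 : U.indicator w = 0 := h0
    exact Subtype.ext ((key w hw).2.2 h1)
  refine ⟨LinearMap.range TW, ?_, ?_⟩
  · rw [LinearMap.finrank_range_of_inj hinj, hW1]
  · rintro _ ⟨⟨w, hw⟩, rfl⟩
    obtain ⟨h1, h2, -⟩ := key w hw
    exact ⟨h1.smooth, h1.comp, h1.supp, h2⟩

end Pool.Agent.Helper855DB
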