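import Pool.Agent.Helper855DB.PPW2

/-! Affine changes of variables, monotonicity and nonemptiness of admissible levels (helper855). -/

set_option autoImplicit false

open MeasureTheory Filter Topology Set
open scoped ENNReal NNReal RealInnerProductSpace

namespace Pool.Agent.Helper855DB

variable {n : ℕ} {Ω : Set (Sp n)} {u : Sp n → ℝ}

/-- affine pullback -/
noncomputable def AT (a : ℝ) (x0 : Sp n) : (Sp n → ℝ) →ₗ[ℝ] (Sp n → ℝ) where
  toFun f := fun x => f (a • (x - x0))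
  map_add' _ _ := rfl
  map_smul' _ _ := rfl

theorem AT_apply (a : ℝ) (x0 : Sp n) (f : Sp n → ℝ) (x : Sp n) : AT a x0 f x = f (a • (x - x0)) := rfl

theorem AT_inj {a : ℝ} (ha : 0 < a) (x0 : Sp n) : Function.Injective (AT a x0 : (Sp n → ℝ) →ₗ[ℝ] _) := by
  intro f g h
  ext y
  have h1 := congrFun h (a⁻¹ • y + x0)
  rw [AT_apply, AT_apply, add_sub_cancel_right, smul_smul, mul_inv_cancel₀ ha.ne', one_smul] at h1
  exact h1

/-- the affine homeomorphism -/
noncomputable def AH {a : ℝ} (ha : a ≠ 0) (x0 : Sp n) : Sp n ≃ₜ Sp n :=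
  (Homeomorph.subRight x0).trans (Homeomorph.smulOfNeZero a ha)

theorem AT_test {a : ℝ} (ha : 0 < a) (x0 : Sp n) (h : Test Ω u) :
    Test {x | a • (x - x0) ∈ Ω} (AT a x0 u) ∧
    Ma (AT a x0 u) = (a ^ n)⁻¹ * Ma u ∧ En (AT a x0 u) = a ^ 2 * ((a ^ n)⁻¹ * En u) := by
  have hfr : Module.finrank ℝ (Sp n) = n := by simp
  have hsm : ContDiff ℝ (⊤ : ℕ∞) fun x : Sp n => a • (x - x0) :=
    (contDiff_id.sub contDiff_const).const_smul a
  let e : Sp n ≃ₜ Sp n := AH ha.ne' x0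
  have he : ∀ x, e x = a • (x - x0) := fun x => rfl
  have hk : HasCompactSupport (AT a x0 u) := h.comp.comp_homeomorph e
  have hsup : tsupport (AT a x0 u) ⊆ {x | a • (x - x0) ∈ Ω} := by
    have h1 : tsupport (AT a x0 u) ⊆ e ⁻¹' (tsupport u) := by
      refine closure_minimal ?_ ((isClosed_tsupport u).preimage e.continuous)
      intro x hx
      exact subset_tsupport u hx
    intro x hx
    exact h.supp (h1 hx)
  refine ⟨⟨h.smooth.comp hsm, hk, hsup⟩, ?_, ?_⟩
  · unfold Ma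
    have h1 := Measure.integral_comp_smul_of_nonneg (volume : Measure (Sp n))
      (fun y => u y ^ 2) a (hR := ha.le)
    rw [hfr, smul_eq_mul] at h1
    rw [← h1]
    exact integral_sub_right_eq_self (fun y : Sp n => u (a • y) ^ 2) x0
  · unfold En
    have h1 := Measure.integral_comp_smul_of_nonneg (volume : Measure (Sp n))
      (fun y => ‖fderiv ℝ u y‖ ^ 2) a (hR := ha.le)
    rw [hfr, smul_eq_mul] at h1
    rw [← h1, ← integral_const_mul,
      ← integral_sub_right_eq_self (fun y : Sp n => a ^ 2 * ‖fderiv ℝ u (a • y)‖ ^ 2) x0]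
    refine integral_congr_ae (Eventually.of_forall fun x => ?_)
    simp only
    have h2 : HasFDerivAt (AT a x0 u) (a • fderiv ℝ u (a • (x - x0))) x := by
      have h3 : HasFDerivAt (fun x : Sp n => a • (x - x0))
          (a • ContinuousLinearMap.id ℝ (Sp n)) x := ((hasFDerivAt_id x).sub_const x0).const_smul a
      have h4 := (h.diff (a • (x - x0))).hasFDerivAt.comp x h3
      rw [ContinuousLinearMap.comp_smul, ContinuousLinearMap.comp_id] at h4
      exact h4
    rw [h2.fderiv, norm_smul, mul_pow, Real.norm_eq_abs, sq_abs]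

/-- affine change of variables for admissible levels -/
theorem adm_affine {k : ℕ} {a : ℝ} (ha : 0 < a) (x0 : Sp n) {c : ℝ} (hc : c ∈ Adm k Ω) :
    a ^ 2 * c ∈ Adm k {x | a • (x - x0) ∈ Ω} := by
  obtain ⟨V, hV1, hV2⟩ := hc
  refine ⟨V.map (AT a x0), ?_, ?_⟩
  · rw [← hV1]
    exact (LinearEquiv.finrank_eq (Submodule.equivMapOfInjective (AT a x0) (AT_inj ha x0) V)).symm
  · rintro w ⟨v, hv, rfl⟩
    obtain ⟨hT, hE⟩ := adm_test (k := k) hV2 hv
    obtain ⟨h1, h2, h3⟩ := AT_test ha x0 hT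
    refine ⟨h1.smooth, h1.comp, h1.supp, ?_⟩
    have h4 : En (AT a x0 v) ≤ a ^ 2 * c * Ma (AT a x0 v) := by
      rw [h2, h3]
      have hp : 0 < (a ^ n)⁻¹ := by positivity
      have h5 := mul_le_mul_of_nonneg_left hE (show 0 ≤ a ^ 2 * (a ^ n)⁻¹ by positivity)
      linarith
    exact h4

theorem adm_mono {k : ℕ} {Ω' : Set (Sp n)} (h : Ω ⊆ Ω') : Adm k Ω ⊆ Adm k Ω' := by
  rintro c ⟨V, hV1, hV2⟩
  refine ⟨V, hV1, fun v hv => ?_⟩
  obtain ⟨h1, h2, h3, h4⟩ := hV2 v hv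
  exact ⟨h1, h2, h3.trans h, h4⟩

theorem adm_nonempty (hn : 1 ≤ n) (hΩ : IsOpen Ω) (hne : Ω.Nonempty) :
    (Adm (n + 1) Ω).Nonempty := by
  obtain ⟨x, hx⟩ := hne
  obtain ⟨ρ, hρ, hsub⟩ := Metric.isOpen_iff.1 hΩ x hx
  obtain ⟨c, hc⟩ := adm_ball_nonempty hn hρ
  have h1 := adm_affine one_pos x hc
  refine ⟨_, adm_mono ?_ h1⟩
  intro y hy
  apply hsub
  simp only [mem_ofPred_eq, one_smul, Metric.mem_ball, dist_zero_right] at hy
  rwa [Metric.mem_ball, dist_eq_norm]

/-- lowering the dimension -/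
theorem adm_anti {k k' : ℕ} (hk : k ≤ k') {c : ℝ} (hc : c ∈ Adm k' Ω) (hk1 : 1 ≤ k) :
    c ∈ Adm k Ω := by
  obtain ⟨V, hV1, hV2⟩ := hc
  have hfd : FiniteDimensional ℝ V := FiniteDimensional.of_finrank_pos (by omega)
  let b := Module.finBasisOfFinrankEq ℝ V hV1
  let f : Fin k → (Sp n → ℝ) := fun i => (b (Fin.castLE hk i) : Sp n → ℝ)
  have hli : LinearIndependent ℝ f := by
    have h1 : LinearIndependent ℝ (fun i : Fin k => b (Fin.castLE hk i)) :=
      b.linearIndependent.comp _ (Fin.castLE_injective hk)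
    have h2 := h1.map' V.subtype (Submodule.ker_subtype V)
    exact h2
  refine ⟨Submodule.span ℝ (range f), ?_, ?_⟩
  · rw [finrank_span_eq_card hli, Fintype.card_fin]
  · intro v hv
    have hle : Submodule.span ℝ (range f) ≤ V := by
      rw [Submodule.span_le]
      rintro _ ⟨i, rfl⟩
      exact (b (Fin.castLE hk i)).2
    exact hV2 v (hle hv)

theorem lam_mono_dim {k k' : ℕ} (hk : k ≤ k') (hk1 : 1 ≤ k) (hne : (Adm k' Ω).Nonempty) :
    lam k Ω ≤ lam k' Ω :=
  csInf_le_csInf (adm_bdd hk1) hne fun _ hc => adm_anti hk hc hk1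

end Pool.Agent.Helper855DB
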